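import Pool.Agent.Helper14.TX.Tri

/-!
# The coefficients of the products of the Hasse invariant

PROOF of `Bn_coeff`. Induction on `n` with `Bn_succ`: the coefficient of `X ^ (c' p ^ (n + 1) - c)` in
`H * expand p (Bn n H)` is the sum of `H.coeff i * (Bn n H).coeff j` over
`i + p j = c' p ^ (n + 1) - c`; then `i = p u - c`, `j = c' p ^ n - u` with `u ≥ 1` (`1 ≤ c < p`). By
`Hp_coeff` only `u ≤ c` contribute; by induction (`u ≤ c ≤ c'`) only `u = c'`, so
`u = c = c'`.
-/

set_option autoImplicit false

open Polynomial

namespace Pool.Agent.Helper14.TX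

theorem Bn_coeff (p : ℕ) [Fact p.Prime] (hp : p % 4 = 3) (n c c' : ℕ) (hc : 1 ≤ c)
    (hc2 : c ≤ (p + 1) / 4) (hcc : c ≤ c') :
    (Bn p n (Hp p)).coeff (c' * p ^ n - c) =
      if c' = c then (Nat.choose ((p - 1) / 2) (2 * c - 1) : ZMod p) ^ n else 0 := by
  have hpp : p.Prime := Fact.out
  have hp1 : 0 < p := hpp.pos
  induction n generalizing c with
  | zero =>
    have hB : Bn p 0 (Hp p) = 1 := by
      unfold Bn
      simp
    rw [hB, pow_zero, mul_one, Polynomial.coeff_one]
    by_cases h : c' = c
    · subst h
      simp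
    · have h2 : c' - c ≠ 0 := by omega
      rw [if_neg h2, if_neg h]
  | succ n ih =>
    have hpn : 1 ≤ p ^ n := Nat.one_le_pow _ _ hp1
    have hcn : c ≤ c' * p ^ n := le_trans hcc (Nat.le_mul_of_pos_right _ hpn)
    have hm : c' * p ^ (n + 1) = p * (c' * p ^ n) := by ring
    have hcpn : c ≤ p * (c' * p ^ n) :=
      le_trans hcn (Nat.le_mul_of_pos_left _ hp1)
    have hpc : c ≤ p * c := Nat.le_mul_of_pos_left _ hp1
    have hsplit : p * (c' * p ^ n) = p * c + p * (c' * p ^ n - c) := by
      rw [← Nat.mul_add, Nat.add_sub_cancel' hcn]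
    rw [Bn_succ, Polynomial.coeff_mul, hm]
    rw [Finset.sum_eq_single (p * c - c, p * (c' * p ^ n - c))]
    · have hx : (expand (ZMod p) p (Bn p n (Hp p))).coeff (p * (c' * p ^ n - c)) =
          (Bn p n (Hp p)).coeff (c' * p ^ n - c) := by
        rw [mul_comm, Polynomial.coeff_expand_mul hp1]
      rw [hx, Hp_coeff p hp c c hc hc2 le_rfl, if_pos rfl, ih c hc hc2 hcc]
      by_cases h : c' = c
      · rw [if_pos h, if_pos h, pow_succ]
        ring
      · rw [if_neg h, if_neg h, mul_zero]
    · rintro ⟨i, j⟩ hij hne
      rw [Finset.HasAntidiagonal.mem_antidiagonal] at hij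
      simp only at hij ⊢
      by_cases hj : p ∣ j
      · obtain ⟨j', rfl⟩ := hj
        have hj' : j' ≤ c' * p ^ n := by
          by_contra hlt
          push Not at hlt
          have : p * (c' * p ^ n) < p * j' := Nat.mul_lt_mul_of_pos_left hlt hp1
          omega
        obtain ⟨u, hu⟩ := Nat.exists_eq_add_of_le hj'
        have hpu : p * (c' * p ^ n) = p * j' + p * u := by rw [hu, Nat.mul_add]
        have hiu : i = p * u - c := by omega
        have hcu : c ≤ p * u := by omega
        have hju : j' = c' * p ^ n - u := by omega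
        have hx : (expand (ZMod p) p (Bn p n (Hp p))).coeff (p * j') =
            (Bn p n (Hp p)).coeff (c' * p ^ n - u) := by
          rw [mul_comm, Polynomial.coeff_expand_mul hp1, hju]
        rw [hx]
        rcases lt_trichotomy u c with h | h | h
        · have hu1 : 1 ≤ u := by
            rcases Nat.eq_zero_or_pos u with h0 | h0
            · subst h0
              omega
            · exact h0
          rw [ih u hu1 (by omega) (by omega), if_neg (by omega), mul_zero]
        · exfalso
          apply hne
          subst h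
          rw [hiu, hju]
        · rw [hiu, Hp_coeff p hp c u hc hc2 h.le, if_neg (by omega), zero_mul]
      · rw [Polynomial.coeff_expand hp1, if_neg hj, mul_zero]
    · intro h
      exfalso
      apply h
      rw [Finset.HasAntidiagonal.mem_antidiagonal]
      omega

end Pool.Agent.Helper14.TX
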