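import Mathlib

/-!
# A combinatorial lemma on affine actions

PROOF of `comb`. Let `B` be the class of `x₀`; it has at least two elements. For `g ∈ G` the set
`g • B` is the class of `g • x₀` (`hs` for `g` and `g⁻¹`) and has the same number `h` of elements.

(1) Let `g • B = B`. Then `B` is stable under `g` and by `haff` there is `e` with
`ι (g • x) = c g * ι x + e` for all `x ∈ B`. Sum over `B`: with `s = ∑ (x ∈ B), ι x`,
`s = c g * s + h e`. As `1 ≤ h < ℓ`, `h` is invertible in `ZMod ℓ`; put `b = s / h`. Then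
`ι (g • x) - b = c g * (ι x - b)` for `x ∈ B`. So the set `B' = {ι x - b : x ∈ B}` (with `h` elements)
is stable under multiplication by `c g`. Choose `y ∈ B'`, `y ≠ 0` (possible as `h ≥ 2`). The
elements `c g * y`, for the different values `c g` with `g • B = B`, are different elements of `B'`: so
the set `C = {c g : g • B = B}` has at most `h` elements.

(2) For every unit `u` choose `σ u ∈ G` with `c (σ u) = u`. If `σ u • B = σ u' • B` then
`(σ u')⁻¹ * σ u` fixes `B` and `c` of it is `u / u'`. So every class is `σ u • B` for at most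
`#C ≤ h` units `u`; as there are `ℓ - 1` units, the number `ρ` of different sets `σ u • B` satisfies
`ρ h ≥ ℓ - 1`. These sets are disjoint classes with `h` elements and there are `ℓ - 1` points; so they
cover everything: every class has exactly `h` elements.

PROOF of `dvd_of_classes`. A saturated set is a disjoint union of classes.
-/

set_option autoImplicit false

namespace Pool.Agent.Helper14.TX

/-- The class of `x`. -/
def cl {R : Type} [Fintype R] (s : Setoid R) [DecidableRel s.r] (x : R) : Finset R :=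
  Finset.univ.filter (fun y => s.r x y)

theorem mem_cl {R : Type} [Fintype R] (s : Setoid R) [DecidableRel s.r] (x y : R) :
    y ∈ cl s x ↔ s.r x y := by
  simp [cl]

theorem cl_eq {R : Type} [Fintype R] (s : Setoid R) [DecidableRel s.r] {x y : R} (h : s.r x y) :
    cl s x = cl s y := by
  ext z
  rw [mem_cl, mem_cl]
  exact ⟨fun hz => s.trans (s.symm h) hz, fun hz => s.trans h hz⟩

theorem comb (ℓ : ℕ) [Fact ℓ.Prime] {R : Type} [Fintype R] [DecidableEq R]
    (hcard : Fintype.card R + 1 = ℓ) {G : Type} [Group G] [MulAction G R] (c : G →* (ZMod ℓ)ˣ)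
    (hc : Function.Surjective c) (ι : R → ZMod ℓ) (hι : Function.Injective ι) (s : Setoid R)
    [DecidableRel s.r] (hs : ∀ (g : G) (x y : R), s.r x y → s.r (g • x) (g • y))
    (haff : ∀ (g : G) (x y : R), s.r x y →
      ι (g • x) - ι (g • y) = (c g : ZMod ℓ) * (ι x - ι y)) (x₀ y₀ : R) (h : s.r x₀ y₀)
    (hne : x₀ ≠ y₀) :
    ∃ h : ℕ, 2 ≤ h ∧ ∀ x : R, (Finset.univ.filter (fun y => s.r x y)).card = h := by
  classical
  set B := cl s x₀ with hB
  have hx₀ : x₀ ∈ B := (mem_cl s x₀ x₀).2 (s.refl x₀)
  have hy₀ : y₀ ∈ B := (mem_cl s x₀ y₀).2 h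
  have hB2 : 2 ≤ B.card := by
    have h1 : ({x₀, y₀} : Finset R) ⊆ B := by
      intro z hz
      rw [Finset.mem_insert, Finset.mem_singleton] at hz
      rcases hz with rfl | rfl
      · exact hx₀
      · exact hy₀
    have h2 := Finset.card_le_card h1
    rw [Finset.card_pair hne] at h2
    exact h2
  -- transport of classes
  have himg : ∀ g : G, cl s (g • x₀) = B.image (fun x => g • x) := by
    intro g
    ext z
    rw [mem_cl, Finset.mem_image]
    constructor
    · intro hz
      refine ⟨g⁻¹ • z, ?_, by simp⟩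
      rw [hB, mem_cl]
      have := hs g⁻¹ _ _ hz
      rwa [inv_smul_smul] at this
    · rintro ⟨x, hx, rfl⟩
      rw [hB, mem_cl] at hx
      exact hs g _ _ hx
  have hcardg : ∀ g : G, (cl s (g • x₀)).card = B.card := by
    intro g
    rw [himg g, Finset.card_image_of_injective _ (MulAction.injective g)]
  -- the cardinality of `B` is invertible
  have hBne : ((B.card : ℕ) : ZMod ℓ) ≠ 0 := by
    intro h0
    rw [ZMod.natCast_eq_zero_iff] at h0
    have h1 := Nat.le_of_dvd (by omega) h0
    have h2 : B.card ≤ Fintype.card R := Finset.card_le_univ B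
    omega
  set b : ZMod ℓ := (∑ x ∈ B, ι x) / (B.card : ZMod ℓ) with hb
  have hbs : (B.card : ZMod ℓ) * b = ∑ x ∈ B, ι x := by
    rw [hb, mul_div_cancel₀ _ hBne]
  have hfix : ∀ g : G, s.r x₀ (g • x₀) → ∀ x ∈ B, g • x ∈ B ∧
      ι (g • x) - b = (c g : ZMod ℓ) * (ι x - b) := by
    intro g hg x hx
    have hBg : B.image (fun x => g • x) = B := by
      rw [← himg g, hB]
      exact (cl_eq s hg).symm
    refine ⟨?_, ?_⟩
    · rw [← hBg]
      exact Finset.mem_image_of_mem _ hx
    · have hsum : ∑ y ∈ B, ι (g • y) = ∑ y ∈ B, ι y := by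
        conv_rhs => rw [← hBg]
        rw [Finset.sum_image]
        intro u _ v _ huv
        exact MulAction.injective g huv
      have h1 : ∑ y ∈ B, (ι (g • x) - ι (g • y)) = ∑ y ∈ B, (c g : ZMod ℓ) * (ι x - ι y) := by
        apply Finset.sum_congr rfl
        intro y hy
        apply haff
        rw [hB, mem_cl] at hx hy
        exact s.trans (s.symm hx) hy
      rw [Finset.sum_sub_distrib, hsum, ← Finset.mul_sum, Finset.sum_sub_distrib,
        Finset.sum_const, Finset.sum_const, nsmul_eq_mul, nsmul_eq_mul, ← hbs] at h1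
      apply mul_left_cancel₀ hBne
      linear_combination h1
  -- a point of `B` different from the centre
  obtain ⟨y, hyB, hyb⟩ : ∃ y ∈ B, ι y - b ≠ 0 := by
    by_contra hcon
    push Not at hcon
    apply hne
    apply hι
    have h1 := hcon x₀ hx₀
    have h2 := hcon y₀ hy₀
    exact (sub_eq_zero.1 h1).trans (sub_eq_zero.1 h2).symm
  -- the slopes of the stabilizer
  set Cs : Finset (ZMod ℓ)ˣ := Finset.univ.filter (fun u => ∃ g : G, c g = u ∧ s.r x₀ (g • x₀))
    with hCs
  have hCcard : Cs.card ≤ B.card := by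
    choose! γ hγ using (fun (u : (ZMod ℓ)ˣ) (hu : u ∈ Cs) => (Finset.mem_filter.1 hu).2)
    apply Finset.card_le_card_of_injOn (fun u => γ u • y)
    · intro u hu
      exact (hfix (γ u) (hγ u hu).2 y hyB).1
    · intro u hu v hv huv
      have h1 := (hfix (γ u) (hγ u hu).2 y hyB).2
      have h2 := (hfix (γ v) (hγ v hv).2 y hyB).2
      have huv' : γ u • y = γ v • y := huv
      rw [huv', h2, (hγ u hu).1, (hγ v hv).1] at h1
      have h3 := mul_right_cancel₀ hyb h1
      exact (Units.ext h3).symm
  -- the conjugates of `B`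
  choose σ hσ using hc
  set f : (ZMod ℓ)ˣ → Finset R := fun u => cl s (σ u • x₀) with hf
  have hfib : ∀ t ∈ (Finset.univ : Finset (ZMod ℓ)ˣ).image f,
      (Finset.univ.filter (fun u => f u = t)).card ≤ B.card := by
    intro t ht
    rw [Finset.mem_image] at ht
    obtain ⟨v, -, hv⟩ := ht
    refine le_trans ?_ hCcard
    apply Finset.card_le_card_of_injOn (fun u => v⁻¹ * u)
    · intro u hu
      rw [Finset.mem_coe, Finset.mem_filter] at hu
      rw [Finset.mem_coe, hCs, Finset.mem_filter]
      refine ⟨Finset.mem_univ _, (σ v)⁻¹ * σ u, ?_, ?_⟩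
      · rw [map_mul, map_inv, hσ, hσ]
      · have h1 : cl s (σ v • x₀) = cl s (σ u • x₀) := by
          have : f v = f u := hv.trans hu.2.symm
          exact this
        have h2 : σ u • x₀ ∈ cl s (σ v • x₀) := by
          rw [h1]; exact (mem_cl s _ _).2 (s.refl _)
        rw [mem_cl] at h2
        have h3 := hs (σ v)⁻¹ _ _ h2
        rwa [inv_smul_smul, ← mul_smul] at h3
    · intro u _ w _ huw
      exact mul_left_cancel huw
  have hle := Finset.card_le_mul_card_image (Finset.univ : Finset (ZMod ℓ)ˣ) B.card hfib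
  rw [Finset.card_univ, ZMod.card_units_eq_totient, Nat.totient_prime Fact.out] at hle
  set T := (Finset.univ : Finset (ZMod ℓ)ˣ).image f with hT
  have hTcl : ∀ t ∈ T, ∃ g : G, t = cl s (g • x₀) := by
    intro t ht
    rw [hT, Finset.mem_image] at ht
    obtain ⟨u, -, hu⟩ := ht
    exact ⟨σ u, hu.symm⟩
  have hdisj : ((T : Set (Finset R))).PairwiseDisjoint id := by
    intro t ht t' ht' htt'
    obtain ⟨g, rfl⟩ := hTcl t ht
    obtain ⟨g', rfl⟩ := hTcl t' ht'
    rw [Function.onFun, Finset.disjoint_left]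
    intro z hz hz'
    apply htt'
    simp only [id] at hz hz'
    rw [mem_cl] at hz hz'
    rw [cl_eq s hz, cl_eq s hz']
  have hun : (T.biUnion id).card = T.card * B.card := by
    rw [Finset.card_biUnion hdisj]
    rw [Finset.sum_const_nat (m := B.card)]
    intro t ht
    obtain ⟨g, rfl⟩ := hTcl t ht
    exact hcardg g
  have huniv : T.biUnion id = Finset.univ := by
    apply Finset.eq_univ_of_card
    apply le_antisymm (Finset.card_le_univ _)
    rw [hun, mul_comm]
    omega
  refine ⟨B.card, hB2, ?_⟩
  intro x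
  have hx : x ∈ T.biUnion id := by rw [huniv]; exact Finset.mem_univ _
  rw [Finset.mem_biUnion] at hx
  obtain ⟨t, ht, hxt⟩ := hx
  obtain ⟨g, rfl⟩ := hTcl t ht
  simp only [id] at hxt
  rw [mem_cl] at hxt
  have h1 := cl_eq s hxt
  have h2 := hcardg g
  rw [h1] at h2
  exact h2

theorem dvd_of_classes {R : Type} [Fintype R] [DecidableEq R] (s : Setoid R) [DecidableRel s.r]
    (h : ℕ) (hcl : ∀ x : R, (Finset.univ.filter (fun y => s.r x y)).card = h) (U : Finset R)
    (hU : ∀ x y : R, s.r x y → x ∈ U → y ∈ U) : h ∣ U.card := by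
  classical
  have h1 := Finset.card_eq_sum_card_image (cl s) U
  rw [h1]
  apply Finset.dvd_sum
  intro t ht
  rw [Finset.mem_image] at ht
  obtain ⟨x, hx, rfl⟩ := ht
  have h2 : U.filter (fun y => cl s y = cl s x) = Finset.univ.filter (fun y => s.r x y) := by
    ext y
    rw [Finset.mem_filter, Finset.mem_filter]
    constructor
    · rintro ⟨hy, hyx⟩
      refine ⟨Finset.mem_univ _, ?_⟩
      have : y ∈ cl s x := by rw [← hyx]; exact (mem_cl s _ _).2 (s.refl y)
      exact (mem_cl s x y).1 this
    · rintro ⟨-, hy⟩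
      exact ⟨hU x y hy hx, (cl_eq s hy).symm⟩
  rw [h2, hcl x]

end Pool.Agent.Helper14.TX
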