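import Pool.Agent.Helper14.TX.ZeroCount

/-!
# The number of points of the surface

PROOF. Apply `Pool.Agent.Helper2.Tate.kummer` with `ℓ = 2`, base set `V = univ` in
`AlgebraicClosure F × AlgebraicClosure F`, `Φ` the Frobenius on both coordinates and
`h (t, x) = x ^ 3 + t a(t) x ^ 2 + t x`: with `Z` the number of zeros (`zero_count`) and `q ^ (2 n)`
the number of all points `(t, x)`, the number is `Z + 2 (q ^ (2 n) - Z) - 2 t`.
(`Φ^[n] P = P` means that both coordinates satisfy `RatOver F n`; the number of elements with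
`RatOver F n` is `q ^ n`, see e.g. `card_Kn` or Mathlib's `FiniteField` lemmas: the polynomial
`X ^ (q ^ n) - X` is separable and splits.)
-/

set_option autoImplicit false

open Polynomial Pool.Agent.Helper2.Tate

namespace Pool.Agent.Helper14.TX

/-- The number of points of the surface over the extension of degree `n`. -/
theorem count (F : Type) [Field F] [Fintype F] (h2 : (2 : F) ≠ 0) (a : F[X])
    (hirr : Irreducible (X * a ^ 2 - 4)) (n : ℕ) (hn : 1 ≤ n) :
    ∃ s t : ℕ, 2 ^ padicValNat 2 n ∣ s ∧ 2 ^ padicValNat 2 n ∣ t ∧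
      ((surf F a n).ncard : ℤ) = 2 * (Fintype.card F : ℤ) ^ (2 * n) -
        3 * (Fintype.card F : ℤ) ^ n + 2 + (if deg a ∣ n then (deg a : ℤ) else 0) + 2 * s - 2 * t := by
  classical
  have hq2 : 2 ≤ Fintype.card F := Fintype.one_lt_card
  have hdvd := two_dvd_card_sub_one F h2
  obtain ⟨p, hp, hpq, hpΩ⟩ := exists_charP F
  have h2Ω : ((2 : ℕ) : AlgebraicClosure F) ≠ 0 := cast_ne_zero F 2 Nat.prime_two hdvd
  have hfinK := Kn_finite (Ω := AlgebraicClosure F) (Fintype.card F) n hq2 hn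
  have hcardK := ncard_Kn (Ω := AlgebraicClosure F) p (Fintype.card F) n hq2 hpq hn
  obtain ⟨s, hs, hz⟩ := zero_count F h2 a hirr n hn
  have hfix : ∀ P : AlgebraicClosure F × AlgebraicClosure F,
      (Prod.map (frob F) (frob F))^[n] P = P ↔ RatOver F n P.1 ∧ RatOver F n P.2 := by
    rintro ⟨t, x⟩
    rw [Prod.map_iterate, Prod.map_apply, iterate_frob (frob F) (frob_apply F) n t,
      iterate_frob (frob F) (frob_apply F) n x, Prod.mk.injEq]
    rfl
  have eV : {P | P ∈ (Set.univ : Set (AlgebraicClosure F × AlgebraicClosure F)) ∧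
      (Prod.map (frob F) (frob F))^[n] P = P} =
      Kn (AlgebraicClosure F) (Fintype.card F) n ×ˢ Kn (AlgebraicClosure F) (Fintype.card F) n := by
    ext P
    simp only [Set.mem_ofPred_eq, hfix, Set.mem_univ, true_and, Set.mem_prod]
    rfl
  have eVcard : ({P | P ∈ (Set.univ : Set (AlgebraicClosure F × AlgebraicClosure F)) ∧
      (Prod.map (frob F) (frob F))^[n] P = P}.ncard : ℤ) = (Fintype.card F : ℤ) ^ (2 * n) := by
    rw [eV, Set.ncard_prod, hcardK]
    push_cast
    ring
  obtain ⟨t, ht, hc⟩ := kummer 2 (Fintype.card F) Nat.prime_two hq2 hdvd h2Ω (frob F)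
    (frob_apply F) (Prod.map (frob F) (frob F))
    (Set.univ : Set (AlgebraicClosure F × AlgebraicClosure F)) (fun _ _ => Set.mem_univ _)
    (fun P => P.2 ^ 3 + P.1 * aeval P.1 a * P.2 ^ 2 + P.1 * P.2)
    (fun P _ => by
      simp only [Prod.map_fst, Prod.map_snd, frob_polyAeval, map_add, map_mul, map_pow]) n hn
    (by rw [eV]; exact hfinK.prod hfinK)
  refine ⟨s, t, hs, ht, ?_⟩
  have e1 : surf F a n = {x : (AlgebraicClosure F × AlgebraicClosure F) × AlgebraicClosure F |
      (x.1 ∈ (Set.univ : Set (AlgebraicClosure F × AlgebraicClosure F)) ∧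
        (Prod.map (frob F) (frob F))^[n] x.1 = x.1) ∧
      x.2 ∈ Kn (AlgebraicClosure F) (Fintype.card F) n ∧
      x.2 ^ 2 = x.1.2 ^ 3 + x.1.1 * aeval x.1.1 a * x.1.2 ^ 2 + x.1.1 * x.1.2} := by
    ext x
    simp only [surf, Set.mem_ofPred_eq, hfix, Set.mem_univ, true_and]
    rfl
  have e2 : {P : AlgebraicClosure F × AlgebraicClosure F |
      (P ∈ (Set.univ : Set (AlgebraicClosure F × AlgebraicClosure F)) ∧
        (Prod.map (frob F) (frob F))^[n] P = P) ∧
      P.2 ^ 3 + P.1 * aeval P.1 a * P.2 ^ 2 + P.1 * P.2 = 0} =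
      {P : AlgebraicClosure F × AlgebraicClosure F | (RatOver F n P.1 ∧ RatOver F n P.2) ∧
        P.2 ^ 3 + P.1 * aeval P.1 a * P.2 ^ 2 + P.1 * P.2 = 0} := by
    ext P
    simp only [Set.mem_ofPred_eq, hfix, Set.mem_univ, true_and]
  rw [e2, eVcard, hz] at hc
  rw [e1, hc]
  push_cast
  ring

end Pool.Agent.Helper14.TX
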