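import Mathlib

/-!
# The sum over `x`: the Hasse invariant

PROOF of `sum_eval`. `∑ x, x ^ j` over `K` is `-1` if `j > 0` and `#K - 1 ∣ j`, otherwise `0`
(`FiniteField.sum_pow_units`, `FiniteField.sum_pow_lt_card_sub_one`; `j = 0` gives `#K = 0` in `K`).

PROOF of `coeff_pow`. Put `s n = (p ^ n - 1) / (p - 1)`, so `s (n + 1) = 1 + p * s n`, and
`A n = (P ^ M) ^ (s n)`, `M = (p - 1) / 2`; `A (n + 1) = P ^ M * (A n) ^ p`. `(A n) ^ p` is
`∑ j, (coeff j) ^ p X ^ (p j)` (`Polynomial.map_frobenius_expand` or similar). `P ^ M` has only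
monomials of degree between `M` and `3 M` (`X ∣ P`, `P.natDegree ≤ 3`). The coefficient of
`X ^ (p ^ (n + 1) - 1)` in `A (n + 1)` is the sum over `i + p j = p ^ (n + 1) - 1` of
`(P ^ M).coeff i * ((A n).coeff j) ^ p`; `i` is congruent to `-1` modulo `p` and
`M ≤ i ≤ 3 M < 2 p - 1`, so `i = p - 1` and `j = p ^ n - 1`. Induction on `n`.

PROOF of `sum_x`. `(p ^ n - 1) / 2 = M * s n`, `P ^ ((p ^ n - 1) / 2) = A n` has degree at most
`3 (p ^ n - 1) / 2 < 2 (p ^ n - 1)`; apply `sum_eval` and `coeff_pow`.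
-/

set_option autoImplicit false

open Polynomial

namespace Pool.Agent.Helper14.TX

private lemma sumX_powsum (K : Type) [Field K] [Fintype K] (i : ℕ) (hi : i ≠ 0) :
    ∑ x : K, x ^ i = if Fintype.card K - 1 ∣ i then -1 else 0 := by
  classical
  let φ : Kˣ ↪ K := ⟨fun x ↦ x, Units.val_injective⟩
  have h1 : Finset.univ.map φ = Finset.univ \ {0} := by
    ext x
    simpa only [Finset.mem_map, Finset.mem_univ, Function.Embedding.coeFn_mk, true_and,
      Finset.mem_sdiff, Finset.mem_singleton, φ] using! isUnit_iff_ne_zero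
  calc
    ∑ x : K, x ^ i = ∑ x ∈ Finset.univ \ {(0 : K)}, x ^ i := by
      rw [← Finset.sum_sdiff ({0} : Finset K).subset_univ, Finset.sum_singleton, zero_pow hi,
        add_zero]
    _ = ∑ x : Kˣ, (x ^ i : K) := by simp [φ, ← h1, Finset.univ.sum_map φ]
    _ = if Fintype.card K - 1 ∣ i then -1 else 0 := FiniteField.sum_pow_units K i

theorem sum_eval (K : Type) [Field K] [Fintype K] (A : K[X])
    (hA : A.natDegree < 2 * (Fintype.card K - 1)) :
    ∑ x : K, A.eval x = - A.coeff (Fintype.card K - 1) := by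
  have hq : 1 < Fintype.card K := Fintype.one_lt_card
  simp_rw [eval_eq_sum_range]
  rw [Finset.sum_comm]
  have key : ∀ i ∈ Finset.range (A.natDegree + 1), ∑ x : K, A.coeff i * x ^ i =
      if i = Fintype.card K - 1 then - A.coeff i else 0 := by
    intro i hi
    rw [Finset.mem_range] at hi
    rw [← Finset.mul_sum]
    by_cases h0 : i = 0
    · subst h0
      have h1 : ¬ (0 = Fintype.card K - 1) := by omega
      rw [if_neg h1, FiniteField.sum_pow_lt_card_sub_one K 0 (by omega), mul_zero]
    · rw [sumX_powsum K i h0]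
      by_cases h1 : i = Fintype.card K - 1
      · rw [if_pos h1, if_pos (by rw [h1])]
        ring
      · rw [if_neg h1, if_neg, mul_zero]
        rintro ⟨c, hc⟩
        rcases c with _ | _ | c
        · exact h0 (by simpa using hc)
        · exact h1 (by simpa using hc)
        · have : 2 * (Fintype.card K - 1) ≤ i := by
            rw [hc, mul_comm 2]
            exact Nat.mul_le_mul_left _ (by omega)
          omega
  rw [Finset.sum_congr rfl key, Finset.sum_ite_eq']
  by_cases h2 : Fintype.card K - 1 ∈ Finset.range (A.natDegree + 1)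
  · rw [if_pos h2]
  · rw [if_neg h2, coeff_eq_zero_of_natDegree_lt, neg_zero]
    rw [Finset.mem_range] at h2
    omega

private lemma sumX_geom (p : ℕ) (hp : 1 < p) (n : ℕ) :
    p ^ n = 1 + (p - 1) * ((p ^ n - 1) / (p - 1)) := by
  have h1 : p - 1 ∣ p ^ n - 1 := by simpa using Nat.sub_dvd_pow_sub_pow p 1 n
  rw [Nat.mul_div_cancel' h1]
  have : 0 < p ^ n := pow_pos (by omega) n
  omega

private lemma sumX_geom_succ (p : ℕ) (hp : 1 < p) (n : ℕ) :
    (p ^ (n + 1) - 1) / (p - 1) = 1 + p * ((p ^ n - 1) / (p - 1)) := by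
  have h1 := sumX_geom p hp n
  have h2 := sumX_geom p hp (n + 1)
  set a := (p ^ n - 1) / (p - 1)
  set b := (p ^ (n + 1) - 1) / (p - 1)
  obtain ⟨m, rfl⟩ : ∃ m, p = m + 1 := ⟨p - 1, by omega⟩
  simp only [Nat.add_sub_cancel] at h1 h2
  rw [pow_succ, h1] at h2
  have h3 : m * b = m * (1 + (m + 1) * a) := by
    have : (1 + m * a) * (m + 1) = 1 + m * (1 + (m + 1) * a) := by ring
    omega
  exact Nat.eq_of_mul_eq_mul_left (by omega) h3

theorem coeff_pow (p : ℕ) [Fact p.Prime] (hp2 : p ≠ 2) (K : Type) [Field K] [CharP K p] (n : ℕ)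
    (P : K[X]) (hP : P.natDegree ≤ 3) (hX : X ∣ P) :
    ((P ^ ((p - 1) / 2)) ^ ((p ^ n - 1) / (p - 1))).coeff (p ^ n - 1) =
      ((P ^ ((p - 1) / 2)).coeff (p - 1)) ^ ((p ^ n - 1) / (p - 1)) := by
  have hp : p.Prime := Fact.out
  have hp1 : 1 < p := hp.one_lt
  set Q : K[X] := P ^ ((p - 1) / 2) with hQ
  have hQd : Q.natDegree ≤ 3 * ((p - 1) / 2) := by
    rw [hQ]
    refine natDegree_pow_le.trans ?_
    rw [mul_comm]
    exact Nat.mul_le_mul_right _ hP
  induction n with
  | zero => simp
  | succ n ih =>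
    rw [sumX_geom_succ p hp1 n]
    set s := (p ^ n - 1) / (p - 1)
    have e1 : Q ^ (1 + p * s) = Q * map (frobenius K p) (expand K p (Q ^ s)) := by
      rw [map_frobenius_expand, pow_add, pow_one, mul_comm p s, pow_mul]
    have hpn : 0 < p ^ n := pow_pos (by omega) n
    have hpn1 : p ^ (n + 1) = p * p ^ n := by rw [pow_succ, mul_comm]
    have e2 : p ^ (n + 1) - 1 = (p - 1) + p * (p ^ n - 1) := by
      rw [hpn1, Nat.mul_sub, mul_one]
      have : p ≤ p * p ^ n := Nat.le_mul_of_pos_right _ hpn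
      omega
    rw [e1, Polynomial.coeff_mul]
    rw [Finset.sum_eq_single ((p - 1, p * (p ^ n - 1)) : ℕ × ℕ)]
    · simp only
      rw [coeff_map, coeff_expand_mul' (by omega), ih, frobenius_def, pow_add, pow_one,
        mul_comm p s, pow_mul]
    · rintro ⟨i, j⟩ hij hne
      rw [Finset.HasAntidiagonal.mem_antidiagonal] at hij
      simp only at hij ⊢
      rw [coeff_map, coeff_expand (by omega)]
      by_cases hj : p ∣ j
      · obtain ⟨k, rfl⟩ := hj
        have h3 : Q.coeff i = 0 := by
          apply coeff_eq_zero_of_natDegree_lt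
          refine lt_of_le_of_lt hQd ?_
          by_contra hcon
          push Not at hcon
          have hi2 : i < 2 * p - 1 := by omega
          -- `i + 1` is a multiple of `p`
          have h4 : i + 1 + p * k = p * p ^ n := by
            rw [← hpn1]
            have : 0 < p ^ (n + 1) := pow_pos (by omega) _
            omega
          have h5 : p ∣ i + 1 := by
            have : p ∣ i + 1 + p * k := by rw [h4]; exact dvd_mul_right _ _
            exact (Nat.dvd_add_left (dvd_mul_right p k)).1 this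
          obtain ⟨c, hc⟩ := h5
          rcases c with _ | _ | c
          · omega
          · have hi : i = p - 1 := by omega
            apply hne
            rw [Prod.mk.injEq]
            exact ⟨hi, by omega⟩
          · have : p * 2 ≤ i + 1 := by
              rw [hc]
              exact Nat.mul_le_mul_left _ (by omega)
            omega
        rw [h3, zero_mul]
      · rw [if_neg hj, map_zero, mul_zero]
    · intro h
      exact absurd (Finset.HasAntidiagonal.mem_antidiagonal.2 e2.symm) h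

/-- The norm of the Hasse invariant. -/
theorem sum_x (p : ℕ) [Fact p.Prime] (hp2 : p ≠ 2) (K : Type) [Field K] [Fintype K] [CharP K p]
    (n : ℕ) (hn : 1 ≤ n) (hK : Fintype.card K = p ^ n) (P : K[X]) (hP : P.natDegree ≤ 3)
    (hX : X ∣ P) :
    ∑ x : K, (P.eval x) ^ ((p ^ n - 1) / 2) =
      - ((P ^ ((p - 1) / 2)).coeff (p - 1)) ^ ((p ^ n - 1) / (p - 1)) := by
  have hp : p.Prime := Fact.out
  have hp1 : 1 < p := hp.one_lt
  have hodd : p % 2 = 1 := hp.eq_two_or_odd.resolve_left hp2
  obtain ⟨m, hm⟩ : ∃ m, p = 2 * m + 1 := ⟨(p - 1) / 2, by omega⟩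
  have hmm : (p - 1) / 2 = m := by omega
  have hg := sumX_geom p hp1 n
  have hqn : 1 < p ^ n := Nat.one_lt_pow (by omega) hp1
  rw [← coeff_pow p hp2 K n P hP hX]
  set s := (p ^ n - 1) / (p - 1)
  have hp2m : p - 1 = 2 * m := by omega
  have e1 : p ^ n - 1 = 2 * (m * s) := by
    rw [hg, hp2m, Nat.add_sub_cancel_left]
    ring
  have e2 : (p ^ n - 1) / 2 = m * s := by omega
  rw [hmm, e2]
  have hd : ((P ^ m) ^ s).natDegree < 2 * (Fintype.card K - 1) := by
    rw [hK, e1]
    have h1 : ((P ^ m) ^ s).natDegree ≤ (m * s) * 3 := by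
      rw [← pow_mul]
      refine natDegree_pow_le.trans ?_
      exact Nat.mul_le_mul_left _ hP
    omega
  have h := sum_eval K ((P ^ m) ^ s) hd
  rw [hK] at h
  rw [← h]
  refine Finset.sum_congr rfl fun x _ => ?_
  rw [eval_pow, eval_pow, pow_mul]

end Pool.Agent.Helper14.TX
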