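import Pool.Agent.Helper14.TX.Defs

/-!
# Points over an abstract finite field

PROOF. Choose an embedding of `K` over `ZMod p` in `AlgebraicClosure (ZMod p)` (`IsAlgClosed.lift`).
Its image is the set of the elements `c` with `c ^ (p ^ n) = c`: it is contained in this set
(`FiniteField.pow_card`), has `p ^ n` elements, and the polynomial `X ^ (p ^ n) - X` has at most
`p ^ n` roots. So it induces a bijection of the two sets of points.
-/

set_option autoImplicit false

open Polynomial

namespace Pool.Agent.Helper14.TX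

theorem surf_ncard (p : ℕ) [Fact p.Prime] (n : ℕ) (hn : 1 ≤ n) (K : Type) [Field K] [Fintype K]
    [Algebra (ZMod p) K] (hK : Fintype.card K = p ^ n) (a : (ZMod p)[X]) :
    (surf (ZMod p) a n).ncard = Nat.card {P : (K × K) × K //
      P.2 ^ 2 = P.1.2 ^ 3 + P.1.1 * aeval P.1.1 a * P.1.2 ^ 2 + P.1.1 * P.1.2} := by
  classical
  have hp : p.Prime := Fact.out
  have : Module.Finite (ZMod p) K := Module.Finite.of_finite
  have φ : K →ₐ[ZMod p] AlgebraicClosure (ZMod p) := IsAlgClosed.lift
  have hφ : Function.Injective φ := φ.toRingHom.injective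
  have hone : 1 < p ^ n := Nat.one_lt_pow (by omega) hp.one_lt
  have hfix : ∀ x : K, RatOver (ZMod p) n (φ x) := by
    intro x
    unfold RatOver
    rw [ZMod.card, ← map_pow, ← hK, FiniteField.pow_card]
  have hrange : ∀ c : AlgebraicClosure (ZMod p), RatOver (ZMod p) n c → ∃ x : K, φ x = c := by
    intro c hc
    unfold RatOver at hc
    rw [ZMod.card] at hc
    have hne : (X ^ (p ^ n) - X : (AlgebraicClosure (ZMod p))[X]) ≠ 0 :=
      FiniteField.X_pow_card_sub_X_ne_zero _ hone
    have hdeg : (X ^ (p ^ n) - X : (AlgebraicClosure (ZMod p))[X]).natDegree = p ^ n :=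
      FiniteField.X_pow_card_sub_X_natDegree_eq _ hone
    have hsub : (Finset.univ.image φ) ⊆
        (X ^ (p ^ n) - X : (AlgebraicClosure (ZMod p))[X]).roots.toFinset := by
      intro y hy
      obtain ⟨x, -, rfl⟩ := Finset.mem_image.mp hy
      rw [Multiset.mem_toFinset, mem_roots hne, IsRoot.def]
      have h1 := hfix x
      unfold RatOver at h1
      rw [ZMod.card] at h1
      simp [h1]
    have hcard : (X ^ (p ^ n) - X : (AlgebraicClosure (ZMod p))[X]).roots.toFinset.card ≤
        (Finset.univ.image φ).card := by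
      rw [Finset.card_image_of_injective _ hφ, Finset.card_univ, hK]
      refine (Multiset.toFinset_card_le _).trans ?_
      refine (card_roots' _).trans ?_
      rw [hdeg]
    have heq := Finset.eq_of_subset_of_card_le hsub hcard
    have hcm : c ∈ (X ^ (p ^ n) - X : (AlgebraicClosure (ZMod p))[X]).roots.toFinset := by
      rw [Multiset.mem_toFinset, mem_roots hne, IsRoot.def]
      simp [hc]
    rw [← heq] at hcm
    obtain ⟨x, -, hx⟩ := Finset.mem_image.mp hcm
    exact ⟨x, hx⟩
  have hinj : Function.Injective (Prod.map (Prod.map φ φ) φ) := (hφ.prodMap hφ).prodMap hφ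
  have hset : surf (ZMod p) a n = (Prod.map (Prod.map φ φ) φ) '' {P : (K × K) × K |
      P.2 ^ 2 = P.1.2 ^ 3 + P.1.1 * aeval P.1.1 a * P.1.2 ^ 2 + P.1.1 * P.1.2} := by
    ext Q
    constructor
    · rintro ⟨⟨h1, h2⟩, h3, h4⟩
      obtain ⟨t, ht⟩ := hrange _ h1
      obtain ⟨x, hx⟩ := hrange _ h2
      obtain ⟨y, hy⟩ := hrange _ h3
      refine ⟨((t, x), y), ?_, ?_⟩
      · apply hφ
        simp only [map_add, map_mul, map_pow, ← aeval_algHom_apply]
        rw [ht, hx, hy]
        exact h4
      · apply Prod.ext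
        · exact Prod.ext ht hx
        · exact hy
    · rintro ⟨⟨⟨t, x⟩, y⟩, h, rfl⟩
      refine ⟨⟨hfix t, hfix x⟩, hfix y, ?_⟩
      have h' : y ^ 2 = x ^ 3 + t * aeval t a * x ^ 2 + t * x := h
      have h2 := congrArg φ h'
      simp only [map_add, map_mul, map_pow, ← aeval_algHom_apply] at h2
      exact h2
  rw [hset, Set.ncard_image_of_injective _ hinj]
  rfl

end Pool.Agent.Helper14.TX
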