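import Pool.Agent.Helper14.TX.BnCoeff
import Pool.Agent.Helper14.TX.SurfCard
import Pool.Agent.Helper14.TX.SumX

/-!
# The number of points of the explicit family modulo `p`

PROOF. Let `K` be a field with `p ^ n` elements (`GaloisField p n`). By `surf_ncard` the number of
points is the number of `(t, x, y) ∈ K ^ 3` on the surface,
which is the sum over `t, x` of `1 + χ(f(t, x))`, `χ` the quadratic
character of `K`; in `K`, `χ(f) = f ^ ((p ^ n - 1) / 2)`
(`quadraticChar_eq_pow_of_char_ne_two'`, `quadraticChar_card_sqrts`). Modulo `p`: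
`N = ∑ t, ∑ x, f(t, x) ^ ((p ^ n - 1) / 2)`, where for fixed `t` `f(t, x)` is the value at `x` of the
image of `X ^ 3 + C (X * expl p) * X ^ 2 + C X * X` in `K[X]`. By `sum_x` and the definition of `Hp`
the inner sum is `- (aeval t (Hp p)) ^ ((p ^ n - 1) / (p - 1))`; by `sum_t` (with
`N = (p + 1) / 4`, `natDegree_Hp`) and `Bn_coeff` (`c (p ^ n - 1) = c p ^ n - c`) the total is the
asserted sum; finally `ZMod p → K` is injective.
-/

set_option autoImplicit false

open Polynomial

namespace Pool.Agent.Helper14.TX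

private theorem char_ne_two (p : ℕ) (hp : p % 4 = 3) (K : Type) [Field K]
    [CharP K p] : ringChar K ≠ 2 := by
  rw [ringChar.eq K p]
  rintro rfl
  omega

/-- The number of points as a character sum. -/
private theorem count_sum (p : ℕ) [Fact p.Prime] (hp : p % 4 = 3) (K : Type) [Field K] [Fintype K]
    [CharP K p] (n : ℕ) (hn : 1 ≤ n) (hK : Fintype.card K = p ^ n) (f : K → K → K) :
    ((Nat.card {P : (K × K) × K // P.2 ^ 2 = f P.1.1 P.1.2} : ℕ) : K) =
      ∑ t : K, ∑ x : K, (f t x) ^ ((p ^ n - 1) / 2) := by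
  classical
  have hchar := char_ne_two p hp K
  have hodd : Odd (p ^ n) := (Nat.odd_iff.2 (by omega) : Odd p).pow
  have hhalf : Fintype.card K / 2 = (p ^ n - 1) / 2 := by
    rw [hK]; rcases hodd with ⟨k, hk⟩; omega
  have hq0 : ((Fintype.card K : ℕ) : K) = 0 := by
    rw [hK, Nat.cast_pow, CharP.cast_eq_zero, zero_pow (by omega)]
  have h1 : ∀ a : K, ((Fintype.card {y : K // y ^ 2 = a} : ℕ) : K) = a ^ ((p ^ n - 1) / 2) + 1 := by
    intro a
    have h2 := quadraticChar_card_sqrts hchar a
    have h3 := quadraticChar_eq_pow_of_char_ne_two' hchar a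
    rw [hhalf] at h3
    have h4 : Fintype.card {y : K // y ^ 2 = a} = {x : K | x ^ 2 = a}.toFinset.card := by
      rw [Set.toFinset_card]
      rfl
    rw [h4]
    have h5 := congrArg (Int.cast : ℤ → K) h2
    push_cast at h5
    rw [h5, h3]
  have h6 : Nat.card {P : (K × K) × K // P.2 ^ 2 = f P.1.1 P.1.2} =
      ∑ P : K × K, Fintype.card {y : K // y ^ 2 = f P.1 P.2} := by
    rw [Nat.card_congr (Equiv.subtypeProdEquivSigmaSubtype
      (fun (P : K × K) (y : K) => y ^ 2 = f P.1 P.2)), Nat.card_eq_fintype_card,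
      Fintype.card_sigma]
  rw [h6, Nat.cast_sum]
  simp only [h1]
  rw [Finset.sum_add_distrib, Finset.sum_const, Finset.card_univ, Fintype.card_prod, nsmul_eq_mul,
    Nat.cast_mul, hq0, zero_mul, zero_mul, add_zero, Fintype.sum_prod_type]

theorem count_mod (p : ℕ) [Fact p.Prime] (hp : p % 4 = 3) (n : ℕ) (hn : 1 ≤ n) :
    (((surf (ZMod p) (expl p) n).ncard : ℕ) : ZMod p) =
      ∑ c ∈ Finset.Icc 1 ((p + 1) / 4), (Nat.choose ((p - 1) / 2) (2 * c - 1) : ZMod p) ^ n := by
  have : Fintype (GaloisField p n) := Fintype.ofFinite _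
  have hK : Fintype.card (GaloisField p n) = p ^ n := by
    rw [← Nat.card_eq_fintype_card]; exact GaloisField.card p n (by omega)
  have hp2 : p ≠ 2 := by rintro rfl; omega
  rw [surf_ncard p n hn (GaloisField p n) hK (expl p)]
  apply (algebraMap (ZMod p) (GaloisField p n)).injective
  rw [map_natCast, count_sum p hp (GaloisField p n) n hn hK
    (fun t x => x ^ 3 + t * aeval t (expl p) * x ^ 2 + t * x)]
  -- the inner sum
  have h1 : ∀ t : GaloisField p n,
      ∑ x : GaloisField p n, (x ^ 3 + t * aeval t (expl p) * x ^ 2 + t * x) ^ ((p ^ n - 1) / 2) =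
        - (aeval t (Hp p)) ^ ((p ^ n - 1) / (p - 1)) := by
    intro t
    set P : (GaloisField p n)[X] := X ^ 3 + C (t * aeval t (expl p)) * X ^ 2 + C t * X with hP
    have hdeg : P.natDegree ≤ 3 := by rw [hP]; compute_degree
    have hX : X ∣ P := by
      rw [hP]
      exact ⟨X ^ 2 + C (t * aeval t (expl p)) * X + C t, by ring⟩
    have h2 := sum_x p hp2 (GaloisField p n) n hn hK P hdeg hX
    have h3 : ∀ x : GaloisField p n, P.eval x =
        x ^ 3 + t * aeval t (expl p) * x ^ 2 + t * x := by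
      intro x; rw [hP]; simp
    simp only [h3] at h2
    rw [h2]
    have h4 : P = Polynomial.map (aeval t : (ZMod p)[X] →ₐ[ZMod p] GaloisField p n).toRingHom
        (X ^ 3 + C (X * expl p) * X ^ 2 + C X * X : (ZMod p)[X][X]) := by
      rw [hP]
      simp
    have h5 : (P ^ ((p - 1) / 2)).coeff (p - 1) = aeval t (Hp p) := by
      rw [h4, ← Polynomial.map_pow, Polynomial.coeff_map]
      rfl
    rw [h5]
  simp only [h1]
  rw [Finset.sum_neg_distrib, sum_t p (GaloisField p n) n hn hK (Hp p) ((p + 1) / 4)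
    (natDegree_Hp p hp), neg_neg]
  congr 1
  refine Finset.sum_congr rfl (fun c hc => ?_)
  rw [Finset.mem_Icc] at hc
  have h6 := Bn_coeff p hp n c c hc.1 hc.2 le_rfl
  rw [if_pos rfl] at h6
  rw [← h6, Nat.mul_sub, mul_one]

end Pool.Agent.Helper14.TX
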