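import Pool.Agent.Helper14.TX.Red

/-!
# Roots of the form `q` times a root of unity

PROOF of `root_order`. `ζ = α / q` is a root of unity, `ζ ^ m = 1` (`q ≠ 0`), let `n` be its order.
Take `r` from `Pool.Agent.Helper2.Tate.exists_reduction 2`. As `q` is odd, `r q = 1`, so
`r ζ = r α`, which is a nontrivial `ℓ`-th root of unity (`red_root`). Write `n = 2 ^ k * n'` with
`n'` odd. In characteristic two `(r ζ) ^ n = 1` gives `(r ζ) ^ n' = 1`, so `ℓ ∣ n'` (`r ζ` has order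
exactly `ℓ`). Conversely `r (ζ ^ ℓ) = 1`, so by `red_one` `ζ ^ (ℓ * 2 ^ j) = 1` for some `j`, hence
`n ∣ ℓ * 2 ^ j` and `n' ∣ ℓ`. So `n = 2 ^ k * ℓ`.

PROOF of `cyc`. The minimal polynomial of `ζ` over `ℚ` is the cyclotomic polynomial of order
`2 ^ k * ℓ`, of degree `φ(2 ^ k) (ℓ - 1)`; the one of `α = q ζ` has the same degree and divides `Q`,
which has degree `ℓ - 1`. So `φ(2 ^ k) ≤ 1`, `k ≤ 1`, and `Q` is the minimal polynomial of `α`, that
is, `(cyclotomic (2 ^ k * ℓ) ℤ).scaleRoots q` (monic, of degree `ℓ - 1`, with root `q ζ`; it divides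
`Q` over `ℚ`, hence they are equal).
-/

set_option autoImplicit false

open Polynomial

namespace Pool.Agent.Helper14.TX

theorem root_order (q : ℕ) (hq : Odd q) (ℓ : ℕ) (hℓ : ℓ.Prime) (hℓ2 : ℓ ≠ 2) (Q : ℤ[X])
    (hQ : ModTwo ℓ Q) (α : ℂ) (hα : Root Q α) (m : ℕ) (hm : 1 ≤ m)
    (h : α ^ m = (q : ℂ) ^ m) : ∃ (ζ : ℂ) (k : ℕ), IsPrimitiveRoot ζ (2 ^ k * ℓ) ∧ α = q * ζ := by
  have hq0 : (q : ℂ) ≠ 0 := by
    have : q ≠ 0 := by rintro rfl; exact absurd hq (by decide)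
    exact_mod_cast this
  have hℓodd : Odd ℓ := hℓ.odd_of_ne_two hℓ2
  obtain ⟨κ, _, r, hr⟩ := Pool.Agent.Helper2.Tate.exists_reduction 2
  have h2 : r 2 = 0 := by simpa using hr
  have h2κ : (2 : κ) = 0 := by rw [← map_ofNat r 2]; exact h2
  have : CharP κ 2 := CharTwo.of_one_ne_zero_of_two_eq_zero one_ne_zero h2κ
  have hζm : (α / q) ^ m = 1 := by
    rw [div_pow, h, div_self (pow_ne_zero _ hq0)]
  have hζint : α / q ∈ integralClosure ℤ ℂ := by
    refine ⟨X ^ m - 1, monic_X_pow_sub_C 1 (by omega), ?_⟩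
    simp [hζm]
  set z : integralClosure ℤ ℂ := ⟨α / q, hζint⟩ with hz
  set a : integralClosure ℤ ℂ := ⟨α, isIntegral_root Q hQ.1 α hα⟩ with ha
  have haz : a = (q : integralClosure ℤ ℂ) * z := by
    apply Subtype.ext
    simp only [ha, hz, MulMemClass.coe_mul]
    push_cast
    field_simp
  have hrq : r (q : integralClosure ℤ ℂ) = 1 := by
    obtain ⟨c, hc⟩ := hq
    rw [hc]
    push_cast
    rw [map_add, map_mul, h2, zero_mul, zero_add, map_one]
  have hrz : r z = r a := by rw [haz, map_mul, hrq, one_mul]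
  obtain ⟨h3, h4⟩ := red_root r h2 ℓ hℓodd Q hQ a hα
  rw [← hrz] at h3 h4
  have hzm : z ^ m = 1 := by
    apply Subtype.ext
    simp only [hz, SubmonoidClass.coe_pow, OneMemClass.coe_one]
    exact hζm
  have hnpos : 0 < orderOf (α / q) := orderOf_pos_iff.mpr
    (isOfFinOrder_iff_pow_eq_one.mpr ⟨m, by omega, hζm⟩)
  obtain ⟨k, n', hn', hn⟩ := Nat.exists_eq_two_pow_mul_odd (n := orderOf (α / q)) hnpos.ne'
  have hzn : z ^ (orderOf (α / q)) = 1 := by
    apply Subtype.ext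
    simp only [hz, SubmonoidClass.coe_pow, OneMemClass.coe_one]
    exact pow_orderOf_eq_one _
  have : Fact ℓ.Prime := ⟨hℓ⟩
  have hord : orderOf (r z) = ℓ := orderOf_eq_prime h3 h4
  have hdvd1 : ℓ ∣ n' := by
    rw [← hord]
    apply orderOf_dvd_of_pow_eq_one
    have h5 : (r z ^ n') ^ (2 ^ k) = 1 := by
      rw [← pow_mul, mul_comm, ← hn, ← map_pow, hzn, map_one]
    have h6 : (r z ^ n' - 1) ^ (2 ^ k) = 0 := by
      rw [sub_pow_char_pow, h5, one_pow, sub_self]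
    exact sub_eq_zero.mp (pow_eq_zero_iff (by positivity) |>.mp h6)
  have hdvd2 : n' ∣ ℓ := by
    obtain ⟨j, hj⟩ := red_one r h2 m hm (z ^ ℓ) (by rw [← pow_mul, mul_comm, pow_mul, hzm, one_pow])
      (by rw [map_pow, h3])
    have h7 : (α / q) ^ (ℓ * 2 ^ j) = 1 := by
      have := congrArg (fun w : integralClosure ℤ ℂ => (w : ℂ)) hj
      simp only [hz, SubmonoidClass.coe_pow, OneMemClass.coe_one] at this
      rw [pow_mul]; exact this
    have h8 : orderOf (α / q) ∣ ℓ * 2 ^ j := orderOf_dvd_of_pow_eq_one h7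
    have h9 : n' ∣ ℓ * 2 ^ j := (Dvd.intro_left _ hn.symm).trans h8
    refine Nat.Coprime.dvd_of_dvd_mul_right ?_ h9
    exact Nat.Coprime.pow_right _ (Nat.coprime_two_right.mpr hn')
  have hnl : n' = ℓ := Nat.dvd_antisymm hdvd2 hdvd1
  refine ⟨α / q, k, ?_, by field_simp⟩
  rw [← hnl, ← hn]
  exact IsPrimitiveRoot.orderOf _

theorem cyc (q : ℕ) (hq : Odd q) (ℓ : ℕ) (hℓ : ℓ.Prime) (hℓ2 : ℓ ≠ 2) (Q : ℤ[X])
    (hQ : ModTwo ℓ Q) (α : ℂ) (hα : Root Q α) (m : ℕ) (hm : 1 ≤ m) (h : α ^ m = (q : ℂ) ^ m) :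
    Q = (cyclotomic ℓ ℤ).scaleRoots (q : ℤ) ∨ Q = (cyclotomic (2 * ℓ) ℤ).scaleRoots (q : ℤ) := by
  obtain ⟨ζ, k, hζ, hαζ⟩ := root_order q hq ℓ hℓ hℓ2 Q hQ α hα m hm h
  have hq0' : q ≠ 0 := by rintro rfl; exact absurd hq (by decide)
  have hq0 : (q : ℂ) ≠ 0 := by exact_mod_cast hq0'
  have hqQ : (q : ℚ) ≠ 0 := by exact_mod_cast hq0'
  have hnpos : 0 < 2 ^ k * ℓ := Nat.mul_pos (by positivity) hℓ.pos
  set Q₁ : ℚ[X] := (Q.map (Int.castRingHom ℚ)).scaleRoots ((q : ℚ)⁻¹) with hQ₁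
  have hQ₁m : Q₁.Monic := by
    rw [hQ₁, Polynomial.monic_scaleRoots_iff]
    exact hQ.1.map _
  have hQ₁d : Q₁.natDegree = ℓ - 1 := by
    rw [hQ₁, Polynomial.natDegree_scaleRoots, hQ.1.natDegree_map]
    have := hQ.2.1
    omega
  have hroot : aeval ζ Q₁ = 0 := by
    have h1 : aeval α (Q.map (Int.castRingHom ℚ)) = 0 := by
      have h2 : (Int.castRingHom ℚ) = algebraMap ℤ ℚ := rfl
      rw [h2, aeval_map_algebraMap]
      exact hα
    have h3 := Polynomial.scaleRoots_aeval_eq_zero (r := (q : ℚ)⁻¹) h1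
    have h4 : (algebraMap ℚ ℂ) ((q : ℚ)⁻¹) * α = ζ := by
      rw [hαζ, map_inv₀, map_natCast, ← mul_assoc, inv_mul_cancel₀ hq0, one_mul]
    rw [h4] at h3
    exact h3
  have hdvd : cyclotomic (2 ^ k * ℓ) ℚ ∣ Q₁ := by
    rw [Polynomial.cyclotomic_eq_minpoly_rat hζ hnpos]
    exact minpoly.dvd ℚ ζ hroot
  have hdeg : (2 ^ k * ℓ).totient ≤ ℓ - 1 := by
    rw [← hQ₁d, ← Polynomial.natDegree_cyclotomic (2 ^ k * ℓ) ℚ]
    exact Polynomial.natDegree_le_of_dvd hdvd hQ₁m.ne_zero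
  have hcop : Nat.Coprime (2 ^ k) ℓ :=
    Nat.Coprime.pow_left _ ((Nat.coprime_primes Nat.prime_two hℓ).mpr (Ne.symm hℓ2))
  have hℓ1 : 1 ≤ ℓ - 1 := by have := hℓ.two_le; omega
  have htot : (2 ^ k * ℓ).totient = (2 ^ k).totient * (ℓ - 1) := by
    rw [Nat.totient_mul hcop, Nat.totient_prime hℓ]
  have hk : k ≤ 1 := by
    by_contra hcon
    push Not at hcon
    rw [htot, Nat.totient_prime_pow Nat.prime_two (by omega)] at hdeg
    have h5 : 2 ≤ 2 ^ (k - 1) := by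
      calc 2 = 2 ^ 1 := by norm_num
        _ ≤ 2 ^ (k - 1) := Nat.pow_le_pow_right (by norm_num) (by omega)
    have h6 : 2 * (ℓ - 1) ≤ 2 ^ (k - 1) * (2 - 1) * (ℓ - 1) := by
      apply Nat.mul_le_mul_right
      simpa using h5
    omega
  have htot1 : (2 ^ k).totient = 1 := by
    interval_cases k <;> simp
  have heq : cyclotomic (2 ^ k * ℓ) ℚ = Q₁ := by
    refine (Polynomial.eq_of_monic_of_dvd_of_natDegree_le (Polynomial.cyclotomic.monic _ _) hQ₁m hdvd ?_).symm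
    rw [Polynomial.natDegree_cyclotomic, htot, htot1, hQ₁d, one_mul]
  have hfin : Q = (cyclotomic (2 ^ k * ℓ) ℤ).scaleRoots (q : ℤ) := by
    apply Polynomial.map_injective (Int.castRingHom ℚ) (RingHom.injective_int _)
    have hlc : (Int.castRingHom ℚ) (cyclotomic (2 ^ k * ℓ) ℤ).leadingCoeff ≠ 0 := by
      rw [(Polynomial.cyclotomic.monic _ _).leadingCoeff, map_one]; exact one_ne_zero
    rw [Polynomial.map_scaleRoots _ _ _ hlc, Polynomial.map_cyclotomic, heq, hQ₁,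
      ← Polynomial.scaleRoots_mul]
    simp [hqQ]
  interval_cases k
  · left; simpa using hfin
  · right; simpa using hfin

end Pool.Agent.Helper14.TX
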