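import Mathlib

/-!
# Elliptic surfaces `y ^ 2 = x ^ 3 + t a(t) x ^ 2 + t x` over a finite field: definitions

`F` is a finite field with `q` elements and `a` a polynomial over `F`. `surf F a n` is the set of
points `((t, x), y)` of the affine surface `y ^ 2 = x ^ 3 + t a(t) x ^ 2 + t x` with coordinates in
the extension of degree `n` of `F`. `IsFrob F a Q` says that `Q` is the characteristic polynomial of
the Frobenius on the transcendental part of the second cohomology group of the elliptic surface.
-/

set_option autoImplicit false

open Polynomial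

namespace Pool.Agent.Helper14.TX

/-- The sum of the `n`-th powers of the complex roots of an integral polynomial. -/
noncomputable def powerSum (Q : ℤ[X]) (n : ℕ) : ℂ :=
  ((Q.map (Int.castRingHom ℂ)).roots.map (fun α => α ^ n)).sum

/-- `α` is a complex root of the integral polynomial `Q`. -/
def Root (Q : ℤ[X]) (α : ℂ) : Prop := aeval α Q = 0

section

variable (F : Type) [Field F] [Fintype F]

/-- The element `c` of the algebraic closure of `F` lies in the extension of degree `n` of `F`. -/
def RatOver (n : ℕ) (c : AlgebraicClosure F) : Prop := c ^ (Fintype.card F ^ n) = c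

/-- The points `((t, x), y)` over the extension of degree `n` of `F` of the affine surface
`y ^ 2 = x ^ 3 + t a(t) x ^ 2 + t x`. -/
def surf (a : F[X]) (n : ℕ) : Set ((AlgebraicClosure F × AlgebraicClosure F) × AlgebraicClosure F) :=
  {P | (RatOver F n P.1.1 ∧ RatOver F n P.1.2) ∧ RatOver F n P.2 ∧
    P.2 ^ 2 = P.1.2 ^ 3 + P.1.1 * aeval P.1.1 a * P.1.2 ^ 2 + P.1.1 * P.1.2}

/-- `Q` is the characteristic polynomial of the Frobenius on the transcendental part of the second
cohomology group: a monic integral polynomial all whose complex roots have absolute value `q`,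
such that the affine surface has `q ^ (2 n) + 1 + (sum of the n-th powers of the roots of Q)`
points over the extension of degree `n`. -/
structure IsFrob (a : F[X]) (Q : ℤ[X]) : Prop where
  monic : Q.Monic
  card : ∀ n : ℕ, 1 ≤ n →
    ((surf F a n).ncard : ℂ) = (Fintype.card F : ℂ) ^ (2 * n) + 1 + powerSum Q n
  norm : ∀ α : ℂ, Root Q α → ‖α‖ = Fintype.card F

end

/-- The degree of `t a ^ 2 - 4`. -/
noncomputable def deg {F : Type} [Field F] (a : F[X]) : ℕ := 2 * a.natDegree + 1

/-- The number of nonzero roots, with multiplicity, of the reduction modulo `p` of `Q`: the number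
of roots of `Q` which are units at a place above `p`. -/
noncomputable def unitRoots (p : ℕ) (Q : ℤ[X]) : ℕ :=
  (Q.map (Int.castRingHom (ZMod p))).natDegree - (Q.map (Int.castRingHom (ZMod p))).natTrailingDegree

/-- No root has `m`-th power `q ^ m` and the `m`-th powers of the roots, with multiplicity, are
different. For the polynomial of an elliptic surface `V` over the field with `q` elements: the Tate
conjecture holds for `V` and `V × V` over the extension of degree `m`. -/
def TateSq (q : ℕ) (Q : ℤ[X]) (m : ℕ) : Prop :=
  (∀ β : ℂ, Root Q β → β ^ m ≠ (q : ℂ) ^ m) ∧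
    ((Q.map (Int.castRingHom ℂ)).roots.map (fun α => α ^ m)).Nodup

/-- Multiplicative relations between the roots are trivial: if a power of the product of the
`β ^ (n β)`, `β` a root, is a power of `q` then `n` takes the same value at conjugate roots. For the
polynomial of an elliptic surface `V`: the Tate conjecture holds for all powers of `V` over all
extensions. -/
def TateAll (q : ℕ) (Q : ℤ[X]) : Prop :=
  ∀ (n : ℂ → ℤ) (m : ℕ) (k : ℤ), 1 ≤ m →
    ((Q.map (Int.castRingHom ℂ)).roots.map (fun β => β ^ n β)).prod ^ m = (q : ℂ) ^ k →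
    ∀ β : ℂ, Root Q β → n (starRingEnd ℂ β) = n β

/-- `Q` is ordinary at `v`: `v` is a homomorphism on the nonzero complex numbers with `v q = 1` whose
values at the roots of `Q` are `0`, `1` and `2`. -/
structure Ordinary (q : ℕ) (Q : ℤ[X]) (v : ℂ → ℚ) : Prop where
  mul : ∀ x y : ℂ, x ≠ 0 → y ≠ 0 → v (x * y) = v x + v y
  base : v q = 1
  slopes : ∀ β : ℂ, Root Q β → v β = 0 ∨ v β = 1 ∨ v β = 2

/-- `Q` is not one of the two polynomials whose roots are `q` times the primitive roots of unity of
order `ℓ`, or of order `2 * ℓ`. -/
def NotCyc (q ℓ : ℕ) (Q : ℤ[X]) : Prop :=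
  Q ≠ (cyclotomic ℓ ℤ).scaleRoots (q : ℤ) ∧ Q ≠ (cyclotomic (2 * ℓ) ℤ).scaleRoots (q : ℤ)

/-- The polynomial `t ^ ((p - 1) / 2) - 1` of the explicit family. -/
noncomputable def expl (p : ℕ) : (ZMod p)[X] := X ^ ((p - 1) / 2) - 1

end Pool.Agent.Helper14.TX
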