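import Pool.Agent.Helper14.TX.Defs
import Pool.Agent.Helper2.Tate.Dickson

/-!
# Examples from Dickson polynomials
-/

set_option autoImplicit false

open Polynomial

namespace Pool.Agent.Helper14.TX

/-- The polynomials with `(X + 2) (bpol n) ^ 2 = D_(2 n + 1) + 2`. -/
noncomputable def bpol (R : Type) [CommRing R] : ℕ → R[X]
  | 0 => 1
  | 1 => X - 1
  | (n + 2) => X * bpol R (n + 1) - bpol R n

theorem bpol_inv (R : Type) [CommRing R] (n : ℕ) :
    bpol R (n + 1) ^ 2 + bpol R n ^ 2 - X * bpol R (n + 1) * bpol R n = 2 - X := by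
  induction n with
  | zero =>
    simp only [bpol]
    ring
  | succ n ih =>
    have h : bpol R (n + 1 + 1) = X * bpol R (n + 1) - bpol R n := rfl
    rw [h]
    linear_combination ih

theorem dickson_two_step (R : Type) [CommRing R] (n : ℕ) :
    dickson 1 (1 : R) (n + 4) = (X ^ 2 - 2) * dickson 1 (1 : R) (n + 2) - dickson 1 (1 : R) n := by
  have h1 := dickson_add_two 1 (1 : R) (n + 2)
  have h2 := dickson_add_two 1 (1 : R) (n + 1)
  have h3 := dickson_add_two 1 (1 : R) n
  rw [C_1, one_mul] at h1 h2 h3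
  have e1 : n + 2 + 2 = n + 4 := rfl
  have e2 : n + 2 + 1 = n + 3 := rfl
  have e3 : n + 1 + 2 = n + 3 := rfl
  have e4 : n + 1 + 1 = n + 2 := rfl
  rw [e1, e2] at h1
  rw [e3, e4] at h2
  linear_combination h1 + X * h2 + h3

theorem dickson_odd (R : Type) [CommRing R] (n : ℕ) :
    dickson 1 (1 : R) (2 * n + 1) + 2 = (X + 2) * bpol R n ^ 2 ∧
    dickson 1 (1 : R) (2 * (n + 1) + 1) + 2 = (X + 2) * bpol R (n + 1) ^ 2 := by
  induction n with
  | zero =>
    have h0 : dickson 1 (1 : R) 0 = 2 := by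
      rw [dickson_zero]
      norm_num
    have h1 : dickson 1 (1 : R) 1 = X := dickson_one 1 1
    have h2 := dickson_add_two 1 (1 : R) 0
    have h3 := dickson_add_two 1 (1 : R) 1
    rw [C_1, one_mul] at h2 h3
    have e1 : 0 + 2 = 2 := rfl
    have e2 : 0 + 1 = 1 := rfl
    have e3 : 1 + 2 = 3 := rfl
    have e4 : 1 + 1 = 2 := rfl
    rw [e1, e2, h0, h1] at h2
    rw [e3, e4, h1, h2] at h3
    constructor
    · simp only [bpol]
      rw [show 2 * 0 + 1 = 1 from rfl, h1]
      ring
    · simp only [bpol]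
      rw [show 2 * (0 + 1) + 1 = 3 from rfl, h3]
      ring
  | succ n ih =>
    obtain ⟨h1, h2⟩ := ih
    refine ⟨h2, ?_⟩
    have h3 := dickson_two_step R (2 * n + 1)
    rw [show 2 * n + 1 + 4 = 2 * (n + 1 + 1) + 1 by ring,
      show 2 * n + 1 + 2 = 2 * (n + 1) + 1 by ring] at h3
    have h4 : bpol R (n + 1 + 1) = X * bpol R (n + 1) - bpol R n := rfl
    have h5 := bpol_inv R n
    rw [h4]
    linear_combination h3 + (X ^ 2 - 2) * h2 - h1 - 2 * (X + 2) * h5

theorem bpol_monic (R : Type) [CommRing R] [Nontrivial R] (n : ℕ) :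
    ((bpol R n).Monic ∧ (bpol R n).natDegree = n) ∧
      ((bpol R (n + 1)).Monic ∧ (bpol R (n + 1)).natDegree = n + 1) := by
  induction n with
  | zero =>
    simp only [bpol]
    refine ⟨⟨monic_one, natDegree_one⟩, ?_, ?_⟩
    · rw [← C_1]; exact monic_X_sub_C 1
    · rw [← C_1]; exact natDegree_X_sub_C 1
  | succ n ih =>
    obtain ⟨⟨h1, h2⟩, h3, h4⟩ := ih
    refine ⟨⟨h3, h4⟩, ?_⟩
    have h5 : bpol R (n + 1 + 1) = X * bpol R (n + 1) - bpol R n := rfl
    have h6 : (X * bpol R (n + 1)).natDegree = n + 2 := by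
      rw [mul_comm, natDegree_mul_X h3.ne_zero, h4]
    rw [h5]
    constructor
    · apply (monic_X.mul h3).sub_of_left
      apply degree_lt_degree
      rw [h6, h2]; omega
    · rw [natDegree_sub_eq_left_of_natDegree_lt, h6]
      rw [h6, h2]; omega

theorem irreducible_comp (F : Type) [Field F] (s b : F) (hs : s ≠ 0) (P : F[X])
    (hP : Irreducible P) : Irreducible (P.comp (C s * X + C b)) := by
  have : Invertible s := invertibleOfNonzero hs
  have h1 := (MulEquiv.irreducible_iff (algEquivCMulXAddC s b) (x := P)).2 hP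
  rw [algEquivCMulXAddC_apply] at h1
  exact h1

/-- The surfaces from the Dickson polynomials. -/
theorem dickson_surface (F : Type) [Field F] [Fintype F] (h2 : (2 : F) ≠ 0) (n : ℕ)
    (hd : 2 * n + 1 ∣ Fintype.card F - 1) (c : F) (hc0 : c ≠ 0)
    (hc : ∀ r : ℕ, r.Prime → r ∣ 2 * n + 1 → ∀ b : F, b ^ r ≠ c) (hc2 : c ^ 2 ≠ 1) :
    ∃ a : F[X], a.natDegree = n ∧ (Odd n → IsSquare a.leadingCoeff) ∧
      Irreducible (X * a ^ 2 - 4) := by
  have hirr := Helper2.Tate.irreducible_dickson F (2 * n + 1) (by omega) hd c hc0 hc hc2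
  have hc1 : c + 1 ≠ 0 := by
    intro h
    apply hc2
    have : c = -1 := by linear_combination h
    rw [this]; ring
  have h4 : (4 : F) ≠ 0 := by
    have : (4 : F) = 2 * 2 := by norm_num
    rw [this]; exact mul_ne_zero h2 h2
  set s : F := 4 * c / (c + 1) ^ 2 with hs
  have hs0 : s ≠ 0 := by
    rw [hs]
    exact div_ne_zero (mul_ne_zero h4 hc0) (pow_ne_zero _ hc1)
  have hs4 : 4 / s = c + c⁻¹ + 2 := by
    rw [hs]
    field_simp
    ring
  obtain ⟨⟨hmon, hdeg⟩, -⟩ := bpol_monic F n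
  have hlin : (C s * X + C (-2) : F[X]).natDegree = 1 := natDegree_linear hs0
  refine ⟨C s * (bpol F n).comp (C s * X + C (-2)), ?_, ?_, ?_⟩
  · rw [natDegree_C_mul hs0, natDegree_comp, hlin, hdeg, mul_one]
  · intro hn
    obtain ⟨k, hk⟩ := hn
    have hlc : (C s * X + C (-2) : F[X]).leadingCoeff = s := leadingCoeff_linear hs0
    rw [leadingCoeff_mul, leadingCoeff_C, leadingCoeff_comp (by rw [hlin]; norm_num),
      hmon.leadingCoeff, one_mul, hdeg, hlc, hk]
    exact ⟨s ^ (k + 1), by ring⟩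
  · have key : (X * (C s * (bpol F n).comp (C s * X + C (-2))) ^ 2 - 4 : F[X]) =
        C s * (dickson 1 (1 : F) (2 * n + 1) - C (c + c⁻¹)).comp (C s * X + C (-2)) := by
      have h5 := (dickson_odd F n).1
      have h6 := congrArg (fun P : F[X] => P.comp (C s * X + C (-2))) h5
      simp only [add_comp, mul_comp, pow_comp, X_comp] at h6
      have e2 : ((2 : F[X])).comp (C s * X + C (-2)) = 2 := by
        have : (2 : F[X]) = C 2 := (map_ofNat C 2).symm
        rw [this, C_comp]
      rw [e2] at h6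
      have e3 : (C s * X + C (-2) + 2 : F[X]) = C s * X := by
        have : (2 : F[X]) = C 2 := (map_ofNat C 2).symm
        rw [this, add_assoc, ← C_add]
        simp
      rw [e3] at h6
      rw [sub_comp, C_comp]
      have e4 : (4 : F[X]) = C s * C (c + c⁻¹ + 2) := by
        rw [← hs4, ← C_mul, mul_div_cancel₀ _ hs0]
        exact (map_ofNat C 4).symm
      have e5 : (C (c + c⁻¹ + 2) : F[X]) = C (c + c⁻¹) + 2 := by
        rw [C_add]
        congr 1
      rw [e4, e5]
      linear_combination (-(C s)) * h6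
    rw [key]
    exact (irreducible_isUnit_mul (isUnit_C.2 (isUnit_iff_ne_zero.2 hs0))).2
      (irreducible_comp F s (-2) hs0 _ hirr)

/-- For finitely many odd numbers there are infinitely many primes `p` and surfaces over the field
with `p` elements. -/
theorem exists_dickson (K : Type) [Fintype K] (M : K → ℕ) (hM : ∀ k, Odd (M k)) (N : ℕ) :
    ∃ (p : ℕ) (_ : Fact p.Prime) (a : K → (ZMod p)[X]), N < p ∧ (2 : ZMod p) ≠ 0 ∧
      ∀ k, (a k).natDegree = M k ∧ IsSquare (a k).leadingCoeff ∧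
        Irreducible (X * a k ^ 2 - 4) := by
  have hpos : 0 < ∏ k, (2 * M k + 1) := Finset.prod_pos (fun k _ => by omega)
  obtain ⟨p, hp, hgt, hmod⟩ := Nat.exists_prime_gt_modEq_one (k := ∏ k, (2 * M k + 1)) (N + 4)
    hpos.ne'
  have hF := Fact.mk hp
  have hdvd : ∏ k, (2 * M k + 1) ∣ p - 1 := (Nat.modEq_iff_dvd' hp.one_lt.le).1 hmod.symm
  obtain ⟨g, hg⟩ := IsCyclic.exists_generator (α := (ZMod p)ˣ)
  have hog : orderOf g = p - 1 := by
    rw [orderOf_eq_card_of_forall_mem_zpowers hg, Nat.card_eq_fintype_card, ZMod.card_units]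
  have hpow : ∀ n : ℕ, 1 ≤ n → n < p - 1 → (g : ZMod p) ^ n ≠ 1 := by
    intro n hn hn2 h
    have h1 : g ^ n = 1 := by
      apply Units.ext
      rw [Units.val_pow_eq_pow_val, h, Units.val_one]
    have h2 := orderOf_dvd_of_pow_eq_one h1
    rw [hog] at h2
    have := Nat.le_of_dvd hn h2
    omega
  have h2 : (2 : ZMod p) ≠ 0 := by
    intro h
    have h1 : ((2 : ℕ) : ZMod p) = 0 := by exact_mod_cast h
    rw [ZMod.natCast_eq_zero_iff] at h1
    have := Nat.le_of_dvd (by norm_num) h1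
    omega
  have hc0 : (g : ZMod p) ≠ 0 := g.ne_zero
  have key : ∀ k, ∃ a : (ZMod p)[X], a.natDegree = M k ∧ IsSquare a.leadingCoeff ∧
      Irreducible (X * a ^ 2 - 4) := by
    intro k
    have hMk : 2 * M k + 1 ∣ p - 1 := (Finset.dvd_prod_of_mem _ (Finset.mem_univ k)).trans hdvd
    obtain ⟨a, ha1, ha2, ha3⟩ := dickson_surface (ZMod p) h2 (M k) (by rw [ZMod.card]; exact hMk)
      (g : ZMod p) hc0 (by
        intro r hr hrM b hb
        obtain ⟨s, hs⟩ := hrM.trans hMk
        have hb0 : b ≠ 0 := by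
          rintro rfl
          rw [zero_pow hr.ne_zero] at hb
          exact hc0 hb.symm
        have h1 : (g : ZMod p) ^ s = 1 := by
          rw [← hb, ← pow_mul, ← hs]
          exact ZMod.pow_card_sub_one_eq_one hb0
        have hs1 : 1 ≤ s := by
          rcases Nat.eq_zero_or_pos s with rfl | h
          · omega
          · exact h
        refine hpow s hs1 ?_ h1
        have h2 : 2 * s ≤ r * s := Nat.mul_le_mul_right s hr.two_le
        omega) (hpow 2 (by norm_num) (by omega))
    exact ⟨a, ha1, ha2 (hM k), ha3⟩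
  choose a ha using key
  exact ⟨p, hF, a, by omega, h2, ha⟩

end Pool.Agent.Helper14.TX
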