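import Pool.Agent.Helper14.TX.Galois
import Pool.Agent.Helper14.TX.Comb

/-!
# No two roots have a common power

PROOF. Suppose two different roots are equivalent. By `galois_package` and `comb` (with
`card_Rt`) all classes have the same number `n ≥ 2` of elements.

(1) `n` divides `unitRoots p Q`: take `r` with `r p = 0` (`exists_reduction p`); if
`x ^ m = y ^ m` then `r x = 0` iff `r y = 0`; apply `dvd_of_classes` to `U = {x | r x ≠ 0}` and
`card_units`.

(2) `n` divides `M`. Complex conjugation maps `Rt Q` to itself (`Q` is real, conjugates of algebraic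
integers are algebraic integers) and respects equivalence; it induces an involution on the set of
classes. It fixes no class: if `x` is equivalent to its conjugate then, because `x * conj x = q ^ 2`
(`hnorm`), `x ^ (2 m) = q ^ (2 m)` for some `m ≥ 1`, contradicting `hnc`. So the number of
classes is even, `2 k`, and `2 k n = 2 M`.

(3) So `n` divides `M` and `unitRoots p Q`, which are coprime: `n = 1`, a contradiction.
-/

set_option autoImplicit false

open Polynomial

namespace Pool.Agent.Helper14.TX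

theorem root_conj (Q : ℤ[X]) (α : ℂ) (h : Root Q α) : Root Q (starRingEnd ℂ α) := by
  unfold Root at *
  have h1 := Polynomial.aeval_algHom_apply (starRingEnd ℂ).toIntAlgHom α Q
  rw [h, map_zero] at h1
  exact h1

/-- Complex conjugation on the roots. -/
noncomputable def cj (Q : ℤ[X]) (hQ : Q.Monic) (x : Rt Q) : Rt Q :=
  ⟨⟨starRingEnd ℂ (x.1 : ℂ), isIntegral_root Q hQ _ (root_conj Q _ x.2)⟩, root_conj Q _ x.2⟩

theorem cj_val (Q : ℤ[X]) (hQ : Q.Monic) (x : Rt Q) :
    (((cj Q hQ x).1 : integralClosure ℤ ℂ) : ℂ) = starRingEnd ℂ (x.1 : ℂ) := rfl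

theorem cj_cj (Q : ℤ[X]) (hQ : Q.Monic) (x : Rt Q) : cj Q hQ (cj Q hQ x) = x := by
  apply Subtype.ext
  apply Subtype.ext
  rw [cj_val, cj_val, Complex.conj_conj]

theorem cj_rel (Q : ℤ[X]) (hQ : Q.Monic) (x y : Rt Q) (h : Rel Q x y) :
    Rel Q (cj Q hQ x) (cj Q hQ y) := by
  obtain ⟨m, hm, h⟩ := h
  refine ⟨m, hm, ?_⟩
  rw [cj_val, cj_val, ← map_pow, ← map_pow, h]

theorem distinct (q p : ℕ) [Fact p.Prime] (ℓ : ℕ) [Fact ℓ.Prime] (M : ℕ)
    (hM : ℓ = 2 * M + 1) (Q : ℤ[X]) (hQ : ModTwo ℓ Q)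
    (hnorm : ∀ β : ℂ, Root Q β → ‖β‖ = q)
    (hnc : ∀ β : ℂ, Root Q β → ∀ m : ℕ, 1 ≤ m → β ^ m ≠ (q : ℂ) ^ m)
    (hu : Nat.Coprime (unitRoots p Q) M) (x y : Rt Q) (h : Rel Q x y) : x = y := by
  classical
  by_contra hne
  have hodd : Odd ℓ := ⟨M, hM⟩
  have hmon : Q.Monic := hQ.1
  obtain ⟨hfin, hcard⟩ := card_Rt ℓ hodd Q hQ
  have : Fintype (Rt Q) := Fintype.ofFinite (Rt Q)
  obtain ⟨G, _, _, c, ι, hc, hι, hs, haff⟩ := galois_package ℓ (by
    rintro rfl; omega) Q hQ
  obtain ⟨n, hn2, hcl⟩ := comb ℓ (by rw [← Nat.card_eq_fintype_card]; exact hcard) c hc ι hι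
    (relSetoid Q) hs haff x y h hne
  -- the units at `p`
  have hnu : n ∣ unitRoots p Q := by
    obtain ⟨κ, _, r, hr⟩ := Helper2.Tate.exists_reduction p
    rw [← card_units ℓ hodd Q hQ p r hr]
    have h1 := dvd_of_classes (relSetoid Q) n hcl (Finset.univ.filter (fun x => r x.1 ≠ 0)) (by
      rintro u v ⟨m, hm, huv⟩ hu
      rw [Finset.mem_filter] at hu ⊢
      refine ⟨Finset.mem_univ _, ?_⟩
      intro hv
      apply hu.2
      have h2 : u.1 ^ m = v.1 ^ m := by
        apply Subtype.ext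
        exact huv
      have h3 := congrArg r h2
      rw [map_pow, map_pow, hv, zero_pow (by omega)] at h3
      exact pow_eq_zero_iff (by omega) |>.1 h3)
    have h2 : Nat.card {x : Rt Q // r x.1 ≠ 0} =
        (Finset.univ.filter (fun x : Rt Q => r x.1 ≠ 0)).card := by
      rw [Nat.card_eq_fintype_card, Fintype.card_subtype]
    rw [h2]
    exact h1
  -- the number of classes is even
  have hnM : n ∣ M := by
    set T : Finset (Finset (Rt Q)) := Finset.univ.image (cl (relSetoid Q)) with hT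
    have himg : ∀ z : Rt Q, (cl (relSetoid Q) z).image (cj Q hmon) =
        cl (relSetoid Q) (cj Q hmon z) := by
      intro z
      ext w
      rw [Finset.mem_image, mem_cl]
      constructor
      · rintro ⟨v, hv, rfl⟩
        rw [mem_cl] at hv
        exact cj_rel Q hmon _ _ hv
      · intro hw
        refine ⟨cj Q hmon w, ?_, cj_cj Q hmon w⟩
        rw [mem_cl]
        have h1 := cj_rel Q hmon _ _ hw
        rwa [cj_cj] at h1
    have hmem : ∀ t ∈ T, ∃ z, t = cl (relSetoid Q) z := by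
      intro t ht
      rw [hT, Finset.mem_image] at ht
      obtain ⟨z, -, hz⟩ := ht
      exact ⟨z, hz.symm⟩
    have hsum : ∑ t ∈ T, (1 : ZMod 2) = 0 := by
      apply Finset.sum_involution (fun t _ => t.image (cj Q hmon))
      · intro t _; decide
      · intro t ht _ heq
        obtain ⟨z, rfl⟩ := hmem t ht
        rw [himg z] at heq
        have h1 : cj Q hmon z ∈ cl (relSetoid Q) z := by
          rw [← heq]
          exact (mem_cl _ _ _).2 ((relSetoid Q).refl _)
        rw [mem_cl] at h1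
        obtain ⟨m, hm, h2⟩ := h1
        apply hnc (z.1 : ℂ) z.2 (2 * m) (by omega)
        rw [cj_val] at h2
        have h3 : (z.1 : ℂ) * starRingEnd ℂ (z.1 : ℂ) = (q : ℂ) ^ 2 := by
          rw [Complex.mul_conj', hnorm _ z.2]
          simp
        calc (z.1 : ℂ) ^ (2 * m) = (z.1 : ℂ) ^ m * (z.1 : ℂ) ^ m := by rw [two_mul, pow_add]
          _ = ((z.1 : ℂ) * starRingEnd ℂ (z.1 : ℂ)) ^ m := by
            rw [mul_pow]
            congr 1
          _ = (q : ℂ) ^ (2 * m) := by rw [h3, ← pow_mul]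
      · intro t ht
        obtain ⟨z, rfl⟩ := hmem t ht
        rw [himg z, himg, cj_cj]
      · intro t ht
        obtain ⟨z, rfl⟩ := hmem t ht
        rw [himg z, hT]
        exact Finset.mem_image_of_mem _ (Finset.mem_univ _)
    rw [Finset.sum_const, nsmul_eq_mul, mul_one, ZMod.natCast_eq_zero_iff] at hsum
    obtain ⟨k, hk⟩ := hsum
    have hcount : Fintype.card (Rt Q) = T.card * n := by
      have h1 := Finset.card_eq_sum_card_image (cl (relSetoid Q)) (Finset.univ : Finset (Rt Q))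
      rw [Finset.card_univ] at h1
      rw [h1, Finset.sum_const_nat (m := n)]
      intro t ht
      obtain ⟨z, rfl⟩ := hmem t ht
      rw [← hcl z]
      congr 1
      ext w
      rw [Finset.mem_filter, Finset.mem_filter]
      constructor
      · rintro ⟨hw, hwz⟩
        refine ⟨hw, ?_⟩
        rw [← mem_cl, ← hwz]
        exact (mem_cl _ _ _).2 ((relSetoid Q).refl w)
      · rintro ⟨hw, hwz⟩
        exact ⟨hw, (cl_eq (relSetoid Q) hwz).symm⟩
    rw [← Nat.card_eq_fintype_card, hk] at hcount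
    refine ⟨k, ?_⟩
    have h4 : 2 * M = 2 * k * n := by omega
    have h5 : 2 * (n * k) = 2 * k * n := by ring
    omega
  have h1 : n ∣ 1 := by
    rw [← hu]
    exact Nat.dvd_gcd hnu hnM
  have := Nat.le_of_dvd one_pos h1
  omega

/-- The powers of the roots are different.
PROOF. From `distinct`, `isIntegral_root` and `nodup`. -/
theorem nodup_pow (q p : ℕ) [Fact p.Prime] (ℓ : ℕ) [Fact ℓ.Prime] (M : ℕ)
    (hM : ℓ = 2 * M + 1) (Q : ℤ[X]) (hQ : ModTwo ℓ Q)
    (hnorm : ∀ β : ℂ, Root Q β → ‖β‖ = q)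
    (hnc : ∀ β : ℂ, Root Q β → ∀ m : ℕ, 1 ≤ m → β ^ m ≠ (q : ℂ) ^ m)
    (hu : Nat.Coprime (unitRoots p Q) M) (m : ℕ) (hm : 1 ≤ m) :
    ((Q.map (Int.castRingHom ℂ)).roots.map (fun α => α ^ m)).Nodup := by
  have hroot : ∀ α ∈ (Q.map (Int.castRingHom ℂ)).roots, Root Q α := by
    intro α hα
    rw [mem_roots (Polynomial.map_ne_zero_iff (RingHom.injective_int (Int.castRingHom ℂ)) |>.2
      hQ.1.ne_zero), IsRoot, eval_map] at hα
    exact hα
  apply Multiset.Nodup.map_on
  · intro α hα β hβ hαβ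
    have h1 := distinct q p ℓ M hM Q hQ hnorm hnc hu
      ⟨⟨α, isIntegral_root Q hQ.1 α (hroot α hα)⟩, hroot α hα⟩
      ⟨⟨β, isIntegral_root Q hQ.1 β (hroot β hβ)⟩, hroot β hβ⟩ ⟨m, hm, hαβ⟩
    have h2 := congrArg (fun z : Rt Q => ((z.1 : integralClosure ℤ ℂ) : ℂ)) h1
    exact h2
  · exact nodup ℓ ⟨M, hM⟩ Q hQ

end Pool.Agent.Helper14.TX
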