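import Pool.Agent.Helper14.TX.Defs

/-!
# Irreducibility for the explicit family

PROOF. Let `M = (p - 1) / 2`, `D = X * (X ^ M - 1) ^ 2 - 4`, a monic polynomial of degree
`2 M + 1 = p`. Let `θ` be a root in `AlgebraicClosure (ZMod p)` and `v` a square root of `θ`. Then
`v ^ 2 * (v ^ (2 M) - 1) ^ 2 = (v ^ p - v) ^ 2 = 4`, so `v ^ p - v = 2` after replacing `v` by `-v` if
necessary. Hence `v ^ (p ^ k) = v + 2 k` for all `k` and `θ ^ (p ^ k) = (v + 2 k) ^ 2`. If
`θ ^ (p ^ k) = θ` then `(v + 2 k) ^ 2 = v ^ 2`, `4 k (v + k) = 0`, so `p ∣ k` or `v = -k` is in the prime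
field; the latter contradicts `v ^ p - v = 2 ≠ 0`. So `p ∣ k`. If `e` is the degree of the minimal
polynomial of `θ` over `ZMod p` then `θ ^ (p ^ e) = θ` (the field generated by `θ` has `p ^ e`
elements), so `p ∣ e`, `e ≥ p`, and the minimal polynomial, a divisor of `D`, is equal to `D`
(both are monic and the degree of `D` is `p`).
(Alternatively `Irreducible.natDegree_dvd_iff_dvd_X_pow_card_pow_sub_X`.)
-/

set_option autoImplicit false

open Polynomial

namespace Pool.Agent.Helper14.TX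

theorem natDegree_expl (p : ℕ) [Fact p.Prime] : (expl p).natDegree = (p - 1) / 2 := by
  unfold expl
  rw [show (1 : (ZMod p)[X]) = C 1 by simp]
  exact natDegree_X_pow_sub_C

theorem deg_expl (p : ℕ) [Fact p.Prime] (hp2 : p ≠ 2) : deg (expl p) = p := by
  unfold deg
  rw [natDegree_expl]
  have hodd : Odd p := (Fact.out : p.Prime).odd_of_ne_two hp2
  obtain ⟨k, hk⟩ := hodd
  omega

/-- Iteration of the Frobenius on a solution of an Artin-Schreier equation. -/
theorem irr_iter {p : ℕ} [Fact p.Prime] {v : AlgebraicClosure (ZMod p)} (hv : v ^ p - v = 2)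
    (k : ℕ) : v ^ (p ^ k) = v + 2 * k := by
  induction k with
  | zero => simp
  | succ k ih =>
    have h2 : ((2 : AlgebraicClosure (ZMod p)) * (k : ℕ)) ^ p = 2 * (k : ℕ) := by
      have h3 : ((2 : AlgebraicClosure (ZMod p)) * (k : ℕ)) =
          algebraMap (ZMod p) (AlgebraicClosure (ZMod p)) ((2 * k : ℕ) : ZMod p) := by
        rw [map_natCast]
        push_cast
        rfl
      rw [h3, ← map_pow, ZMod.pow_card]
    rw [pow_succ, pow_mul, ih, add_pow_char _ _ p, h2]
    have : v ^ p = v + 2 := by rw [← hv]; ring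
    rw [this]
    push_cast
    ring

theorem irreducible_expl (p : ℕ) [Fact p.Prime] (hp2 : p ≠ 2) :
    Irreducible (X * expl p ^ 2 - 4 : (ZMod p)[X]) := by
  have hp : p.Prime := Fact.out
  have hodd : Odd p := hp.odd_of_ne_two hp2
  obtain ⟨M, hM⟩ := hodd
  have hM' : (p - 1) / 2 = M := by omega
  have hM1 : 1 ≤ M := by
    have := hp.two_le
    omega
  set D : (ZMod p)[X] := X * expl p ^ 2 - 4 with hD
  -- the degree of `D`
  have hEm : (expl p).Monic := by
    unfold expl
    rw [show (1 : (ZMod p)[X]) = C 1 by simp, hM']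
    exact monic_X_pow_sub_C 1 (by omega)
  have hXm : (X * expl p ^ 2 : (ZMod p)[X]).Monic := monic_X.mul (hEm.pow 2)
  have hXd : (X * expl p ^ 2 : (ZMod p)[X]).natDegree = p := by
    rw [monic_X.natDegree_mul (hEm.pow 2), hEm.natDegree_pow, natDegree_X, natDegree_expl]
    omega
  have h4 : (4 : (ZMod p)[X]) = C 4 := rfl
  have hDd : D.natDegree = p := by
    rw [hD, h4, natDegree_sub_C, hXd]
  have hDm : D.Monic := by
    rw [hD, h4]
    apply hXm.sub_of_left
    rw [degree_eq_natDegree hXm.ne_zero, hXd]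
    refine (degree_C_le).trans_lt ?_
    exact_mod_cast hp.pos
  -- a root
  obtain ⟨θ, hθ⟩ := IsAlgClosed.exists_aeval_eq_zero (AlgebraicClosure (ZMod p)) D (by
    rw [degree_eq_natDegree hDm.ne_zero, hDd]
    exact_mod_cast hp.ne_zero)
  obtain ⟨w, hw⟩ := IsAlgClosed.exists_pow_nat_eq θ (n := 2) two_pos
  have h2ne : (2 : AlgebraicClosure (ZMod p)) ≠ 0 := by
    have h3 : (2 : AlgebraicClosure (ZMod p)) = ((2 : ℕ) : AlgebraicClosure (ZMod p)) := by norm_num
    rw [h3, Ne, CharP.cast_eq_zero_iff (AlgebraicClosure (ZMod p)) p]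
    intro h
    exact hp2 ((Nat.prime_dvd_prime_iff_eq hp Nat.prime_two).1 h)
  have hsq : (w ^ p - w) ^ 2 = 2 ^ 2 := by
    have h5 : θ * (θ ^ M - 1) ^ 2 - 4 = 0 := by
      have := hθ
      simp only [hD, expl, hM', map_sub, map_mul, map_pow, aeval_X, map_one, map_ofNat] at this
      exact this
    have h6 : w ^ p = w * (w ^ 2) ^ M := by
      rw [← pow_mul, ← pow_succ']
      exact congrArg _ hM
    rw [h6, hw]
    have h7 : (w * θ ^ M - w) ^ 2 = w ^ 2 * (θ ^ M - 1) ^ 2 := by ring
    rw [h7, hw, sub_eq_zero.1 h5]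
    norm_num
  obtain ⟨v, hv, hvθ⟩ : ∃ v : AlgebraicClosure (ZMod p), v ^ p - v = 2 ∧ v ^ 2 = θ := by
    rcases sq_eq_sq_iff_eq_or_eq_neg.1 hsq with h | h
    · exact ⟨w, h, hw⟩
    · refine ⟨-w, ?_, by rw [neg_sq, hw]⟩
      rw [Odd.neg_pow ⟨M, hM⟩]
      linear_combination -h
  -- the minimal polynomial
  have hint : IsIntegral (ZMod p) θ := ⟨D, hDm, hθ⟩
  have hirr := minpoly.irreducible hint
  set m := minpoly (ZMod p) θ with hm
  have hmD : m ∣ D := minpoly.dvd _ _ hθ
  have hpow : θ ^ (p ^ m.natDegree) = θ := by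
    have h8 := (hirr.natDegree_dvd_iff_dvd_X_pow_card_pow_sub_X (n := m.natDegree)).1 dvd_rfl
    rw [Nat.card_zmod] at h8
    have h9 : aeval θ (X ^ p ^ m.natDegree - X : (ZMod p)[X]) = 0 := by
      obtain ⟨g, hg⟩ := h8
      rw [hg, map_mul, hm, minpoly.aeval, zero_mul]
    simpa [sub_eq_zero] using h9
  have hpe : p ∣ m.natDegree := by
    by_contra hnd
    have h10 : (m.natDegree : AlgebraicClosure (ZMod p)) ≠ 0 := by
      rw [Ne, CharP.cast_eq_zero_iff (AlgebraicClosure (ZMod p)) p]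
      exact hnd
    have h11 : (v + 2 * m.natDegree) ^ 2 = v ^ 2 := by
      rw [← irr_iter hv, ← pow_mul, mul_comm, pow_mul, hvθ, hpow]
    have h12 : (2 * 2 * (m.natDegree : AlgebraicClosure (ZMod p))) * (v + m.natDegree) = 0 := by
      linear_combination h11
    rcases mul_eq_zero.1 h12 with h | h
    · rcases mul_eq_zero.1 h with h | h
      · exact h2ne (mul_self_eq_zero.1 h)
      · exact h10 h
    · have h13 : v = algebraMap (ZMod p) (AlgebraicClosure (ZMod p)) (-(m.natDegree : ZMod p)) := by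
        rw [map_neg, map_natCast]
        linear_combination h
      have h14 : v ^ p = v := by
        rw [h13, ← map_pow, ZMod.pow_card]
      rw [h14, sub_self] at hv
      exact h2ne hv.symm
  have hmpos : 0 < m.natDegree := minpoly.natDegree_pos hint
  have hle : p ≤ m.natDegree := Nat.le_of_dvd hmpos hpe
  have heq : m = D := by
    refine (eq_of_monic_of_dvd_of_natDegree_le (minpoly.monic hint) hDm hmD ?_).symm
    rw [hDd]
    exact hle
  rw [← heq]
  exact hirr

end Pool.Agent.Helper14.TX
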