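import Pool.Agent.Helper14.TX.Count
import Pool.Agent.Helper2.Tate.Order

/-!
# The polynomial modulo two

PROOF. By `count` and `IsFrob.card`,
`powerSum Q n + 3 q ^ n = q ^ (2 n) + 1 + cnt + 2 (s - t)` where `cnt = d` if `d ∣ n`, else `0`
(`d = deg a`). As in `Pool.Agent.Helper2.Tate.family_factor` (`Order.lean`, `ℓ = 2`; tools `LD_reverse`,
`LD_single`, `LD_cyc`, `LD.mul`, `LD.pow`, `mod_identity`) the polynomials
`Q.reverse * (1 - q X) ^ 3` and `(1 - q ^ 2 X) (1 - X) (1 - X ^ d)` are congruent modulo `2`; as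
`q` is odd, `Q.reverse * (1 - X) ^ 3 = (1 - X) ^ 2 (1 - X ^ d)` in `(ZMod 2)[X]` and so
`Q.reverse = 1 + X + ... + X ^ (d - 1)` modulo `2` (`mul_neg_geom_sum`). Finally `Q.coeff 0` is an
integer of absolute value `q ^ N`, `N = Q.natDegree` (product of the roots, `IsFrob.norm`), so it is
odd; hence `Q.reverse` modulo `2` has degree exactly `N`, `N = d - 1`, and
`Q.coeff i = Q.reverse.coeff (N - i)` is odd for all `i ≤ N`.
-/

set_option autoImplicit false

open Polynomial

namespace Pool.Agent.Helper14.TX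

theorem odd_card (F : Type) [Field F] [Fintype F] (h2 : (2 : F) ≠ 0) : Odd (Fintype.card F) := by
  rw [← Nat.not_even_iff_odd]
  intro h
  have h1 := FiniteField.even_card_iff_char_two.2 (Nat.even_iff.1 h)
  apply h2
  have h3 := ringChar.Nat.cast_ringChar (R := F)
  rw [h1] at h3
  exact_mod_cast h3

/-- The congruence modulo two of the reversed polynomials. -/
theorem rev_mod_two (q d : ℕ) (hq : Odd q) (hd : 1 ≤ d) (Q : ℤ[X]) (hQ : Q.Monic)
    (a u : ℕ → ℤ) (ha : ∀ n, 1 ≤ n → Pool.Agent.Helper2.Tate.powerSum Q n = a n)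
    (hu : ∀ n, 1 ≤ n → (2 : ℤ) ^ (padicValNat 2 n) ∣ u n)
    (hrel : ∀ n, 1 ≤ n → a n = (q : ℤ) ^ (2 * n) - 3 * (q : ℤ) ^ n + 1 +
      (if d ∣ n then (d : ℤ) else 0) - 2 * u n) :
    Q.reverse.map (Int.castRingHom (ZMod 2)) = ∑ i ∈ Finset.range d, X ^ i := by
  have hF : Fact (Nat.Prime 2) := ⟨Nat.prime_two⟩
  have hq' : ((q : ℤ) : ZMod 2) = 1 := by
    push_cast
    exact ZMod.natCast_eq_one_iff_odd.2 hq
  set L : ℤ[X] := Q.reverse * (1 - C (q : ℤ) * X) ^ 3 with hL
  set G : ℤ[X] := (1 - C ((q : ℤ) ^ 2) * X) * (1 - C (1 : ℤ) * X) * (1 - X ^ d) with hG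
  have hLL : Pool.Agent.Helper2.Tate.LD (L : PowerSeries ℤ)
      (PowerSeries.mk (fun n => if n = 0 then 0 else a n) +
      3 • Pool.Agent.Helper2.Tate.ps {(q : ℤ)}) := by
    rw [hL, Polynomial.coe_mul, Polynomial.coe_pow]
    exact (Pool.Agent.Helper2.Tate.LD_reverse Q hQ a ha).mul
      ((Pool.Agent.Helper2.Tate.LD_single _).pow _)
  have hLG : Pool.Agent.Helper2.Tate.LD (G : PowerSeries ℤ)
      (Pool.Agent.Helper2.Tate.ps {(q : ℤ) ^ 2} + Pool.Agent.Helper2.Tate.ps {(1 : ℤ)} +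
      (PowerSeries.mk (fun n => if n = 0 then 0 else Pool.Agent.Helper2.Tate.cnt d n))) := by
    rw [hG]
    simp only [Polynomial.coe_mul]
    exact ((Pool.Agent.Helper2.Tate.LD_single _).mul (Pool.Agent.Helper2.Tate.LD_single _)).mul
      (Pool.Agent.Helper2.Tate.LD_cyc d hd)
  have c0 : ∀ (p : ℤ[X]) (k : ℕ), p.coeff 0 = 1 → (p ^ k).coeff 0 = 1 := by
    intro p k hp
    rw [coeff_zero_eq_eval_zero, eval_pow, ← coeff_zero_eq_eval_zero, hp, one_pow]
  have c1 : ∀ z : ℤ, (1 - C z * X : ℤ[X]).coeff 0 = 1 := by intro z; simp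
  have c2 : ∀ m : ℕ, 1 ≤ m → (1 - X ^ m : ℤ[X]).coeff 0 = 1 := by
    intro m hm
    rw [coeff_sub, coeff_one_zero, coeff_X_pow, if_neg (show ¬ 0 = m by omega), sub_zero]
  have c3 : ∀ p r : ℤ[X], p.coeff 0 = 1 → r.coeff 0 = 1 → (p * r).coeff 0 = 1 := by
    intro p r hp hr
    rw [mul_coeff_zero, hp, hr, one_mul]
  have hL0 : L.coeff 0 = 1 :=
    c3 _ _ (Pool.Agent.Helper2.Tate.coeff_zero_reverse_monic Q hQ) (c0 _ _ (c1 _))
  have hG0 : G.coeff 0 = 1 := c3 _ _ (c3 _ _ (c1 _) (c1 _)) (c2 _ hd)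
  have hcong := Pool.Agent.Helper2.Tate.mod_identity (ℓ := 2) L G hL0 hG0 _ _ u hLL hLG (by
      ext n
      unfold Pool.Agent.Helper2.Tate.ps Pool.Agent.Helper2.Tate.cnt
      simp only [map_sub, map_add, map_nsmul, PowerSeries.coeff_C_mul, PowerSeries.coeff_mk]
      simp only [nsmul_eq_mul]
      rcases Nat.eq_zero_or_pos n with rfl | hn
      · simp
      · simp only [if_neg (show ¬ n = 0 by omega), Multiset.map_singleton,
          Multiset.sum_singleton]
        rw [hrel n hn, pow_mul, one_pow]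
        push_cast
        ring) hu
  have hmap : L.map (Int.castRingHom (ZMod 2)) = G.map (Int.castRingHom (ZMod 2)) := by
    ext n
    rw [coeff_map, coeff_map, ← sub_eq_zero, ← map_sub, eq_intCast,
      ZMod.intCast_zmod_eq_zero_iff_dvd]
    exact hcong n
  have m1 : ∀ z : ℤ, (z : ZMod 2) = 1 →
      (1 - C z * X : ℤ[X]).map (Int.castRingHom (ZMod 2)) = 1 - X := by
    intro z hz
    rw [Polynomial.map_sub, Polynomial.map_one, Polynomial.map_mul, Polynomial.map_C,
      Polynomial.map_X]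
    have : (Int.castRingHom (ZMod 2)) z = 1 := hz
    rw [this, map_one, one_mul]
  have m2 : ∀ m : ℕ, (1 - X ^ m : ℤ[X]).map (Int.castRingHom (ZMod 2)) = 1 - X ^ m := by
    intro m
    rw [Polynomial.map_sub, Polynomial.map_one, Polynomial.map_pow, Polynomial.map_X]
  have hq2 : (((q : ℤ) ^ 2 : ℤ) : ZMod 2) = 1 := by
    rw [Int.cast_pow, hq', one_pow]
  rw [hL, hG] at hmap
  simp only [Polynomial.map_mul, Polynomial.map_pow] at hmap
  rw [m1 _ hq', m1 _ hq2, m1 1 (by rw [Int.cast_one]), m2, ← mul_neg_geom_sum] at hmap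
  have hne : (1 - X : (ZMod 2)[X]) ≠ 0 := by
    intro h
    have := congrArg (fun p => Polynomial.coeff p 0) h
    simp at this
  apply mul_right_cancel₀ (pow_ne_zero 3 hne)
  rw [hmap]
  ring

/-- The constant coefficient is odd. -/
theorem odd_coeff_zero (q : ℕ) (hq : Odd q) (Q : ℤ[X]) (hQ : Q.Monic)
    (hnorm : ∀ α : ℂ, Root Q α → ‖α‖ = q) : Odd (Q.coeff 0) := by
  have hm : (Q.map (Int.castRingHom ℂ)).Monic := hQ.map _
  have hs : (Q.map (Int.castRingHom ℂ)).Splits := IsAlgClosed.splits _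
  have h1 := hs.coeff_zero_eq_prod_roots_of_monic hm
  have hcard : (Q.map (Int.castRingHom ℂ)).roots.card = Q.natDegree := by
    rw [← hs.natDegree_eq_card_roots, hQ.natDegree_map]
  have h2 : ‖((Q.map (Int.castRingHom ℂ)).roots).prod‖ = (q : ℝ) ^ Q.natDegree := by
    have h3 : ∀ A : Multiset ℂ, (∀ α ∈ A, ‖α‖ = (q : ℝ)) → ‖A.prod‖ = (q : ℝ) ^ A.card := by
      intro A
      induction A using Multiset.induction_on with
      | empty => intro _; simp
      | cons α A ih =>
        intro h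
        rw [Multiset.prod_cons, norm_mul, h α (Multiset.mem_cons_self _ _),
          ih (fun β hβ => h β (Multiset.mem_cons_of_mem hβ)), Multiset.card_cons, pow_succ, mul_comm]
    rw [h3 _ ?_, hcard]
    intro α hα
    apply hnorm
    rw [mem_roots hm.ne_zero, IsRoot, eval_map] at hα
    exact hα
  have h4 : ‖((Q.coeff 0 : ℤ) : ℂ)‖ = (q : ℝ) ^ Q.natDegree := by
    have h5 : ((Q.coeff 0 : ℤ) : ℂ) = (Q.map (Int.castRingHom ℂ)).coeff 0 := by
      rw [coeff_map]; rfl
    rw [h5, h1, norm_mul, norm_pow, norm_neg, norm_one, one_pow, one_mul, h2]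
  have h5 : (Q.coeff 0).natAbs = q ^ Q.natDegree := by
    rw [Complex.norm_intCast] at h4
    have h6 : (((Q.coeff 0).natAbs : ℕ) : ℝ) = ((q ^ Q.natDegree : ℕ) : ℝ) := by
      rw [Nat.cast_natAbs, Int.cast_abs, h4]
      push_cast
      rfl
    exact_mod_cast h6
  rw [← Int.natAbs_odd, h5]
  exact hq.pow

/-- The reduction modulo two. -/
theorem mod_two (F : Type) [Field F] [Fintype F] (h2 : (2 : F) ≠ 0) (a : F[X])
    (hirr : Irreducible (X * a ^ 2 - 4)) (Q : ℤ[X]) (hQ : IsFrob F a Q) :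
    Q.map (Int.castRingHom (ZMod 2)) = ∑ i ∈ Finset.range (deg a), X ^ i ∧
      Q.natDegree + 1 = deg a := by
  have hd : 1 ≤ deg a := by unfold deg; omega
  have hq := odd_card F h2
  have hc := count F h2 a hirr
  choose! s t hs ht hst using hc
  have hrev := rev_mod_two (Fintype.card F) (deg a) hq hd Q hQ.monic
    (fun n => (Fintype.card F : ℤ) ^ (2 * n) - 3 * (Fintype.card F : ℤ) ^ n + 1 +
      (if deg a ∣ n then (deg a : ℤ) else 0) - 2 * ((t n : ℤ) - s n))
    (fun n => (t n : ℤ) - s n) (by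
      intro n hn
      have h1 := hQ.card n hn
      have h3 : (((surf F a n).ncard : ℤ) : ℂ) = ((surf F a n).ncard : ℂ) := by push_cast; rfl
      have h4 : Pool.Agent.Helper2.Tate.powerSum Q n = powerSum Q n := rfl
      rw [h4]
      have h5 : powerSum Q n = (((surf F a n).ncard : ℤ) : ℂ) - (Fintype.card F : ℂ) ^ (2 * n) - 1 := by
        rw [h3, h1]; ring
      rw [h5, hst n hn]
      push_cast
      ring) (by
      intro n hn
      apply dvd_sub
      · exact_mod_cast ht n hn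
      · exact_mod_cast hs n hn) (fun n _ => rfl)
  have hodd := odd_coeff_zero (Fintype.card F) hq Q hQ.monic hQ.norm
  have hcoef : ∀ i, ((Q.reverse.coeff i : ℤ) : ZMod 2) = if i < deg a then 1 else 0 := by
    intro i
    have h1 := congrArg (fun p => Polynomial.coeff p i) hrev
    simp only [coeff_map, finsetSum_coeff, coeff_X_pow, eq_intCast] at h1
    rw [h1, Finset.sum_ite_eq]
    simp
  have hN1 : Q.natDegree < deg a := by
    by_contra h
    have h1 := hcoef Q.natDegree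
    rw [if_neg h, coeff_reverse, revAt_le le_rfl, Nat.sub_self] at h1
    rw [ZMod.intCast_zmod_eq_zero_iff_dvd] at h1
    have h3 : Even (Q.coeff 0) := even_iff_two_dvd.2 (by exact_mod_cast h1)
    exact (Int.not_even_iff_odd.2 hodd) h3
  have hN2 : deg a - 1 ≤ Q.natDegree := by
    by_contra h
    push Not at h
    have h1 := hcoef (deg a - 1)
    rw [if_pos (by omega), coeff_reverse, revAt_eq_self_of_lt h,
      coeff_eq_zero_of_natDegree_lt h] at h1
    simp at h1
  refine ⟨?_, by omega⟩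
  ext i
  rw [coeff_map, eq_intCast, finsetSum_coeff]
  simp only [coeff_X_pow]
  rw [Finset.sum_ite_eq]
  rcases Nat.lt_or_ge i (deg a) with hi | hi
  · rw [if_pos (Finset.mem_range.2 hi)]
    have h1 := hcoef (Q.natDegree - i)
    rw [if_pos (by omega), coeff_reverse, revAt_le (by omega)] at h1
    rw [← h1]
    congr 2
    omega
  · rw [if_neg (by simpa using hi), coeff_eq_zero_of_natDegree_lt (by omega)]
    simp

end Pool.Agent.Helper14.TX
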