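import Pool.Agent.Helper14.TX.Defs
import Pool.Agent.Helper2.Tate.Poly

/-!
# A polynomial of degree less than `p` from its power sums modulo `p`

PROOF. Let `F = Q.reverse` modulo `p` and `G = ∏ (1 - γ i X)`. By
`Pool.Agent.Helper2.Tate.LD_reverse` (mapped to `ZMod p`) and `LD_pr` both satisfy
`X * F' = - F * a` with the same power series `a = ∑ (n ≥ 1), a n X ^ n` over `ZMod p`, and have constant
coefficient `1`. Comparing coefficients, `n f_n = - ∑ (i < n), f_i a_(n - i)`; for `1 ≤ n < p` the
integer `n` is invertible modulo `p`, so by strong induction `f_n = g_n` for all `n < p`. Both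
polynomials have degree less than `p`.
-/

set_option autoImplicit false

open Polynomial

namespace Pool.Agent.Helper14.TX

open Pool.Agent.Helper2.Tate in
theorem LD_unique (p : ℕ) [Fact p.Prime] (F G s : PowerSeries (ZMod p)) (hF : LD F s) (hG : LD G s)
    (hs : PowerSeries.coeff 0 s = 0) (h0 : PowerSeries.coeff 0 F = PowerSeries.coeff 0 G) :
    ∀ n, n < p → PowerSeries.coeff n F = PowerSeries.coeff n G := by
  intro n
  induction n using Nat.strong_induction_on with
  | _ n ih =>
    intro hn
    rcases Nat.eq_zero_or_pos n with rfl | hpos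
    · exact h0
    obtain ⟨k, rfl⟩ : ∃ k, n = k + 1 := ⟨n - 1, by omega⟩
    have key : ∀ H : PowerSeries (ZMod p), LD H s →
        PowerSeries.coeff (k + 1) H * ((k + 1 : ℕ) : ZMod p) =
          - ∑ x ∈ Finset.HasAntidiagonal.antidiagonal (k + 1), PowerSeries.coeff x.1 H * PowerSeries.coeff x.2 s := by
      intro H hH
      have h1 := congrArg (PowerSeries.coeff (k + 1)) hH
      rw [PowerSeries.coeff_succ_X_mul, PowerSeries.coeff_derivative, map_neg,
        PowerSeries.coeff_mul] at h1
      rw [← h1]
      push_cast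
      ring
    have hsum : ∑ x ∈ Finset.HasAntidiagonal.antidiagonal (k + 1), PowerSeries.coeff x.1 F * PowerSeries.coeff x.2 s =
        ∑ x ∈ Finset.HasAntidiagonal.antidiagonal (k + 1), PowerSeries.coeff x.1 G * PowerSeries.coeff x.2 s := by
      apply Finset.sum_congr rfl
      intro x hx
      rw [Finset.HasAntidiagonal.mem_antidiagonal] at hx
      rcases Nat.eq_zero_or_pos x.2 with h2 | h2
      · rw [h2, hs, mul_zero, mul_zero]
      · rw [ih x.1 (by omega) (by omega)]
    have hne : ((k + 1 : ℕ) : ZMod p) ≠ 0 := by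
      intro h
      rw [ZMod.natCast_eq_zero_iff] at h
      exact absurd (Nat.le_of_dvd (by omega) h) (by omega)
    have h3 := (key F hF).trans ((congrArg Neg.neg hsum).trans (key G hG).symm)
    exact mul_right_cancel₀ hne h3

theorem newton (p : ℕ) [Fact p.Prime] (Q : ℤ[X]) (hQ : Q.Monic) (hdeg : Q.natDegree < p)
    (m : ℕ) (hm : m < p) (γ : Fin m → ZMod p) (a : ℕ → ℤ)
    (ha : ∀ n, 1 ≤ n → powerSum Q n = a n)
    (h : ∀ n, 1 ≤ n → (a n : ZMod p) = ∑ i, γ i ^ n) :
    Q.reverse.map (Int.castRingHom (ZMod p)) = ∏ i, (1 - C (γ i) * X) := by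
  classical
  set s : PowerSeries (ZMod p) := PowerSeries.mk (fun n => if n = 0 then 0 else (a n : ZMod p))
    with hsdef
  -- the reversed polynomial modulo `p`
  have hF : Pool.Agent.Helper2.Tate.LD
      ((Q.reverse.map (Int.castRingHom (ZMod p)) : (ZMod p)[X]) : PowerSeries (ZMod p)) s := by
    have h1 := Pool.Agent.Helper2.Tate.LD_reverse Q hQ a ha
    unfold Pool.Agent.Helper2.Tate.LD at *
    have h2 := congrArg (PowerSeries.map (Int.castRingHom (ZMod p))) h1
    rw [map_mul, map_neg, map_mul, PowerSeries.map_X] at h2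
    have h3 : PowerSeries.map (Int.castRingHom (ZMod p))
        (PowerSeries.derivative ℤ (Q.reverse : ℤ[X])) =
        PowerSeries.derivative (ZMod p)
          ((Q.reverse.map (Int.castRingHom (ZMod p)) : (ZMod p)[X]) : PowerSeries (ZMod p)) := by
      ext n
      rw [PowerSeries.coeff_map, PowerSeries.coeff_derivative, PowerSeries.coeff_derivative,
        Polynomial.coeff_coe, Polynomial.coeff_coe, coeff_map]
      simp
    have h4 : PowerSeries.map (Int.castRingHom (ZMod p)) ((Q.reverse : ℤ[X]) : PowerSeries ℤ) =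
        ((Q.reverse.map (Int.castRingHom (ZMod p)) : (ZMod p)[X]) : PowerSeries (ZMod p)) := by
      ext n
      rw [PowerSeries.coeff_map, Polynomial.coeff_coe, Polynomial.coeff_coe, coeff_map]
    have h5 : PowerSeries.map (Int.castRingHom (ZMod p))
        (PowerSeries.mk (fun n => if n = 0 then 0 else a n)) = s := by
      rw [hsdef]
      ext n
      rw [PowerSeries.coeff_map, PowerSeries.coeff_mk, PowerSeries.coeff_mk]
      rcases Nat.eq_zero_or_pos n with rfl | hn
      · simp
      · rw [if_neg (by omega), if_neg (by omega)]; simp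
    rw [h3, h4, h5] at h2
    exact h2
  -- the product
  have hpr : Pool.Agent.Helper2.Tate.pr ((Finset.univ : Finset (Fin m)).val.map γ) =
      ∏ i, (1 - C (γ i) * X) := by
    unfold Pool.Agent.Helper2.Tate.pr
    rw [Multiset.map_map]
    rfl
  have hG : Pool.Agent.Helper2.Tate.LD
      ((∏ i, (1 - C (γ i) * X) : (ZMod p)[X]) : PowerSeries (ZMod p)) s := by
    have h1 := Pool.Agent.Helper2.Tate.LD_pr ((Finset.univ : Finset (Fin m)).val.map γ)
    rw [hpr] at h1
    have h2 : Pool.Agent.Helper2.Tate.ps ((Finset.univ : Finset (Fin m)).val.map γ) = s := by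
      rw [hsdef]
      unfold Pool.Agent.Helper2.Tate.ps
      ext n
      rw [PowerSeries.coeff_mk, PowerSeries.coeff_mk]
      rcases Nat.eq_zero_or_pos n with rfl | hn
      · simp
      · rw [if_neg (by omega), if_neg (by omega), h n hn, Multiset.map_map]
        rfl
    rw [h2] at h1
    exact h1
  have hs0 : PowerSeries.coeff 0 s = 0 := by
    rw [hsdef, PowerSeries.coeff_mk]; simp
  have hF0 : (Q.reverse.map (Int.castRingHom (ZMod p))).coeff 0 = 1 := by
    rw [coeff_map, Pool.Agent.Helper2.Tate.coeff_zero_reverse_monic Q hQ]; simp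
  have hG0 : (∏ i, (1 - C (γ i) * X) : (ZMod p)[X]).coeff 0 = 1 := by
    rw [coeff_zero_eq_eval_zero, eval_prod]
    simp
  have huniq := LD_unique p _ _ s hF hG hs0 (by
    rw [Polynomial.coeff_coe, Polynomial.coeff_coe, hF0, hG0])
  have hdF : (Q.reverse.map (Int.castRingHom (ZMod p))).natDegree < p :=
    lt_of_le_of_lt (natDegree_map_le.trans (reverse_natDegree_le Q)) hdeg
  have hdG : (∏ i, (1 - C (γ i) * X) : (ZMod p)[X]).natDegree < p := by
    refine lt_of_le_of_lt (natDegree_prod_le _ _) (lt_of_le_of_lt ?_ hm)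
    calc ∑ i : Fin m, (1 - C (γ i) * X : (ZMod p)[X]).natDegree ≤ ∑ _i : Fin m, 1 := by
          apply Finset.sum_le_sum
          intro i _
          compute_degree
      _ = m := by simp
  ext n
  by_cases hn : n < p
  · have := huniq n hn
    rw [Polynomial.coeff_coe, Polynomial.coeff_coe] at this
    exact this
  · rw [coeff_eq_zero_of_natDegree_lt (by omega), coeff_eq_zero_of_natDegree_lt (by omega)]

end Pool.Agent.Helper14.TX
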