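import Pool.Agent.Helper14.TX.CountP
import Pool.Agent.Helper14.TX.NewtonP
import Pool.Agent.Helper14.TX.ModTwo
import Pool.Agent.Helper14.TX.Irr

/-!
# The explicit family: the polynomial modulo `p`

PROOF. `Q.natDegree = p - 1` (`mod_two`, `irreducible_expl`, `deg_expl`). By `IsFrob.card` and
`count_mod`, `powerSum Q n` is an integer congruent modulo `p` to
`∑ (c = 1 .. (p + 1) / 4), γ_c ^ n - 1 = ∑ (c = 1 .. (p - 3) / 4), γ_c ^ n`,
`γ_c = choose M (2 c - 1)`, because `γ_((p + 1) / 4) = choose M M = 1`, `M = (p - 1) / 2`. By `newton`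
`Q.reverse = ∏ (c = 1 .. (p - 3) / 4), (1 - γ_c X)` modulo `p`. As
`Q.coeff i = Q.reverse.coeff (p - 1 - i)`, `Q` modulo `p` is
`X ^ (p - 1 - (p - 3) / 4) ∏ (X - γ_c)`, and `p - 1 - (p - 3) / 4 = (3 p - 1) / 4`. The `γ_c` are
not `0` because `M < p`, so `unitRoots p Q = (p - 3) / 4`; it is prime to `M` as
`M - 2 (p - 3) / 4 = 1`.
-/

set_option autoImplicit false

open Polynomial

namespace Pool.Agent.Helper14.TX

theorem reflect_prod {R : Type} [CommRing R] {J : Type} (s : Finset J) (γ : J → R) (K : ℕ) :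
    reflect (K + s.card) (∏ i ∈ s, (1 - C (γ i) * X : R[X])) =
      X ^ K * ∏ i ∈ s, (X - C (γ i)) := by
  classical
  have hdeg1 : ∀ a : R, (1 - C a * X : R[X]).natDegree ≤ 1 := by
    intro a
    refine (natDegree_sub_le _ _).trans ?_
    rw [natDegree_one]
    refine max_le (Nat.zero_le _) ((natDegree_C_mul_le a X).trans natDegree_X_le)
  have hdeg : ∀ s : Finset J, (∏ i ∈ s, (1 - C (γ i) * X : R[X])).natDegree ≤ s.card := by
    intro s
    refine (natDegree_prod_le _ _).trans ?_
    calc ∑ i ∈ s, (1 - C (γ i) * X : R[X]).natDegree ≤ ∑ _i ∈ s, 1 :=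
          Finset.sum_le_sum (fun i _ => hdeg1 _)
      _ = s.card := by simp
  have h1 : ∀ a : R, reflect 1 (1 - C a * X : R[X]) = X - C a := by
    intro a
    have e1 : (1 - C a * X : R[X]) = C 1 * X ^ 0 - C a * X ^ 1 := by simp
    rw [e1, reflect_sub, reflect_C_mul_X_pow, reflect_C_mul_X_pow]
    simp [revAt]
  induction s using Finset.induction_on with
  | empty =>
    have e1 : (1 : R[X]) = C 1 * X ^ 0 := by simp
    rw [Finset.prod_empty, Finset.prod_empty, Finset.card_empty, e1, reflect_C_mul_X_pow]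
    simp [revAt]
  | insert i s hi ih =>
    rw [Finset.prod_insert hi, Finset.prod_insert hi, Finset.card_insert_of_notMem hi,
      show K + (s.card + 1) = 1 + (K + s.card) by ring,
      reflect_mul _ _ (hdeg1 _) ((hdeg s).trans (Nat.le_add_left _ _)), ih, h1]
    ring

theorem choose_ne_zero (p : ℕ) [hp : Fact p.Prime] (M k : ℕ) (hM : M < p) (hk : k ≤ M) :
    (Nat.choose M k : ZMod p) ≠ 0 := by
  intro h
  rw [ZMod.natCast_eq_zero_iff] at h
  have h1 : p ∣ M.factorial := by
    rw [← Nat.choose_mul_factorial_mul_factorial hk]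
    exact (h.mul_right _).mul_right _
  have h2 := (hp.out.dvd_factorial).1 h1
  omega

theorem explicit_mod (p : ℕ) [Fact p.Prime] (hp : p % 4 = 3) (Q : ℤ[X])
    (hQ : IsFrob (ZMod p) (expl p) Q) :
    Q.map (Int.castRingHom (ZMod p)) = X ^ ((3 * p - 1) / 4) *
      ∏ j ∈ Finset.range ((p - 3) / 4), (X - C (Nat.choose ((p - 1) / 2) (2 * j + 1) : ZMod p)) := by
  have hp2 : p ≠ 2 := by omega
  have h2 : (2 : ZMod p) ≠ 0 := by
    intro h
    have h1 : ((2 : ℕ) : ZMod p) = 0 := by exact_mod_cast h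
    rw [ZMod.natCast_eq_zero_iff] at h1
    have := Nat.le_of_dvd (by norm_num) h1
    omega
  have hdeg := (mod_two (ZMod p) h2 (expl p) (irreducible_expl p hp2) Q hQ).2
  rw [deg_expl p hp2] at hdeg
  set m := (p - 3) / 4 with hm
  set M := (p - 1) / 2 with hM
  have key := newton p Q hQ.monic (by omega) m (by omega)
    (fun i => (Nat.choose M (2 * (i : ℕ) + 1) : ZMod p))
    (fun n => ((surf (ZMod p) (expl p) n).ncard : ℤ) - (p : ℤ) ^ (2 * n) - 1) (by
      intro n hn
      have h1 := hQ.card n hn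
      rw [ZMod.card] at h1
      push_cast
      rw [h1]
      ring) (by
      intro n hn
      have h1 := count_mod p hp n hn
      push_cast
      rw [h1, ZMod.natCast_self, zero_pow (by omega)]
      have e1 : (p + 1) / 4 = m + 1 := by omega
      have e2 : Finset.Icc 1 (m + 1) = Finset.Ico 1 (m + 1 + 1) := by
        ext x; simp only [Finset.mem_Icc, Finset.mem_Ico]; omega
      rw [e1, e2, Finset.sum_Ico_eq_sum_range, Nat.add_sub_cancel, Finset.sum_range_succ,
        Finset.sum_range]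
      have e3 : 2 * (1 + m) - 1 = M := by omega
      rw [e3, Nat.choose_self]
      have e4 : ∀ i : Fin m, 2 * (1 + (i : ℕ)) - 1 = 2 * (i : ℕ) + 1 := by intro i; omega
      simp only [e4]
      push_cast
      ring)
  have h3 : Q = reflect Q.natDegree Q.reverse := by
    unfold reverse
    rw [reflect_reflect]
  have h4 : Q.map (Int.castRingHom (ZMod p)) =
      reflect Q.natDegree (Q.reverse.map (Int.castRingHom (ZMod p))) := by
    conv_lhs => rw [h3]
    rw [reflect_map]
  rw [h4, key]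
  have h5 : Q.natDegree = (3 * p - 1) / 4 + (Finset.univ : Finset (Fin m)).card := by
    rw [Finset.card_univ, Fintype.card_fin]
    omega
  rw [h5, reflect_prod, Finset.prod_range]

theorem explicit_unitRoots (p : ℕ) [Fact p.Prime] (hp : p % 4 = 3) (Q : ℤ[X])
    (hQ : IsFrob (ZMod p) (expl p) Q) : unitRoots p Q = (p - 3) / 4 := by
  have hp2 : p ≠ 2 := by omega
  have h2 : (2 : ZMod p) ≠ 0 := by
    intro h
    have h1 : ((2 : ℕ) : ZMod p) = 0 := by exact_mod_cast h
    rw [ZMod.natCast_eq_zero_iff] at h1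
    have := Nat.le_of_dvd (by norm_num) h1
    omega
  have hdeg := (mod_two (ZMod p) h2 (expl p) (irreducible_expl p hp2) Q hQ).2
  rw [deg_expl p hp2] at hdeg
  unfold unitRoots
  rw [hQ.monic.natDegree_map]
  rw [explicit_mod p hp Q hQ]
  have h0 : (∏ j ∈ Finset.range ((p - 3) / 4),
      (X - C (Nat.choose ((p - 1) / 2) (2 * j + 1) : ZMod p))).coeff 0 ≠ 0 := by
    rw [coeff_zero_eq_eval_zero, eval_prod, Finset.prod_ne_zero_iff]
    intro j hj
    rw [Finset.mem_range] at hj
    rw [eval_sub, eval_X, eval_C, zero_sub, neg_ne_zero]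
    exact choose_ne_zero p _ _ (by omega) (by omega)
  have hne : (∏ j ∈ Finset.range ((p - 3) / 4),
      (X - C (Nat.choose ((p - 1) / 2) (2 * j + 1) : ZMod p))) ≠ 0 := by
    intro h
    rw [h, coeff_zero] at h0
    exact h0 rfl
  rw [mul_comm, natTrailingDegree_mul_X_pow hne, natTrailingDegree_eq_zero.2 (Or.inr h0)]
  omega

end Pool.Agent.Helper14.TX
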