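import Pool.Agent.Helper14.TX.ProdC

/-!
# Products with arbitrary varieties

`R` is the characteristic polynomial of the Frobenius on a cohomology group, of small degree, of an
arbitrary variety.
-/

set_option autoImplicit false

open Polynomial

namespace Pool.Agent.Helper14.TX

/-- Roots of polynomials over the field with two elements. -/
theorem exists_pow_two {κ : Type} [Field κ] [Algebra (ZMod 2) κ] (f : (ZMod 2)[X]) (hf : f.Monic)
    (z : κ) (h : aeval z f = 0) : ∃ k : ℕ, 1 ≤ k ∧ k ≤ f.natDegree ∧ z ^ (2 ^ k) = z := by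
  have : Fact (Nat.Prime 2) := ⟨Nat.prime_two⟩
  have hint : IsIntegral (ZMod 2) z := ⟨f, hf, h⟩
  have hirr := minpoly.irreducible hint
  have hdvd : minpoly (ZMod 2) z ∣ f := minpoly.dvd _ _ h
  refine ⟨(minpoly (ZMod 2) z).natDegree, hirr.natDegree_pos, natDegree_le_of_dvd hdvd hf.ne_zero, ?_⟩
  have h1 : minpoly (ZMod 2) z ∣ X ^ (Nat.card (ZMod 2)) ^ (minpoly (ZMod 2) z).natDegree - X :=
    hirr.natDegree_dvd_iff_dvd_X_pow_card_pow_sub_X.1 dvd_rfl
  obtain ⟨E, hE⟩ := h1
  have h2 := congrArg (aeval z) hE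
  rw [map_mul, minpoly.aeval, zero_mul, map_sub, map_pow, aeval_X, Nat.card_zmod] at h2
  exact sub_eq_zero.1 h2

theorem red_pow_two {κ : Type} [Field κ] (r : integralClosure ℤ ℂ →+* κ) (h2 : r 2 = 0)
    (f : ℤ[X]) (hf : f.Monic) (x : integralClosure ℤ ℂ) (hx : Root f (x : ℂ)) (h0 : r x ≠ 0) :
    ∃ k : ℕ, 1 ≤ k ∧ k ≤ f.natDegree ∧ r x ^ (2 ^ k - 1) = 1 := by
  have hp : Fact (Nat.Prime 2) := ⟨Nat.prime_two⟩
  have h12 : ((2 : ℕ) : κ) = 0 := by
    rw [← map_natCast r, Nat.cast_ofNat]; exact h2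
  have hchar : CharP κ 2 := (CharP.charP_iff_prime_eq_zero Nat.prime_two).2 h12
  let _ : Algebra (ZMod 2) κ := ZMod.algebra κ 2
  have h1 : aeval x f = 0 := by
    apply Subtype.ext
    have h3 : ((aeval x f : integralClosure ℤ ℂ) : ℂ) = aeval (x : ℂ) f :=
      (Polynomial.aeval_algHom_apply (integralClosure ℤ ℂ).val x f).symm
    rw [h3]
    exact hx
  have h4 : aeval (r x) (f.map (Int.castRingHom (ZMod 2))) = 0 := by
    have h5 := congrArg r h1
    rw [map_zero, aeval_def, hom_eval₂] at h5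
    rw [aeval_def, eval₂_map]
    have h6 : (algebraMap (ZMod 2) κ).comp (Int.castRingHom (ZMod 2)) =
        r.comp (algebraMap ℤ (integralClosure ℤ ℂ)) := RingHom.ext_int _ _
    rw [h6]
    exact h5
  obtain ⟨k, hk1, hk2, hk3⟩ := exists_pow_two _ (hf.map _) (r x) h4
  rw [hf.natDegree_map] at hk2
  refine ⟨k, hk1, hk2, ?_⟩
  apply mul_right_cancel₀ h0
  rw [← pow_succ, Nat.sub_add_cancel (Nat.one_le_two_pow), hk3, one_mul]

/-- Every root of `Q` has degree larger than the binary logarithm of `d`. -/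
theorem degree_large (d : ℕ) (hd : d.Prime) (hd2 : d ≠ 2) (Q : ℤ[X]) (hQ : ModTwo d Q) (β : ℂ)
    (hβ : Root Q β) (f : ℤ[X]) (hf : f.Monic) (hfβ : Root f β) : d < 2 ^ f.natDegree := by
  have : Fact (Nat.Prime 2) := ⟨Nat.prime_two⟩
  have hdF : Fact d.Prime := ⟨hd⟩
  obtain ⟨κ, hκ, r, hr⟩ := Pool.Agent.Helper2.Tate.exists_reduction 2
  have h2 : r 2 = 0 := by exact_mod_cast hr
  set x : integralClosure ℤ ℂ := ⟨β, isIntegral_root Q hQ.1 β hβ⟩ with hx
  obtain ⟨h3, h4⟩ := red_root r h2 d (hd.odd_of_ne_two hd2) Q hQ x hβ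
  have h0 : r x ≠ 0 := by
    intro h
    rw [h, zero_pow hd.ne_zero] at h3
    exact zero_ne_one h3
  obtain ⟨k, hk1, hk2, hk3⟩ := red_pow_two r h2 f hf x hfβ h0
  have hord : orderOf (r x) = d := orderOf_eq_prime h3 h4
  have h5 := orderOf_dvd_of_pow_eq_one hk3
  rw [hord] at h5
  have h6 : 0 < 2 ^ k - 1 := by
    have : 2 ^ 1 ≤ 2 ^ k := Nat.pow_le_pow_right (by norm_num) hk1
    omega
  have h7 := Nat.le_of_dvd h6 h5
  have h8 : 2 ^ k ≤ 2 ^ f.natDegree := Nat.pow_le_pow_right (by norm_num) hk2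
  omega

/-- No root of `Q` times a root of a polynomial of small degree has a power which is an integer
power of `q`. -/
theorem prod_factor (q : ℕ) (hq : q ≠ 0) (d : ℕ) (hd : d.Prime) (hd2 : d ≠ 2) (Q : ℤ[X])
    (hQ : ModTwo d Q) (R : ℤ[X]) (hR : R.Monic) (hb : 2 ^ R.natDegree ≤ d) (m : ℕ)
    (hdist : ((Q.map (Int.castRingHom ℂ)).roots.map (fun α => α ^ m)).Nodup) (β γ : ℂ)
    (hβ : Root Q β) (hγ : Root R γ) (j : ℕ) : (β * γ) ^ m ≠ (q : ℂ) ^ j := by
  intro h
  have hq0 : (q : ℂ) ≠ 0 := by exact_mod_cast hq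
  -- `m` is not `0` unless the conclusion is trivial: use the distinctness only
  have hmem : ∀ δ : ℂ, Root Q δ → δ ∈ (Q.map (Int.castRingHom ℂ)).roots := by
    intro δ hδ
    rw [mem_roots (Polynomial.map_ne_zero_iff (RingHom.injective_int (Int.castRingHom ℂ)) |>.2
      hQ.1.ne_zero), IsRoot, eval_map]
    exact hδ
  have hγi : IsIntegral ℚ γ := by
    have h1 : IsIntegral ℤ γ := ⟨R, hR, by rw [← aeval_def]; exact hγ⟩
    exact h1.tower_top
  have hβi : IsIntegral ℤ β := ⟨Q, hQ.1, by rw [← aeval_def]; exact hβ⟩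
  set E := IntermediateField.adjoin ℚ {γ} with hE
  set γ' : E := ⟨γ, IntermediateField.mem_adjoin_simple_self ℚ γ⟩ with hγ'
  have hβE : IsIntegral E β := hβi.tower_top
  -- two multiples of the minimal polynomial
  have hd1 : minpoly E β ∣ Q.map (algebraMap ℤ E) := by
    apply minpoly.dvd
    rw [aeval_map_algebraMap]
    exact hβ
  have hd2' : minpoly E β ∣ (C γ' * X) ^ m - C ((q : E) ^ j) := by
    apply minpoly.dvd
    rw [map_sub, map_pow, map_mul, aeval_C, aeval_X, aeval_C, map_pow, map_natCast]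
    have h1 : algebraMap E ℂ γ' = γ := rfl
    rw [h1, mul_comm γ β, h, sub_self]
  have hroots : ∀ δ : ℂ, aeval δ (minpoly E β) = 0 → δ = β := by
    intro δ hδ
    have h1 : Root Q δ := by
      obtain ⟨T, hT⟩ := hd1
      have h3 := congrArg (aeval δ) hT
      rw [map_mul, hδ, zero_mul, aeval_map_algebraMap] at h3
      exact h3
    have h4 : (γ * δ) ^ m = (q : ℂ) ^ j := by
      obtain ⟨T, hT⟩ := hd2'
      have h3 := congrArg (aeval δ) hT
      rw [map_mul, hδ, zero_mul, map_sub, map_pow, map_mul, aeval_C, aeval_X, aeval_C, map_pow,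
        map_natCast] at h3
      have h5 : algebraMap E ℂ γ' = γ := rfl
      rw [h5] at h3
      exact sub_eq_zero.1 h3
    have h6 : δ ^ m = β ^ m := by
      have h7 : γ ^ m ≠ 0 := by
        intro h0
        rw [mul_pow, h0, zero_mul] at h4
        exact pow_ne_zero _ hq0 h4.symm
      apply mul_left_cancel₀ h7
      rw [← mul_pow, ← mul_pow, h4, mul_comm γ β, h]
    exact Multiset.inj_on_of_nodup_map hdist δ (hmem δ h1) β (hmem β hβ) h6
  -- the minimal polynomial has degree one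
  have hdeg : (minpoly E β).natDegree = 1 := by
    have hsep : (minpoly E β).Separable := (minpoly.irreducible hβE).separable
    have hnd : ((minpoly E β).map (algebraMap E ℂ)).roots.Nodup := nodup_roots hsep.map
    have hcard : ((minpoly E β).map (algebraMap E ℂ)).roots.card = (minpoly E β).natDegree := by
      rw [← (IsAlgClosed.splits _).natDegree_eq_card_roots, natDegree_map]
    have hle : ((minpoly E β).map (algebraMap E ℂ)).roots ≤ {β} := by
      rw [Multiset.le_iff_subset hnd]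
      intro δ hδ
      rw [Multiset.mem_singleton]
      apply hroots
      rw [mem_roots (Polynomial.map_ne_zero (minpoly.ne_zero hβE)), IsRoot, eval_map] at hδ
      exact hδ
    have h1 := Multiset.card_le_card hle
    rw [hcard, Multiset.card_singleton] at h1
    have h3 := minpoly.natDegree_pos hβE
    omega
  obtain ⟨b, hb'⟩ := minpoly.natDegree_eq_one_iff.1 hdeg
  -- the degree of `β` over the rational numbers
  have hfin : FiniteDimensional ℚ E := IntermediateField.adjoin.finiteDimensional hγi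
  have h1 : (minpoly ℚ β).natDegree ≤ R.natDegree := by
    have h3 : minpoly ℚ β = minpoly ℚ b := by
      rw [← hb']
      exact minpoly.algebraMap_eq (algebraMap E ℂ).injective b
    have h4 : (minpoly ℚ b).natDegree ≤ Module.finrank ℚ E := minpoly.natDegree_le b
    have h5 : Module.finrank ℚ E = (minpoly ℚ γ).natDegree :=
      IntermediateField.adjoin.finrank hγi
    have h6 : minpoly ℚ γ ∣ R.map (algebraMap ℤ ℚ) := by
      apply minpoly.dvd
      rw [aeval_map_algebraMap]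
      exact hγ
    have h7 := natDegree_le_of_dvd h6 (hR.map _).ne_zero
    rw [hR.natDegree_map] at h7
    rw [h3]
    omega
  have h8 : (minpoly ℤ β).natDegree = (minpoly ℚ β).natDegree := by
    rw [minpoly.isIntegrallyClosed_eq_field_fractions' ℚ hβi,
      (minpoly.monic hβi).natDegree_map]
  have h9 := degree_large d hd hd2 Q hQ β hβ (minpoly ℤ β) (minpoly.monic hβi) (minpoly.aeval ℤ β)
  rw [h8] at h9
  have h10 : 2 ^ (minpoly ℚ β).natDegree ≤ 2 ^ R.natDegree :=
    Nat.pow_le_pow_right (by norm_num) h1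
  omega

/-- Two roots of `Q` times a root of a polynomial of small degree. -/
theorem prod_factor_sq (q : ℕ) (hq : Odd q) (d : ℕ) (hd : d.Prime) (hd2 : d ≠ 2) (Q : ℤ[X])
    (hQ : ModTwo d Q) (hnorm : ∀ β : ℂ, Root Q β → ‖β‖ = q) (R : ℤ[X]) (hR : R.Monic)
    (hb : 2 ^ R.natDegree ≤ d) (m : ℕ) (hm : Nat.Coprime m d) (β β' γ : ℂ)
    (hβ : Root Q β) (hβ' : Root Q β') (hγ : Root R γ) (j : ℕ)
    (h : (β * β' * γ) ^ m = (q : ℂ) ^ j) : β * β' = (q : ℂ) ^ 2 := by
  have : Fact (Nat.Prime 2) := ⟨Nat.prime_two⟩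
  have hdF : Fact d.Prime := ⟨hd⟩
  have hdodd := hd.odd_of_ne_two hd2
  obtain ⟨κ, hκ, r, hr⟩ := Pool.Agent.Helper2.Tate.exists_reduction 2
  have h2 : r 2 = 0 := by exact_mod_cast hr
  have hq1 : r ((q : ℕ) : integralClosure ℤ ℂ) = 1 := by
    obtain ⟨t, rfl⟩ := hq
    push_cast
    rw [map_add, map_mul, h2, zero_mul, map_one, zero_add]
  have hm0 : m ≠ 0 := by
    rintro rfl
    rw [Nat.coprime_zero_left] at hm
    exact hd.one_lt.ne' hm
  set x : integralClosure ℤ ℂ := ⟨β, isIntegral_root Q hQ.1 β hβ⟩ with hx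
  set x' : integralClosure ℤ ℂ := ⟨β', isIntegral_root Q hQ.1 β' hβ'⟩ with hx'
  set y : integralClosure ℤ ℂ := ⟨γ, isIntegral_root R hR γ hγ⟩ with hy
  have h1 : (x * x' * y) ^ m = ((q : ℕ) : integralClosure ℤ ℂ) ^ j := by
    apply Subtype.ext
    push_cast
    exact h
  have h3 := congrArg r h1
  rw [map_pow, map_mul, map_pow, hq1, one_pow] at h3
  have hy0 : r y ≠ 0 := by
    intro h0
    rw [h0, mul_zero, zero_pow hm0] at h3
    exact zero_ne_one h3
  obtain ⟨k, hk1, hk2, hk3⟩ := red_pow_two r h2 R hR y hγ hy0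
  obtain ⟨h4, -⟩ := red_root r h2 d hdodd Q hQ x hβ
  obtain ⟨h5, -⟩ := red_root r h2 d hdodd Q hQ x' hβ'
  have h6 : r (x * x') ^ (m * (2 ^ k - 1)) = 1 := by
    have h7 : (r (x * x') * r y) ^ (m * (2 ^ k - 1)) = 1 := by rw [pow_mul, h3, one_pow]
    rw [mul_pow, mul_comm m, pow_mul (r y), hk3, one_pow, mul_one, mul_comm _ m] at h7
    exact h7
  have h7 : r (x * x') ^ d = 1 := by rw [map_mul, mul_pow, h4, h5, mul_one]
  have h8 : Nat.Coprime (m * (2 ^ k - 1)) d := by
    apply Nat.Coprime.mul_left hm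
    rw [Nat.coprime_comm, hd.coprime_iff_not_dvd]
    intro hdvd
    have h9 : 0 < 2 ^ k - 1 := by
      have : 2 ^ 1 ≤ 2 ^ k := Nat.pow_le_pow_right (by norm_num) hk1
      omega
    have h10 := Nat.le_of_dvd h9 hdvd
    have h11 : 2 ^ k ≤ 2 ^ R.natDegree := Nat.pow_le_pow_right (by norm_num) hk2
    omega
  have h9 := pow_gcd_eq_one.mpr ⟨h6, h7⟩
  rw [h8, pow_one, map_mul] at h9
  have hc : Root Q (starRingEnd ℂ β) := root_conj Q β hβ
  set w : integralClosure ℤ ℂ := ⟨starRingEnd ℂ β, isIntegral_root Q hQ.1 _ hc⟩ with hw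
  have h10 : β * starRingEnd ℂ β = (q : ℂ) ^ 2 := by
    rw [Complex.mul_conj', hnorm β hβ]
    simp
  have h11 : x * w = ((q : ℕ) : integralClosure ℤ ℂ) ^ 2 := by
    apply Subtype.ext
    push_cast
    exact h10
  have h12 : r x * r w = 1 := by rw [← map_mul, h11, map_pow, hq1, one_pow]
  have hx0 : r x ≠ 0 := by
    intro h0
    rw [h0, zero_mul] at h12
    exact zero_ne_one h12
  have h13 : r x' = r w := mul_left_cancel₀ hx0 (h9.trans h12.symm)
  have h14 := red_inj r h2 d hdodd Q hQ x' w hβ' hc h13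
  have h15 := congrArg (fun z : integralClosure ℤ ℂ => (z : ℂ)) h14
  have h16 : β' = starRingEnd ℂ β := h15
  rw [h16, h10]

end Pool.Agent.Helper14.TX
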