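import Pool.Agent.Helper14.TX.Rt
import Pool.Agent.Helper2.Tate.LGalois

/-!
# Products of roots: all extensions, prime degrees

PROOF. Suppose `ξ = ∏ (k ∈ S), α k` satisfies `ξ ^ m = q ^ (|S| m)`; `ζ = ξ / q ^ |S|` is a root of
unity, let `n` be its order.

(a) `D = ∏ (k ∈ S), d k` divides `n`: with `r` from `exists_reduction 2`, `r ζ = ∏ r (α k)` and
`r (α k)` has order exactly the prime `d k`; these primes are different, so `r ζ` has order exactly
`D`; as `(r ζ) ^ n = 1`, `D ∣ n`. So `φ(n) ≥ φ(D) = ∏ (d k - 1)`.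

(b) The conjugates of `ξ` over `ℚ` are the `φ(n)` different numbers `q ^ |S| ζ ^ j`, `j` prime to `n`
(`ξ` and `ζ` generate the same field; the minimal polynomial of `ζ` is the cyclotomic polynomial).
Every conjugate is a product of roots `∏ β k`, `β k` a root of `Q k`: work with automorphisms of the
field of algebraic numbers (`AlgebraicClosure ℚ` with an embedding into `ℂ`, or
`algebraicClosure ℚ ℂ`; `Normal.minpoly_eq_iff_mem_orbit`): `σ ξ = ∏ σ (α k)`. There are at most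
`∏ (d k - 1)` tuples `(β k)` of roots. So by (a) the map `(β k) ↦ ∏ β k` is a bijection from the
tuples of roots onto the conjugates of `ξ`; in particular EVERY tuple of roots has product
`q ^ |S|` times an `n`-th root of unity.

(c) Choose `k₀ ∈ S`. Comparing two tuples which differ only at `k₀`, all roots `β, β'` of `Q k₀`
satisfy `β ^ n = β' ^ n` (the roots are not `0` by `hnorm`, `q ≥ 1`). So with `β = α k₀`,
`N = d k₀ - 1`: `(β ^ n) ^ N = (∏ over all roots of Q k₀) ^ n` is an integer (up to sign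
`Q k₀ (0) ^ n`), of absolute value `q ^ (n N)`, so `β ^ (2 n N) = q ^ (2 n N)`, contradicting
`hnc`.
-/

set_option autoImplicit false

open Polynomial

namespace Pool.Agent.Helper14.TX

/-- A homomorphism from the field of algebraic numbers to the complex numbers which raises a given
primitive root of unity to a given power. -/
theorem exists_hom (n : ℕ) (hn : 0 < n) (ζ : algebraicClosure ℚ ℂ) (hζ : IsPrimitiveRoot ζ n)
    (i : ℕ) (hi : n.Coprime i) :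
    ∃ σ : algebraicClosure ℚ ℂ →+* ℂ, σ ζ = (ζ : ℂ) ^ i := by
  have hζi : IsPrimitiveRoot (ζ ^ i) n := hζ.pow_of_coprime _ hi.symm
  have h : IsConjRoot ℚ (ζ ^ i) ζ := by
    rw [isConjRoot_def]
    have h1 := Polynomial.cyclotomic_eq_minpoly_rat hζ hn
    have h2 := Polynomial.cyclotomic_eq_minpoly_rat hζi hn
    convert h2.symm.trans h1
  have e : (DivisionRing.toRatAlgebra : Algebra ℚ (algebraicClosure ℚ ℂ)) =
      IntermediateField.algebra' (algebraicClosure ℚ ℂ) := Subsingleton.elim _ _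
  have hcl : IsAlgClosure ℚ (algebraicClosure ℚ ℂ) := by
    rw [e]
    exact algebraicClosure.isAlgClosure ℚ ℂ
  have hnorm : Normal ℚ (algebraicClosure ℚ ℂ) := IsAlgClosure.normal ℚ (algebraicClosure ℚ ℂ)
  obtain ⟨σ, hσ⟩ := h.exists_algEquiv
  refine ⟨((algebraicClosure ℚ ℂ).val : algebraicClosure ℚ ℂ →+* ℂ).comp
    (σ : algebraicClosure ℚ ℂ →+* algebraicClosure ℚ ℂ), ?_⟩
  change ((σ ζ : algebraicClosure ℚ ℂ) : ℂ) = (ζ : ℂ) ^ i
  rw [hσ]
  rfl

theorem root_hom (Q : ℤ[X]) (σ : algebraicClosure ℚ ℂ →+* ℂ) (x : algebraicClosure ℚ ℂ)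
    (hx : Root Q (x : ℂ)) : Root Q (σ x) := by
  have h1 : Q.eval₂ (Int.castRingHom (algebraicClosure ℚ ℂ)) x = 0 := by
    apply Subtype.ext
    have h3 : ((Q.eval₂ (Int.castRingHom (algebraicClosure ℚ ℂ)) x : algebraicClosure ℚ ℂ) : ℂ) =
        (algebraMap (algebraicClosure ℚ ℂ) ℂ)
          (Q.eval₂ (Int.castRingHom (algebraicClosure ℚ ℂ)) x) := rfl
    rw [h3, hom_eval₂]
    have h4 : (algebraMap (algebraicClosure ℚ ℂ) ℂ).comp
        (Int.castRingHom (algebraicClosure ℚ ℂ)) = algebraMap ℤ ℂ := RingHom.ext_int _ _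
    rw [h4]
    exact hx
  have h5 : algebraMap ℤ ℂ = σ.comp (Int.castRingHom (algebraicClosure ℚ ℂ)) :=
    RingHom.ext_int _ _
  rw [Root, aeval_def, h5, ← hom_eval₂, h1, map_zero]

theorem root_mem (Q : ℤ[X]) (hQ : Q.Monic) (x : ℂ) (hx : Root Q x) :
    x ∈ algebraicClosure ℚ ℂ := by
  rw [mem_algebraicClosure_iff]
  have h1 : IsIntegral ℤ x := ⟨Q, hQ, by rw [← aeval_def]; exact hx⟩
  exact (h1.tower_top (A := ℚ)).isAlgebraic

/-- (a) -/
theorem prime_dvd (q : ℕ) (hq : Odd q) {K : Type} (S : Finset K) (d : K → ℕ)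
    (Q : K → ℤ[X]) (hQ : ∀ k ∈ S, ModTwo (d k) (Q k)) (hd : ∀ k ∈ S, (d k).Prime)
    (hd2 : ∀ k ∈ S, d k ≠ 2) (hne : ∀ j ∈ S, ∀ k ∈ S, j ≠ k → d j ≠ d k)
    (α : K → ℂ) (hα : ∀ k ∈ S, Root (Q k) (α k)) (n : ℕ)
    (h : (∏ k ∈ S, α k) ^ n = (q : ℂ) ^ (S.card * n)) (k₀ : K) (hk₀ : k₀ ∈ S) : d k₀ ∣ n := by
  classical
  have : Fact (Nat.Prime 2) := ⟨Nat.prime_two⟩
  obtain ⟨κ, _, r, hr⟩ := Pool.Agent.Helper2.Tate.exists_reduction 2
  have h2 : r 2 = 0 := by simpa using hr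
  -- the roots as algebraic integers
  have hex : ∀ k : K, ∃ a : integralClosure ℤ ℂ, k ∈ S → (a : ℂ) = α k := by
    intro k
    by_cases hk : k ∈ S
    · exact ⟨⟨α k, isIntegral_root _ (hQ k hk).1 _ (hα k hk)⟩, fun _ => rfl⟩
    · exact ⟨0, fun h => absurd h hk⟩
  choose a ha using hex
  have h3 : (∏ k ∈ S, a k) ^ n = (q : integralClosure ℤ ℂ) ^ (S.card * n) := by
    apply Subtype.ext
    push_cast
    rw [Finset.prod_congr rfl ha]
    exact h
  have h4 : (∏ k ∈ S, r (a k)) ^ n = 1 := by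
    rw [← map_prod, ← map_pow, h3, map_pow, map_natCast, odd_cast (red_two' r h2) q hq, one_pow]
  have hodd : ∀ k ∈ S, Odd (d k) := fun k hk => (hd k hk).odd_of_ne_two (hd2 k hk)
  have h5 : ∀ k ∈ S, r (a k) ^ d k = 1 ∧ r (a k) ≠ 1 := fun k hk =>
    red_root r h2 (d k) (hodd k hk) (Q k) (hQ k hk) (a k) (by rw [ha k hk]; exact hα k hk)
  set E := ∏ k ∈ S.erase k₀, d k with hE
  have h6 : r (a k₀) ^ (n * E) = 1 := by
    have h7 : (∏ k ∈ S.erase k₀, r (a k)) ^ E = 1 := by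
      rw [← Finset.prod_pow]
      apply Finset.prod_eq_one
      intro k hk
      obtain ⟨c, hc⟩ := Finset.dvd_prod_of_mem d hk
      rw [hE, hc, pow_mul, (h5 k (Finset.mem_of_mem_erase hk)).1, one_pow]
    have h8 := Finset.mul_prod_erase S (fun k => r (a k)) hk₀
    rw [← h8] at h4
    have h9 : (r (a k₀) * ∏ k ∈ S.erase k₀, r (a k)) ^ (n * E) = 1 := by
      rw [pow_mul, h4, one_pow]
    rw [mul_pow, mul_comm n E, pow_mul (∏ k ∈ S.erase k₀, r (a k)), h7, one_pow, mul_one] at h9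
    rw [mul_comm n E]
    exact h9
  have h10 : orderOf (r (a k₀)) = d k₀ := by
    have := Fact.mk (hd k₀ hk₀)
    exact orderOf_eq_prime (h5 k₀ hk₀).1 (h5 k₀ hk₀).2
  have h11 : d k₀ ∣ n * E := by
    rw [← h10]
    exact orderOf_dvd_of_pow_eq_one h6
  rcases (hd k₀ hk₀).dvd_mul.1 h11 with h12 | h12
  · exact h12
  · rw [hE, Prime.dvd_finsetProd_iff (hd k₀ hk₀).prime] at h12
    obtain ⟨k, hk, hkd⟩ := h12
    rw [Nat.prime_dvd_prime_iff_eq (hd k₀ hk₀) (hd k (Finset.mem_of_mem_erase hk))] at hkd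
    exact absurd hkd (hne k₀ hk₀ k (Finset.mem_of_mem_erase hk) (Finset.ne_of_mem_erase hk).symm)

/-- The totient of a product of different primes. -/
theorem totient_prod {K : Type} (S : Finset K) (d : K → ℕ) (hd : ∀ k ∈ S, (d k).Prime)
    (hne : ∀ j ∈ S, ∀ k ∈ S, j ≠ k → d j ≠ d k) (n : ℕ) (hn : ∀ k ∈ S, d k ∣ n) :
    (∏ k ∈ S, d k) ∣ n ∧ Nat.totient (∏ k ∈ S, d k) = ∏ k ∈ S, (d k - 1) := by
  classical
  induction S using Finset.induction_on with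
  | empty => simp
  | insert k S hk ih =>
    obtain ⟨h1, h2⟩ := ih (fun j hj => hd j (Finset.mem_insert_of_mem hj))
      (fun i hi j hj => hne i (Finset.mem_insert_of_mem hi) j (Finset.mem_insert_of_mem hj))
      (fun j hj => hn j (Finset.mem_insert_of_mem hj))
    have hc : Nat.Coprime (d k) (∏ k ∈ S, d k) := by
      apply Nat.Coprime.prod_right
      intro j hj
      rw [Nat.coprime_primes (hd k (Finset.mem_insert_self _ _))
        (hd j (Finset.mem_insert_of_mem hj))]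
      exact hne k (Finset.mem_insert_self _ _) j (Finset.mem_insert_of_mem hj)
        (fun h => hk (h ▸ hj))
    rw [Finset.prod_insert hk, Finset.prod_insert hk]
    refine ⟨hc.mul_dvd_of_dvd_of_dvd (hn k (Finset.mem_insert_self _ _)) h1, ?_⟩
    rw [Nat.totient_mul hc, h2, Nat.totient_prime (hd k (Finset.mem_insert_self _ _))]

/-- (b) -/
theorem all_tuples (q : ℕ) (hq : Odd q) {K : Type} (S : Finset K) (d : K → ℕ)
    (Q : K → ℤ[X]) (hQ : ∀ k ∈ S, ModTwo (d k) (Q k)) (hd : ∀ k ∈ S, (d k).Prime)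
    (hd2 : ∀ k ∈ S, d k ≠ 2) (hne : ∀ j ∈ S, ∀ k ∈ S, j ≠ k → d j ≠ d k)
    (α : K → ℂ) (hα : ∀ k ∈ S, Root (Q k) (α k)) (m : ℕ) (hm : 1 ≤ m)
    (h : (∏ k ∈ S, α k) ^ m = (q : ℂ) ^ (S.card * m)) :
    ∃ n : ℕ, 1 ≤ n ∧ ∀ β : (k : S) → Rt (Q k),
      (∏ k : S, ((β k).1 : ℂ)) ^ n = (q : ℂ) ^ (S.card * n) := by
  classical
  have hq0 : (q : ℂ) ≠ 0 := by
    have : q ≠ 0 := by rintro rfl; simp at hq
    exact_mod_cast this
  have hmem : ∀ k : S, α k ∈ algebraicClosure ℚ ℂ := fun k =>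
    root_mem _ (hQ k k.2).1 _ (hα k k.2)
  let a : S → algebraicClosure ℚ ℂ := fun k => ⟨α k, hmem k⟩
  let ξ : algebraicClosure ℚ ℂ := ∏ k : S, a k
  have hξ : (ξ : ℂ) = ∏ k ∈ S, α k := by
    change (algebraicClosure ℚ ℂ).val (∏ k : S, a k) = _
    rw [map_prod, ← Finset.prod_coe_sort S α]
    rfl
  have hqA : ((q : algebraicClosure ℚ ℂ) : ℂ) = q := rfl
  let ζ : algebraicClosure ℚ ℂ := ξ / (q : algebraicClosure ℚ ℂ) ^ S.card
  have hζ : (ζ : ℂ) = (∏ k ∈ S, α k) / (q : ℂ) ^ S.card := by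
    change (algebraicClosure ℚ ℂ).val (ξ / (q : algebraicClosure ℚ ℂ) ^ S.card) = _
    rw [map_div₀, map_pow, map_natCast]
    congr 1
  have hqA0 : (q : algebraicClosure ℚ ℂ) ≠ 0 := by
    intro h0
    apply hq0
    rw [← hqA, h0]
    rfl
  have hξζ : ξ = (q : algebraicClosure ℚ ℂ) ^ S.card * ζ := by
    rw [mul_div_cancel₀ _ (pow_ne_zero _ hqA0)]
  have hζm : ζ ^ m = 1 := by
    apply Subtype.ext
    change ((ζ : ℂ)) ^ m = 1
    rw [hζ, div_pow, h, ← pow_mul]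
    exact div_self (pow_ne_zero _ hq0)
  set n := orderOf ζ with hn
  have hn1 : 0 < n := orderOf_pos_iff.2 (isOfFinOrder_iff_pow_eq_one.2 ⟨m, hm, hζm⟩)
  have hprim : IsPrimitiveRoot ζ n := IsPrimitiveRoot.orderOf ζ
  have hζn : (ζ : ℂ) ^ n = 1 := by
    have := hprim.pow_eq_one
    exact congrArg (algebraicClosure ℚ ℂ).val this
  have hprodn : (∏ k ∈ S, α k) ^ n = (q : ℂ) ^ (S.card * n) := by
    rw [← hξ, hξζ]
    change ((q : ℂ) ^ S.card * (ζ : ℂ)) ^ n = _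
    rw [mul_pow, hζn, mul_one, ← pow_mul]
  have hdvd := prime_dvd q hq S d Q hQ hd hd2 hne α hα n hprodn
  obtain ⟨h1, h2⟩ := totient_prod S d hd hne n hdvd
  -- the tuples
  have hσ : ∀ i : {i // i ∈ (Finset.range n).filter n.Coprime},
      ∃ σ : algebraicClosure ℚ ℂ →+* ℂ, σ ζ = (ζ : ℂ) ^ (i : ℕ) := fun i =>
    exists_hom n hn1 ζ hprim i (Finset.mem_filter.1 i.2).2
  choose σ hσ using hσ
  have hroot : ∀ (i : {i // i ∈ (Finset.range n).filter n.Coprime}) (k : S),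
      Root (Q k) (σ i (a k)) := fun i k => root_hom (Q k) (σ i) (a k) (hα k k.2)
  let f : {i // i ∈ (Finset.range n).filter n.Coprime} → ((k : S) → Rt (Q k)) := fun i k =>
    ⟨⟨σ i (a k), isIntegral_root (Q k) (hQ k k.2).1 _ (hroot i k)⟩, hroot i k⟩
  have hf : ∀ i, ∏ k : S, (((f i k).1 : integralClosure ℤ ℂ) : ℂ) =
      (q : ℂ) ^ S.card * (ζ : ℂ) ^ (i : ℕ) := by
    intro i
    change ∏ k : S, σ i (a k) = _
    rw [← map_prod]
    change σ i ξ = _
    rw [hξζ, map_mul, map_pow, map_natCast, hσ]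
  have hinj : Function.Injective f := by
    intro i j hij
    have h3 := hf i
    rw [hij, hf j] at h3
    have h4 := mul_left_cancel₀ (pow_ne_zero _ hq0) h3
    have h5 : ζ ^ (j : ℕ) = ζ ^ (i : ℕ) := Subtype.ext h4
    apply Subtype.ext
    exact (hprim.pow_inj (Finset.mem_range.1 (Finset.mem_filter.1 j.2).1)
      (Finset.mem_range.1 (Finset.mem_filter.1 i.2).1) h5).symm
  have hodd : ∀ k ∈ S, Odd (d k) := fun k hk => (hd k hk).odd_of_ne_two (hd2 k hk)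
  have hfin : ∀ k : S, Finite (Rt (Q k)) := fun k =>
    (card_Rt (d k) (hodd k k.2) (Q k) (hQ k k.2)).1
  have hft : ∀ k : S, Fintype (Rt (Q k)) := fun k => Fintype.ofFinite _
  have hcard : Fintype.card ((k : S) → Rt (Q k)) = ∏ k ∈ S, (d k - 1) := by
    rw [Fintype.card_pi, ← Finset.prod_coe_sort S (fun k => d k - 1)]
    apply Finset.prod_congr rfl
    intro k _
    have h6 := (card_Rt (d k) (hodd k k.2) (Q k) (hQ k k.2)).2
    rw [Nat.card_eq_fintype_card] at h6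
    omega
  have hcard2 : Fintype.card {i // i ∈ (Finset.range n).filter n.Coprime} = Nat.totient n := by
    rw [Fintype.card_coe]
    rfl
  have hle : Nat.totient (∏ k ∈ S, d k) ≤ Nat.totient n :=
    Nat.le_of_dvd (Nat.totient_pos.2 hn1) (Nat.totient_dvd_of_dvd h1)
  have hbij : Function.Bijective f := by
    rw [Fintype.bijective_iff_injective_and_card]
    refine ⟨hinj, le_antisymm (Fintype.card_le_of_injective f hinj) ?_⟩
    rw [hcard, hcard2, ← h2]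
    exact hle
  refine ⟨n, hn1, fun β => ?_⟩
  obtain ⟨i, rfl⟩ := hbij.2 β
  rw [hf i, mul_pow, ← pow_mul, ← pow_mul, mul_comm (i : ℕ) n, pow_mul (ζ : ℂ), hζn, one_pow,
    mul_one]

theorem prod_prime (q : ℕ) (hq : Odd q) {K : Type} (S : Finset K) (hS : S.Nonempty) (d : K → ℕ)
    (Q : K → ℤ[X]) (hQ : ∀ k ∈ S, ModTwo (d k) (Q k)) (hd : ∀ k ∈ S, (d k).Prime)
    (hd2 : ∀ k ∈ S, d k ≠ 2) (hne : ∀ j ∈ S, ∀ k ∈ S, j ≠ k → d j ≠ d k)
    (hnorm : ∀ k ∈ S, ∀ β : ℂ, Root (Q k) β → ‖β‖ = q)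
    (hnc : ∀ k ∈ S, ∀ β : ℂ, Root (Q k) β → ∀ m : ℕ, 1 ≤ m → β ^ m ≠ (q : ℂ) ^ m) (α : K → ℂ)
    (hα : ∀ k ∈ S, Root (Q k) (α k)) (m : ℕ) (hm : 1 ≤ m) :
    (∏ k ∈ S, α k) ^ m ≠ (q : ℂ) ^ (S.card * m) := by
  classical
  intro h
  obtain ⟨n, hn, hall⟩ := all_tuples q hq S d Q hQ hd hd2 hne α hα m hm h
  have hq0 : q ≠ 0 := by rintro rfl; simp at hq
  have hqc : (q : ℂ) ≠ 0 := by exact_mod_cast hq0
  have hodd : ∀ k ∈ S, Odd (d k) := fun k hk => (hd k hk).odd_of_ne_two (hd2 k hk)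
  obtain ⟨k₀, hk₀⟩ := hS
  let k₁ : S := ⟨k₀, hk₀⟩
  let a : (k : S) → Rt (Q k) := fun k =>
    ⟨⟨α k, isIntegral_root (Q k) (hQ k k.2).1 _ (hα k k.2)⟩, hα k k.2⟩
  set E : ℂ := ∏ k ∈ Finset.univ.erase k₁, ((a k).1 : ℂ) with hE
  have hE0 : E ≠ 0 := by
    rw [hE, Finset.prod_ne_zero_iff]
    intro k _ h0
    have h1 := hnorm k k.2 _ (a k).2
    rw [h0, norm_zero] at h1
    exact hq0 (by exact_mod_cast h1.symm)
  set c : ℂ := (q : ℂ) ^ (S.card * n) / E ^ n with hc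
  have hβ : ∀ x : Rt (Q k₀), (x.1 : ℂ) ^ n = c := by
    intro x
    have h1 := hall (Function.update a k₁ x)
    rw [← Finset.mul_prod_erase Finset.univ _ (Finset.mem_univ k₁), Function.update_self] at h1
    have h2 : ∏ k ∈ Finset.univ.erase k₁, ((Function.update a k₁ x k).1 : ℂ) = E := by
      rw [hE]
      apply Finset.prod_congr rfl
      intro k hk
      rw [Function.update_of_ne (Finset.ne_of_mem_erase hk)]
    rw [h2, mul_pow] at h1
    rw [hc, eq_div_iff (pow_ne_zero _ hE0)]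
    exact h1
  obtain ⟨hfin, hcard⟩ := card_Rt (d k₀) (hodd k₀ hk₀) (Q k₀) (hQ k₀ hk₀)
  have hft : Fintype (Rt (Q k₀)) := Fintype.ofFinite _
  rw [Nat.card_eq_fintype_card] at hcard
  set N := Fintype.card (Rt (Q k₀)) with hN
  have hprod : (∏ x : Rt (Q k₀), (x.1 : ℂ)) ^ 2 = (((Q k₀).eval 0 : ℤ) : ℂ) ^ 2 := by
    have h1 := map_eq_prod (d k₀) (hodd k₀ hk₀) (Q k₀) (hQ k₀ hk₀)
    have h2 := congrArg (fun P => algebraMap (integralClosure ℤ ℂ) ℂ (P.eval 0)) h1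
    simp only [eval_prod, eval_sub, eval_X, eval_C, zero_sub, map_prod, map_neg] at h2
    rw [Finset.prod_neg] at h2
    have h3 : algebraMap (integralClosure ℤ ℂ) ℂ
        (((Q k₀).map (Int.castRingHom (integralClosure ℤ ℂ))).eval 0) =
        (((Q k₀).eval 0 : ℤ) : ℂ) := by
      rw [eval_zero_map]
      simp
    rw [h3] at h2
    rw [h2, mul_pow, ← pow_mul, mul_comm _ 2, pow_mul (-1 : ℂ) 2]
    simp only [even_two, Even.neg_pow, one_pow, one_mul]
    rfl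
  let x₀ : Rt (Q k₀) := a k₁
  have hx₀ : ‖(x₀.1 : ℂ)‖ = q := hnorm k₀ hk₀ _ x₀.2
  have hcn : ‖c‖ = (q : ℝ) ^ n := by
    rw [← hβ x₀, norm_pow, hx₀]
  have h1 : (∏ x : Rt (Q k₀), (x.1 : ℂ)) ^ n = c ^ N := by
    rw [← Finset.prod_pow, Finset.prod_congr rfl (fun x _ => hβ x), Finset.prod_const,
      Finset.card_univ]
  have h2 : c ^ (2 * N) = ((((Q k₀).eval 0 : ℤ) : ℂ) ^ 2) ^ n := by
    rw [mul_comm 2 N, pow_mul, ← h1, ← hprod, ← pow_mul, ← pow_mul, mul_comm n 2]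
  have h3 : ((((Q k₀).eval 0 : ℤ) : ℝ) ^ 2) ^ n = ((q : ℝ) ^ n) ^ (2 * N) := by
    have h4 := congrArg norm h2
    rw [norm_pow, hcn, norm_pow, norm_pow, Complex.norm_intCast, sq_abs] at h4
    exact h4.symm
  have h5 : c ^ (2 * N) = (q : ℂ) ^ (n * (2 * N)) := by
    rw [h2, pow_mul (q : ℂ)]
    exact_mod_cast congrArg (fun x : ℝ => (x : ℂ)) h3
  have hN1 : 1 ≤ N := by
    have := (hd k₀ hk₀).two_le
    omega
  apply hnc k₀ hk₀ _ x₀.2 (n * (2 * N)) (Nat.one_le_iff_ne_zero.2 (by positivity))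
  rw [pow_mul, hβ x₀, h5]

end Pool.Agent.Helper14.TX
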