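import Pool.Agent.Helper14.TX.Distinct

/-!
# Products of powers at most two: extensions of degree prime to the degrees
-/

set_option autoImplicit false

open Polynomial

namespace Pool.Agent.Helper14.TX

/-- If a product of elements `w k` with `(w k) ^ (d k) = 1`, `d k` pairwise coprime, has trivial
`m`-th power then `w k` is trivial for all `k` with `d k` prime to `m`. -/
theorem eq_one_of_prod {κ : Type} [Field κ] {K : Type} [DecidableEq K] (S : Finset K) (d : K → ℕ)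
    (hcop : ∀ j ∈ S, ∀ k ∈ S, j ≠ k → Nat.Coprime (d j) (d k)) (m : ℕ)
    (w : K → κ) (hw : ∀ k ∈ S, w k ^ d k = 1)
    (hz : (∏ k ∈ S, w k) ^ m = 1) (k₀ : K) (hk₀ : k₀ ∈ S) (hm : Nat.Coprime m (d k₀)) :
    w k₀ = 1 := by
  set D : ℕ := ∏ k ∈ S.erase k₀, d k with hD
  have hz2 : w k₀ ^ (m * D) = 1 := by
    have e1 : (∏ k ∈ S, w k) ^ (m * D) = 1 := by
      rw [pow_mul, hz, one_pow]
    rw [← Finset.mul_prod_erase S w hk₀, mul_pow, ← Finset.prod_pow] at e1
    have e2 : ∏ k ∈ S.erase k₀, w k ^ (m * D) = 1 := by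
      apply Finset.prod_eq_one
      intro k hk
      have hkS := Finset.mem_of_mem_erase hk
      obtain ⟨c, hc⟩ := Finset.dvd_prod_of_mem d hk
      rw [hD, hc, ← mul_assoc, mul_comm m, mul_assoc, pow_mul, hw k hkS, one_pow]
    rwa [e2, mul_one] at e1
  have hcop' : Nat.gcd (m * D) (d k₀) = 1 := by
    apply Nat.Coprime.mul_left hm
    apply Nat.Coprime.prod_left
    intro k hk
    exact hcop k (Finset.mem_of_mem_erase hk) k₀ hk₀ (Finset.ne_of_mem_erase hk)
  have hfin := pow_gcd_eq_one.mpr ⟨hz2, hw k₀ hk₀⟩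
  rwa [hcop', pow_one] at hfin

theorem prod_sq (q : ℕ) (hq : Odd q) {K : Type} [DecidableEq K] (S₁ S₂ : Finset K)
    (hdisj : Disjoint S₁ S₂) (d : K → ℕ) (Q : K → ℤ[X])
    (hQ : ∀ k ∈ S₁ ∪ S₂, ModTwo (d k) (Q k)) (hd : ∀ k ∈ S₁ ∪ S₂, Odd (d k))
    (hcop : ∀ j ∈ S₁ ∪ S₂, ∀ k ∈ S₁ ∪ S₂, j ≠ k → Nat.Coprime (d j) (d k))
    (hnorm : ∀ k ∈ S₁ ∪ S₂, ∀ β : ℂ, Root (Q k) β → ‖β‖ = q) (α α' : K → ℂ)
    (hα : ∀ k ∈ S₁ ∪ S₂, Root (Q k) (α k)) (hα' : ∀ k ∈ S₂, Root (Q k) (α' k)) (m : ℕ)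
    (k₀ : K) (hm : ∀ k ∈ S₁ ∪ S₂, k ≠ k₀ → Nat.Coprime m (d k))
    (h₀ : k₀ ∈ S₁ ∪ S₂ → TateSq q (Q k₀) m)
    (h : ((∏ k ∈ S₁, α k) * ∏ k ∈ S₂, (α k * α' k)) ^ m =
      (q : ℂ) ^ ((S₁.card + 2 * S₂.card) * m)) :
    S₁ = ∅ ∧ ∀ k ∈ S₂, α k * α' k = (q : ℂ) ^ 2 := by
  classical
  have : Fact (Nat.Prime 2) := ⟨Nat.prime_two⟩
  obtain ⟨κ, hκ, r, hr⟩ := Pool.Agent.Helper2.Tate.exists_reduction 2
  have h2 : r 2 = 0 := by exact_mod_cast hr
  set S := S₁ ∪ S₂ with hS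
  set β : K → integralClosure ℤ ℂ := fun k =>
    if hk : k ∈ S then ⟨α k, isIntegral_root (Q k) (hQ k hk).1 (α k) (hα k hk)⟩ else 1 with hβ
  have hβα : ∀ k ∈ S, ((β k : integralClosure ℤ ℂ) : ℂ) = α k := by
    intro k hk
    rw [hβ]
    simp only [hk, dif_pos]
  set β' : K → integralClosure ℤ ℂ := fun k =>
    if hk : k ∈ S₂ then ⟨α' k, isIntegral_root (Q k)
      (hQ k (Finset.mem_union_right _ hk)).1 (α' k) (hα' k hk)⟩ else 1 with hβ'
  have hβα' : ∀ k ∈ S₂, ((β' k : integralClosure ℤ ℂ) : ℂ) = α' k := by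
    intro k hk
    rw [hβ']
    simp only [hk, dif_pos]
  have hβ1 : ∀ k ∈ S₁, ((β' k : integralClosure ℤ ℂ) : ℂ) = 1 := by
    intro k hk
    have : k ∉ S₂ := Finset.disjoint_left.1 hdisj hk
    rw [hβ']
    simp only [this, dif_neg, not_false_iff]
    rfl
  have hmS₁ : ∀ k ∈ S₁, k ∈ S := fun k hk => Finset.mem_union_left _ hk
  have hmS₂ : ∀ k ∈ S₂, k ∈ S := fun k hk => Finset.mem_union_right _ hk
  have hprod : (∏ k ∈ S, (β k * β' k)) ^ m =
      ((q : ℕ) : integralClosure ℤ ℂ) ^ ((S₁.card + 2 * S₂.card) * m) := by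
    apply Subtype.ext
    push_cast
    rw [hS, Finset.prod_union hdisj]
    rw [← h]
    congr 2
    · apply Finset.prod_congr rfl
      intro k hk
      rw [hβα k (hmS₁ k hk), hβ1 k hk, mul_one]
    · apply Finset.prod_congr rfl
      intro k hk
      rw [hβα k (hmS₂ k hk), hβα' k hk]
  have hq1 : r ((q : ℕ) : integralClosure ℤ ℂ) = 1 := by
    obtain ⟨t, rfl⟩ := hq
    push_cast
    rw [map_add, map_mul, h2, zero_mul, map_one, zero_add]
  have hz : (∏ k ∈ S, r (β k * β' k)) ^ m = 1 := by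
    have := congrArg r hprod
    rw [map_pow, map_prod, map_pow, hq1, one_pow] at this
    exact this
  have hroot : ∀ k ∈ S, r (β k) ^ d k = 1 ∧ r (β k) ≠ 1 := by
    intro k hk
    apply red_root r h2 (d k) (hd k hk) (Q k) (hQ k hk) (β k)
    rw [hβα k hk]
    exact hα k hk
  have hroot' : ∀ k ∈ S₂, r (β' k) ^ d k = 1 ∧ r (β' k) ≠ 1 := by
    intro k hk
    apply red_root r h2 (d k) (hd k (hmS₂ k hk)) (Q k) (hQ k (hmS₂ k hk)) (β' k)
    rw [hβα' k hk]
    exact hα' k hk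
  have hone : ∀ k ∈ S₁, β' k = 1 := by
    intro k hk
    apply Subtype.ext
    rw [hβ1 k hk]; rfl
  have hw : ∀ k ∈ S, r (β k * β' k) ^ d k = 1 := by
    intro k hk
    rw [map_mul, mul_pow, (hroot k hk).1, one_mul]
    rcases Finset.mem_union.1 hk with hk1 | hk2
    · rw [hone k hk1, map_one, one_pow]
    · exact (hroot' k hk2).1
  have key : ∀ k ∈ S, k ≠ k₀ → r (β k * β' k) = 1 := fun k hk hne =>
    eq_one_of_prod S d hcop m (fun k => r (β k * β' k)) hw hz k hk (hm k hk hne)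
  have hq0 : (q : ℂ) ≠ 0 := by
    obtain ⟨t, rfl⟩ := hq
    have : (2 * t + 1 : ℕ) ≠ 0 := by omega
    exact_mod_cast this
  have part1 : ∀ k ∈ S₁, k = k₀ := by
    intro k hk
    by_contra hne
    have h1 : r (β k * β' k) = 1 := key k (hmS₁ k hk) hne
    rw [hone k hk, mul_one] at h1
    exact (hroot k (hmS₁ k hk)).2 h1
  have hconj : ∀ k ∈ S, α k * starRingEnd ℂ (α k) = (q : ℂ) ^ 2 := by
    intro k hk
    rw [Complex.mul_conj', hnorm k hk _ (hα k hk)]
    simp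
  have part2 : ∀ k ∈ S₂, k ≠ k₀ → α k * α' k = (q : ℂ) ^ 2 := by
    intro k hk hne
    have hkS := hmS₂ k hk
    have h1 : r (β k * β' k) = 1 := key k hkS hne
    rw [map_mul] at h1
    -- the complex conjugate of `α k`
    have hc : Root (Q k) (starRingEnd ℂ (α k)) := root_conj (Q k) (α k) (hα k hkS)
    set γ : integralClosure ℤ ℂ := ⟨starRingEnd ℂ (α k),
      isIntegral_root (Q k) (hQ k hkS).1 _ hc⟩ with hγ
    have h3 := hconj k hkS
    have h4 : β k * γ = ((q : ℕ) : integralClosure ℤ ℂ) ^ 2 := by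
      apply Subtype.ext
      push_cast
      rw [hβα k hkS]
      exact h3
    have h5 : r (β k) * r γ = 1 := by
      rw [← map_mul, h4, map_pow, hq1, one_pow]
    have h6 : r (β k) ≠ 0 := by
      intro h0
      rw [h0, zero_mul] at h5
      exact zero_ne_one h5
    have h7 : r (β' k) = r γ := by
      apply mul_left_cancel₀ h6
      rw [h1, h5]
    have h8 : β' k = γ := red_inj r h2 (d k) (hd k hkS) (Q k) (hQ k hkS) (β' k) γ
      (by rw [hβα' k hk]; exact hα' k hk) hc h7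
    have h9 : α' k = starRingEnd ℂ (α k) := by
      rw [← hβα' k hk, h8]
    rw [h9, h3]
  by_cases hk1 : k₀ ∈ S₁
  · exfalso
    have hS1 : S₁ = {k₀} := by
      ext k
      rw [Finset.mem_singleton]
      exact ⟨part1 k, fun hk => hk ▸ hk1⟩
    have hk2 : ∀ k ∈ S₂, k ≠ k₀ := by
      rintro k hk rfl
      exact Finset.disjoint_left.1 hdisj hk1 hk
    have h1 : ∏ k ∈ S₂, (α k * α' k) = (q : ℂ) ^ (2 * S₂.card) := by
      rw [Finset.prod_congr rfl (fun k hk => part2 k hk (hk2 k hk)), Finset.prod_const, pow_mul]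
    rw [h1, hS1, Finset.prod_singleton, Finset.card_singleton, mul_pow, add_mul, pow_add,
      ← pow_mul, one_mul] at h
    have h2 := mul_right_cancel₀ (pow_ne_zero _ hq0) h
    exact (h₀ (hmS₁ k₀ hk1)).1 (α k₀) (hα k₀ (hmS₁ k₀ hk1)) h2
  · have hS1 : S₁ = ∅ := by
      rw [Finset.eq_empty_iff_forall_notMem]
      intro k hk
      exact hk1 (part1 k hk ▸ hk)
    refine ⟨hS1, ?_⟩
    intro k hk
    by_cases hne : k = k₀
    · subst hne
      have hkS := hmS₂ k hk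
      obtain ⟨-, hnd⟩ := h₀ hkS
      rw [hS1, Finset.prod_empty, one_mul, Finset.card_empty, zero_add,
        ← Finset.mul_prod_erase S₂ _ hk] at h
      have h1 : ∏ j ∈ S₂.erase k, (α j * α' j) = (q : ℂ) ^ (2 * (S₂.erase k).card) := by
        rw [Finset.prod_congr rfl (fun j hj => part2 j (Finset.mem_of_mem_erase hj)
          (Finset.ne_of_mem_erase hj)), Finset.prod_const, pow_mul]
      have hcard : S₂.card = (S₂.erase k).card + 1 := by
        rw [Finset.card_erase_of_mem hk]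
        have := Finset.card_pos.2 ⟨k, hk⟩
        omega
      rw [h1, mul_pow, hcard, mul_add, add_mul, pow_add, mul_one, ← pow_mul,
        mul_comm ((q : ℂ) ^ (2 * (S₂.erase k).card * m))] at h
      have h3 := mul_right_cancel₀ (pow_ne_zero _ hq0) h
      have hα0 : α k ≠ 0 := by
        intro h0
        have := hconj k hkS
        rw [h0, zero_mul] at this
        exact pow_ne_zero 2 hq0 this.symm
      have h4 : α' k ^ m = (starRingEnd ℂ (α k)) ^ m := by
        apply mul_left_cancel₀ (pow_ne_zero m hα0)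
        rw [← mul_pow, ← mul_pow, h3, hconj k hkS, ← pow_mul]
      have hmem : ∀ β : ℂ, Root (Q k) β → β ∈ ((Q k).map (Int.castRingHom ℂ)).roots := by
        intro β hβ
        rw [mem_roots (Polynomial.map_ne_zero_iff (RingHom.injective_int (Int.castRingHom ℂ)) |>.2
          (hQ k hkS).1.ne_zero), IsRoot, eval_map]
        exact hβ
      have h5 := Multiset.inj_on_of_nodup_map hnd (α' k) (hmem _ (hα' k hk))
        (starRingEnd ℂ (α k)) (hmem _ (root_conj (Q k) (α k) (hα k hkS))) h4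
      rw [h5, hconj k hkS]
    · exact part2 k hk hne

/-- The `m`-th powers of the roots are different, `m` prime to the degree. -/
theorem nodup_pow_coprime (d : ℕ) (hd : Odd d) (Q : ℤ[X]) (hQ : ModTwo d Q) (m : ℕ)
    (hm : Nat.Coprime m d) :
    ((Q.map (Int.castRingHom ℂ)).roots.map (fun α => α ^ m)).Nodup := by
  have : Fact (Nat.Prime 2) := ⟨Nat.prime_two⟩
  obtain ⟨κ, hκ, r, hr⟩ := Pool.Agent.Helper2.Tate.exists_reduction 2
  have h2 : r 2 = 0 := by exact_mod_cast hr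
  have hroot : ∀ α ∈ (Q.map (Int.castRingHom ℂ)).roots, Root Q α := by
    intro α hα
    rw [mem_roots (Polynomial.map_ne_zero_iff (RingHom.injective_int (Int.castRingHom ℂ)) |>.2
      hQ.1.ne_zero), IsRoot, eval_map] at hα
    exact hα
  apply Multiset.Nodup.map_on
  · intro α hα β hβ hαβ
    set α₁ : integralClosure ℤ ℂ := ⟨α, isIntegral_root Q hQ.1 α (hroot α hα)⟩ with hα₁
    set β₁ : integralClosure ℤ ℂ := ⟨β, isIntegral_root Q hQ.1 β (hroot β hβ)⟩ with hβ₁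
    have h1 : α₁ ^ m = β₁ ^ m := Subtype.ext hαβ
    have h3 := congrArg r h1
    rw [map_pow, map_pow] at h3
    have h4 := (red_root r h2 d hd Q hQ α₁ (hroot α hα)).1
    have h5 := (red_root r h2 d hd Q hQ β₁ (hroot β hβ)).1
    have hd0 : d ≠ 0 := by rintro rfl; exact absurd hd (by decide)
    have h6 : r β₁ ≠ 0 := by
      intro h0
      rw [h0, zero_pow hd0] at h5
      exact zero_ne_one h5
    have h7 : (r α₁ / r β₁) ^ m = 1 := by
      rw [div_pow, h3, div_self (pow_ne_zero _ h6)]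
    have h8 : (r α₁ / r β₁) ^ d = 1 := by
      rw [div_pow, h4, h5, div_one]
    have h9 := pow_gcd_eq_one.mpr ⟨h7, h8⟩
    rw [hm, pow_one, div_eq_one_iff_eq h6] at h9
    have h10 := red_inj r h2 d hd Q hQ α₁ β₁ (hroot α hα) (hroot β hβ) h9
    have h11 := congrArg (fun z : integralClosure ℤ ℂ => (z : ℂ)) h10
    exact h11
  · exact nodup d hd Q hQ

/-- Extensions of degree prime to the degree. -/
theorem tateSq_coprime (q : ℕ) (hq : Odd q) (d : ℕ) (hd : Odd d) (Q : ℤ[X]) (hQ : ModTwo d Q)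
    (m : ℕ) (hm : Nat.Coprime m d) : TateSq q Q m := by
  classical
  refine ⟨?_, nodup_pow_coprime d hd Q hQ m hm⟩
  intro β hβ h
  have : Fact (Nat.Prime 2) := ⟨Nat.prime_two⟩
  obtain ⟨κ, hκ, r, hr⟩ := Pool.Agent.Helper2.Tate.exists_reduction 2
  have h2 : r 2 = 0 := by exact_mod_cast hr
  set β₁ : integralClosure ℤ ℂ := ⟨β, isIntegral_root Q hQ.1 β hβ⟩ with hβ₁
  have h1 : β₁ ^ m = ((q : ℕ) : integralClosure ℤ ℂ) ^ m := by
    apply Subtype.ext
    push_cast
    exact h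
  have hq1 : r ((q : ℕ) : integralClosure ℤ ℂ) = 1 := by
    obtain ⟨t, rfl⟩ := hq
    push_cast
    rw [map_add, map_mul, h2, zero_mul, map_one, zero_add]
  have h3 := congrArg r h1
  rw [map_pow, map_pow, hq1, one_pow] at h3
  obtain ⟨h4, h5⟩ := red_root r h2 d hd Q hQ β₁ hβ
  have h6 := pow_gcd_eq_one.mpr ⟨h3, h4⟩
  rw [hm, pow_one] at h6
  exact h5 h6

end Pool.Agent.Helper14.TX
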