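import Pool.Agent.Helper14.TX.Defs

/-!
# The supersingular polynomials

PROOF. The polynomial `(cyclotomic k ℤ).scaleRoots q` is monic with coefficients
`(cyclotomic k ℤ).coeff i * q ^ (n - i)`, `n` its degree; modulo `p` it is `X ^ n`.
-/

set_option autoImplicit false

open Polynomial

namespace Pool.Agent.Helper14.TX

theorem unitRoots_scale (p q k : ℕ) [Fact p.Prime] (hpq : p ∣ q) :
    unitRoots p ((cyclotomic k ℤ).scaleRoots (q : ℤ)) = 0 := by
  have hmon : (cyclotomic k ℤ).Monic := cyclotomic.monic k ℤ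
  have hq : ((q : ℤ) : ZMod p) = 0 := by
    have h := (ZMod.natCast_eq_zero_iff q p).2 hpq
    exact_mod_cast h
  have hmap : ((cyclotomic k ℤ).scaleRoots (q : ℤ)).map (Int.castRingHom (ZMod p)) =
      X ^ (cyclotomic k ℤ).natDegree := by
    ext i
    rw [coeff_map, coeff_scaleRoots, coeff_X_pow]
    rcases lt_trichotomy i (cyclotomic k ℤ).natDegree with h | h | h
    · rw [if_neg h.ne, map_mul, map_pow]
      have h0 : (Int.castRingHom (ZMod p)) (q : ℤ) = 0 := hq
      rw [h0, zero_pow (by omega), mul_zero]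
    · rw [if_pos h, h, Nat.sub_self, pow_zero, mul_one, hmon.coeff_natDegree, map_one]
    · rw [if_neg h.ne', coeff_eq_zero_of_natDegree_lt h, zero_mul, map_zero]
  unfold unitRoots
  rw [hmap, natDegree_X_pow, natTrailingDegree_X_pow, Nat.sub_self]

end Pool.Agent.Helper14.TX
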