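import Pool.Agent.Helper14.TX.ProdA
import Pool.Agent.Helper14.TX.Cyc
import Pool.Agent.Helper14.TX.ProdB
import Pool.Agent.Helper14.TX.Distinct
import Pool.Agent.Helper14.TX.Explicit
import Pool.Agent.Helper14.TX.UnitScale
import Pool.Agent.Helper14.TX.ProdC
import Pool.Agent.Helper14.TX.Dick

/-!
# Assembly
-/

set_option autoImplicit false

open Polynomial

namespace Pool.Agent.Helper14.TX

theorem IsFrob.modTwo {F : Type} [Field F] [Fintype F] (h2 : (2 : F) ≠ 0) {a : F[X]}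
    (hirr : Irreducible (X * a ^ 2 - 4)) {Q : ℤ[X]} (hQ : IsFrob F a Q) : ModTwo (deg a) Q :=
  ⟨hQ.monic, (mod_two F h2 a hirr Q hQ).2, (mod_two F h2 a hirr Q hQ).1⟩

theorem odd_deg {F : Type} [Field F] (a : F[X]) : Odd (deg a) := ⟨a.natDegree, rfl⟩

theorem final_one (F : Type) [Field F] [Fintype F] (h2 : (2 : F) ≠ 0) (a : F[X]) (Q : ℤ[X])
    (hirr : Irreducible (X * a ^ 2 - 4)) (hQ : IsFrob F a Q) (m : ℕ)
    (hm : Nat.Coprime m (deg a)) : TateSq (Fintype.card F) Q m :=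
  tateSq_coprime (Fintype.card F) (odd_card F h2) (deg a) (odd_deg a) Q (hQ.modTwo h2 hirr) m hm

theorem final_products (F : Type) [Field F] [Fintype F] (h2 : (2 : F) ≠ 0) {K : Type}
    [DecidableEq K] (S₁ S₂ : Finset K) (hdisj : Disjoint S₁ S₂)
    (a : K → F[X]) (Q : K → ℤ[X]) (hirr : ∀ k ∈ S₁ ∪ S₂, Irreducible (X * a k ^ 2 - 4))
    (hQ : ∀ k ∈ S₁ ∪ S₂, IsFrob F (a k) (Q k))
    (hcop : ∀ j ∈ S₁ ∪ S₂, ∀ k ∈ S₁ ∪ S₂, j ≠ k → Nat.Coprime (deg (a j)) (deg (a k)))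
    (α α' : K → ℂ) (hα : ∀ k ∈ S₁ ∪ S₂, Root (Q k) (α k) ∧ Root (Q k) (α' k)) (m : ℕ)
    (k₀ : K) (hm : ∀ k ∈ S₁ ∪ S₂, k ≠ k₀ → Nat.Coprime m (deg (a k)))
    (h₀ : TateSq (Fintype.card F) (Q k₀) m)
    (h : ((∏ k ∈ S₁, α k) * ∏ k ∈ S₂, (α k * α' k)) ^ m =
      (Fintype.card F : ℂ) ^ ((S₁.card + 2 * S₂.card) * m)) :
    S₁ = ∅ ∧ ∀ k ∈ S₂, α k * α' k = (Fintype.card F : ℂ) ^ 2 :=
  prod_sq (Fintype.card F) (odd_card F h2) S₁ S₂ hdisj (fun k => deg (a k)) Q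
    (fun k hk => (hQ k hk).modTwo h2 (hirr k hk)) (fun k _ => odd_deg (a k)) hcop
    (fun k hk => (hQ k hk).norm) α α' (fun k hk => (hα k hk).1)
    (fun k hk => (hα k (Finset.mem_union_right _ hk)).2) m k₀ hm (fun _ => h₀) h

theorem deg_ne_two {F : Type} [Field F] (a : F[X]) : deg a ≠ 2 := by
  unfold deg; omega

theorem final_single (F : Type) [Field F] [Fintype F] (h2 : (2 : F) ≠ 0) (a : F[X]) (Q : ℤ[X])
    (hirr : Irreducible (X * a ^ 2 - 4)) (hQ : IsFrob F a Q) (hd : (deg a).Prime)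
    (hc : NotCyc (Fintype.card F) (deg a) Q) (β : ℂ) (hβ : Root Q β) (m : ℕ) (hm : 1 ≤ m) :
    β ^ m ≠ (Fintype.card F : ℂ) ^ m := by
  intro h
  rcases cyc (Fintype.card F) (odd_card F h2) (deg a) hd (deg_ne_two a) Q (hQ.modTwo h2 hirr) β hβ
    m hm h with h1 | h1
  · exact hc.1 h1
  · exact hc.2 h1

theorem final_prime (F : Type) [Field F] [Fintype F] (h2 : (2 : F) ≠ 0) {K : Type} (S : Finset K)
    (hS : S.Nonempty) (a : K → F[X]) (Q : K → ℤ[X])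
    (hirr : ∀ k ∈ S, Irreducible (X * a k ^ 2 - 4))
    (hQ : ∀ k ∈ S, IsFrob F (a k) (Q k)) (hd : ∀ k ∈ S, (deg (a k)).Prime)
    (hne : ∀ j ∈ S, ∀ k ∈ S, j ≠ k → deg (a j) ≠ deg (a k))
    (hc : ∀ k ∈ S, NotCyc (Fintype.card F) (deg (a k)) (Q k)) (α : K → ℂ)
    (hα : ∀ k ∈ S, Root (Q k) (α k)) (m : ℕ) (hm : 1 ≤ m) :
    (∏ k ∈ S, α k) ^ m ≠ (Fintype.card F : ℂ) ^ (S.card * m) :=
  prod_prime (Fintype.card F) (odd_card F h2) S hS (fun k => deg (a k)) Q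
    (fun k hk => (hQ k hk).modTwo h2 (hirr k hk)) hd (fun k _ => deg_ne_two (a k)) hne
    (fun k hk => (hQ k hk).norm)
    (fun k hk β hβ m hm => final_single F h2 (a k) (Q k) (hirr k hk) (hQ k hk) (hd k hk)
      (hc k hk) β hβ m hm)
    α hα m hm

theorem final_square (F : Type) [Field F] [Fintype F] (h2 : (2 : F) ≠ 0) (p : ℕ) [Fact p.Prime]
    (hp : p ∣ Fintype.card F) (a : F[X]) (Q : ℤ[X])
    (hirr : Irreducible (X * a ^ 2 - 4)) (hQ : IsFrob F a Q) (hd : (deg a).Prime)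
    (h1 : 1 < a.natDegree)
    (hu : Nat.Coprime (unitRoots p Q) a.natDegree) (m : ℕ) (hm : 1 ≤ m) :
    TateSq (Fintype.card F) Q m := by
  have : Fact (deg a).Prime := ⟨hd⟩
  have hc : NotCyc (Fintype.card F) (deg a) Q := by
    constructor
    · intro h
      rw [h, unitRoots_scale p _ _ hp] at hu
      rw [Nat.coprime_zero_left] at hu
      omega
    · intro h
      rw [h, unitRoots_scale p _ _ hp] at hu
      rw [Nat.coprime_zero_left] at hu
      omega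
  refine ⟨fun β hβ => final_single F h2 a Q hirr hQ hd hc β hβ m hm, ?_⟩
  exact nodup_pow (Fintype.card F) p (deg a) a.natDegree rfl Q (hQ.modTwo h2 hirr) hQ.norm
    (fun β hβ m hm => final_single F h2 a Q hirr hQ hd hc β hβ m hm) hu m hm

theorem final_explicit (p : ℕ) [Fact p.Prime] (hp : p % 4 = 3) (h3 : 3 < p) (Q : ℤ[X])
    (hQ : IsFrob (ZMod p) (expl p) Q) (m : ℕ) (hm : 1 ≤ m) : TateSq p Q m := by
  have hp2 : p ≠ 2 := by omega
  have h2 : (2 : ZMod p) ≠ 0 := by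
    intro h
    have h1 : ((2 : ℕ) : ZMod p) = 0 := by exact_mod_cast h
    rw [ZMod.natCast_eq_zero_iff] at h1
    have := Nat.le_of_dvd (by norm_num) h1
    omega
  have hnat := natDegree_expl p
  have key := final_square (ZMod p) h2 p (by rw [ZMod.card]) (expl p) Q (irreducible_expl p hp2) hQ
    (by rw [deg_expl p hp2]; exact Fact.out) (by rw [hnat]; omega) (by
      rw [explicit_unitRoots p hp Q hQ, hnat]
      have h4 : (p - 1) / 2 = 2 * ((p - 3) / 4) + 1 := by omega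
      rw [h4]
      simp) m hm
  rw [ZMod.card] at key
  exact key

end Pool.Agent.Helper14.TX
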