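import Pool.Agent.Helper14.TX.Rt
import Pool.Agent.Helper2.Tate.LGalois

/-!
# The action of the Galois group on the roots

PROOF of `galois_package`. Let `A` be the field of algebraic numbers inside `ℂ`
(`algebraicClosure ℚ ℂ`, an algebraically closed, normal, algebraic extension of `ℚ`; or
`AlgebraicClosure ℚ` with an embedding into `ℂ`), `G` the group of its automorphisms over `ℚ`. `G` acts
on `Rt Q` (images of integral elements are integral, images of roots are roots). Let `η` be a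
primitive `ℓ`-th root of unity in `A` and `c = autToPow` (`IsPrimitiveRoot.autToPow`,
`g η = η ^ (c g)`); `c` is surjective because all primitive `ℓ`-th roots of unity have the same
minimal polynomial (`Polynomial.cyclotomic_eq_minpoly_rat`, `Normal.minpoly_eq_iff_mem_orbit`; see
also `exists_conj` in `Pool.Agent.Helper2.Tate.LGalois`).

Take `κ, r` from `Pool.Agent.Helper2.Tate.exists_reduction 2` and `e = r η`: it has order exactly `ℓ`
(`red_odd`). By `red_root` and `IsPrimitiveRoot.eq_pow_of_pow_eq_one` every root `x` has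
`r x = e ^ (ι x)` for a unique `ι x` in `ZMod ℓ`; `ι` is injective by `red_inj`.

`Rel x y` means `x = ζ y` with a root of unity `ζ` (the roots are not `0`: their reductions are
not `0`). So `Rel` is stable under `G`. Let `δ = ι x - ι y`. Then `r ζ = e ^ δ`, so
`ζ' = ζ η ^ (-δ)` is a root of unity with `r ζ' = 1` and has order a power of two (`red_one`). Then
`g x = g ζ' * (g η) ^ δ * g y`, `r (g ζ') = 1` (`red_two`), `r (g η) = e ^ (c g)`, so
`r (g x) = e ^ (c g * δ) r (g y)`, i.e. `ι (g x) - ι (g y) = c g * δ`.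
-/

set_option autoImplicit false

open Polynomial

namespace Pool.Agent.Helper14.TX

/-- The algebraic integers in `ℂ` and the ones in the algebraic closure of `ℚ`. -/
theorem exists_equiv : Nonempty (integralClosure ℤ (AlgebraicClosure ℚ) ≃ₐ[ℤ]
    integralClosure ℤ ℂ) := by
  have := Pool.Agent.Helper2.Tate.isAlgQ
  have j : AlgebraicClosure ℚ →ₐ[ℚ] ℂ := IsAlgClosed.lift
  let j' : AlgebraicClosure ℚ →ₐ[ℤ] ℂ := j.restrictScalars ℤ
  have hj' : ∀ x, j' x = j x := fun _ => rfl
  refine ⟨AlgEquiv.ofBijective j'.mapIntegralClosure ⟨?_, ?_⟩⟩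
  · intro x y hxy
    apply Subtype.ext
    apply j.toRingHom.injective
    have h := congrArg (fun z : integralClosure ℤ ℂ => (z : ℂ)) hxy
    exact h
  · intro x
    obtain ⟨P, hPm, hP0⟩ := x.2
    have h1 : (P.map (algebraMap ℤ (AlgebraicClosure ℚ))).Splits := IsAlgClosed.splits _
    have h2 : (x : ℂ) ∈ j.toRingHom.range := by
      apply h1.mem_range_of_isRoot (i := j.toRingHom) (hPm.map _).ne_zero
      rw [Polynomial.map_map, IsRoot.def, eval_map]
      rw [show (j.toRingHom.comp (algebraMap ℤ (AlgebraicClosure ℚ))) = algebraMap ℤ ℂ from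
        RingHom.ext_int _ _]
      exact hP0
    obtain ⟨z, hz⟩ := h2
    have hzj : j z = x := hz
    refine ⟨⟨z, ?_⟩, ?_⟩
    · have h3 : IsIntegral ℤ (x : ℂ) := x.2
      rw [← hzj] at h3
      exact (isIntegral_algHom_iff j' j'.toRingHom.injective).1 h3
    · apply Subtype.ext
      rw [AlgHom.coe_mapIntegralClosure]
      exact hzj

theorem galois_package (ℓ : ℕ) [Fact ℓ.Prime] (hℓ2 : ℓ ≠ 2) (Q : ℤ[X]) (hQ : ModTwo ℓ Q) :
    ∃ (G : Type) (_ : Group G) (_ : MulAction G (Rt Q)) (c : G →* (ZMod ℓ)ˣ) (ι : Rt Q → ZMod ℓ),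
      Function.Surjective c ∧ Function.Injective ι ∧
      (∀ (g : G) (x y : Rt Q), Rel Q x y → Rel Q (g • x) (g • y)) ∧
      (∀ (g : G) (x y : Rt Q), Rel Q x y →
        ι (g • x) - ι (g • y) = (c g : ZMod ℓ) * (ι x - ι y)) := by
  have hℓ : ℓ.Prime := Fact.out
  have : NeZero ℓ := ⟨hℓ.ne_zero⟩
  have hℓodd : Odd ℓ := hℓ.odd_of_ne_two hℓ2
  -- a primitive root
  obtain ⟨η, hη⟩ : ∃ η : integralClosure ℤ ℂ, IsPrimitiveRoot η ℓ := by
    have h1 := Complex.isPrimitiveRoot_exp ℓ hℓ.ne_zero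
    refine ⟨⟨_, h1.isIntegral hℓ.pos⟩, ?_⟩
    apply IsPrimitiveRoot.of_map_of_injective (f := (integralClosure ℤ ℂ).val)
    · exact h1
    · exact Subtype.val_injective
  -- the reduction
  obtain ⟨κ, hκ, r, hr⟩ := Pool.Agent.Helper2.Tate.exists_reduction 2
  have hr2 : r 2 = 0 := by simpa using hr
  set e := r η with he
  have heℓ : e ^ ℓ = 1 := by rw [he, ← map_pow, hη.pow_eq_one, map_one]
  have he1 : e ≠ 1 := by
    intro h
    have := red_odd r hr2 ℓ hℓodd η hη.pow_eq_one h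
    exact hη.ne_one hℓ.one_lt this
  have hord : orderOf e = ℓ := orderOf_eq_prime heℓ he1
  have hprim : IsPrimitiveRoot e ℓ := by
    rw [← hord]
    exact IsPrimitiveRoot.orderOf e
  have hpow : ∀ a b : ℕ, e ^ a = e ^ b ↔ (a : ZMod ℓ) = b := by
    intro a b
    obtain ⟨u, hu⟩ := hprim.isUnit hℓ.ne_zero
    have hou : orderOf u = ℓ := by rw [← orderOf_units, hu, hord]
    rw [← hu, ← Units.val_pow_eq_pow_val, ← Units.val_pow_eq_pow_val, Units.val_inj,
      pow_eq_pow_iff_modEq, hou, ZMod.natCast_eq_natCast_iff]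
  have hroot : ∀ x : Rt Q, ∃ i : ZMod ℓ, e ^ i.val = r x.1 := by
    intro x
    have h1 := (red_root r hr2 ℓ hℓodd Q hQ x.1 x.2).1
    obtain ⟨i, hi, hi2⟩ := hprim.eq_pow_of_pow_eq_one h1
    refine ⟨(i : ZMod ℓ), ?_⟩
    rw [ZMod.val_natCast_of_lt hi, hi2]
  choose ι hι using hroot
  -- the action
  have hmap : ∀ (g : integralClosure ℤ ℂ ≃ₐ[ℤ] integralClosure ℤ ℂ) (x : integralClosure ℤ ℂ),
      Root Q (x : ℂ) → Root Q ((g x : integralClosure ℤ ℂ) : ℂ) := by
    intro g x hx
    have h1 : aeval x Q = 0 := by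
      apply Subtype.ext
      have h2 : ((aeval x Q : integralClosure ℤ ℂ) : ℂ) = aeval (x : ℂ) Q :=
        (Polynomial.aeval_algHom_apply (integralClosure ℤ ℂ).val x Q).symm
      rw [h2]
      exact hx
    have h3 : aeval (g x) Q = 0 := by
      have h5 : aeval (g x) Q = g (aeval x Q) := Polynomial.aeval_algHom_apply g.toAlgHom x Q
      rw [h5, h1, map_zero]
    have h4 : ((aeval (g x) Q : integralClosure ℤ ℂ) : ℂ) =
        aeval ((g x : integralClosure ℤ ℂ) : ℂ) Q :=
      (Polynomial.aeval_algHom_apply (integralClosure ℤ ℂ).val (g x) Q).symm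
    unfold Root
    rw [← h4, h3]
    rfl
  let act : MulAction (integralClosure ℤ ℂ ≃ₐ[ℤ] integralClosure ℤ ℂ) (Rt Q) :=
    { smul := fun g x => ⟨g x.1, hmap g x.1 x.2⟩
      one_smul := fun x => Subtype.ext rfl
      mul_smul := fun g h x => Subtype.ext rfl }
  have hact : ∀ (g : integralClosure ℤ ℂ ≃ₐ[ℤ] integralClosure ℤ ℂ) (x : Rt Q),
      (g • x).1 = g x.1 := fun g x => rfl
  refine ⟨integralClosure ℤ ℂ ≃ₐ[ℤ] integralClosure ℤ ℂ, inferInstance, act, hη.autToPow ℤ, ι,
    ?_, ?_, ?_, ?_⟩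
  · -- surjective
    intro u
    obtain ⟨E⟩ := exists_equiv
    have hj0 : (u : ZMod ℓ).val ≠ 0 := by
      rw [Ne, ZMod.val_eq_zero]
      exact u.ne_zero
    obtain ⟨σ, hσ⟩ := Pool.Agent.Helper2.Tate.exists_conj ℓ hℓ (u : ZMod ℓ).val (by omega)
      (ZMod.val_lt _)
    let σ' : AlgebraicClosure ℚ ≃ₐ[ℤ] AlgebraicClosure ℚ := σ.restrictScalars ℤ
    refine ⟨(E.symm.trans σ'.mapIntegralClosure).trans E, ?_⟩
    have h1 := hη.autToPow_spec ℤ ((E.symm.trans σ'.mapIntegralClosure).trans E)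
    have h2 : σ'.mapIntegralClosure (E.symm η) = (E.symm η) ^ (u : ZMod ℓ).val := by
      apply Subtype.ext
      rw [AlgEquiv.coe_mapIntegralClosure]
      have h3 : ((E.symm η : integralClosure ℤ (AlgebraicClosure ℚ)) : AlgebraicClosure ℚ) ^ ℓ
          = 1 := by
        have h4 : (E.symm η) ^ ℓ = 1 := by rw [← map_pow, hη.pow_eq_one, map_one]
        have h5 := congrArg (fun z : integralClosure ℤ (AlgebraicClosure ℚ) =>
          (z : AlgebraicClosure ℚ)) h4
        simpa using h5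
      have h6 := hσ _ h3
      change σ _ = _
      rw [h6]
      rfl
    have h7 : ((E.symm.trans σ'.mapIntegralClosure).trans E) η = η ^ (u : ZMod ℓ).val := by
      change E (σ'.mapIntegralClosure (E.symm η)) = _
      rw [h2, map_pow, AlgEquiv.apply_symm_apply]
    rw [h7] at h1
    have h8 := hη.pow_inj (ZMod.val_lt _) (ZMod.val_lt _) h1
    apply Units.ext
    exact ZMod.val_injective ℓ h8
  · -- injective
    intro x y hxy
    apply Subtype.ext
    apply red_inj r hr2 ℓ hℓodd Q hQ x.1 y.1 x.2 y.2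
    rw [← hι x, ← hι y, hxy]
  · -- Rel
    rintro g x y ⟨m, hm, h⟩
    refine ⟨m, hm, ?_⟩
    have h1 : x.1 ^ m = y.1 ^ m := by
      apply Subtype.ext
      simpa using h
    have h2 : (g x.1) ^ m = (g y.1) ^ m := by rw [← map_pow, h1, map_pow]
    have h3 := congrArg (fun z : integralClosure ℤ ℂ => (z : ℂ)) h2
    rw [hact, hact]
    simpa using h3
  · -- affine
    rintro g x y ⟨m, hm, h⟩
    have hy0 : (y.1 : ℂ) ≠ 0 := by
      intro h0
      have h1 : y.1 = 0 := Subtype.ext h0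
      have h2 := hι y
      rw [h1, map_zero] at h2
      exact pow_ne_zero _ (hprim.ne_zero hℓ.ne_zero) h2
    have hz1 : ((x.1 : ℂ) / y.1) ^ m = 1 := by
      rw [div_pow, h, div_self (pow_ne_zero _ hy0)]
    have hzint : IsIntegral ℤ ((x.1 : ℂ) / y.1) := by
      refine ⟨X ^ m - 1, monic_X_pow_sub_C 1 (by omega), ?_⟩
      simp only [eval₂_sub, eval₂_pow, eval₂_X, eval₂_one]
      rw [hz1, sub_self]
    set Z : integralClosure ℤ ℂ := ⟨(x.1 : ℂ) / y.1, hzint⟩ with hZ
    have hZm : Z ^ m = 1 := by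
      apply Subtype.ext
      simpa [hZ] using hz1
    have hxZ : x.1 = Z * y.1 := by
      apply Subtype.ext
      simp only [hZ, MulMemClass.coe_mul]
      rw [div_mul_cancel₀ _ hy0]
    set k : ℕ := (-(ι x - ι y)).val with hk
    have hkc : (k : ZMod ℓ) = -(ι x - ι y) := by
      rw [hk, ZMod.natCast_zmod_val]
    have hrZ : r (Z * η ^ k) = 1 := by
      have h1 : r (Z * η ^ k) * e ^ (ι y).val = 1 * e ^ (ι y).val := by
        have h2 : r Z * e ^ (ι y).val = e ^ (ι x).val := by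
          rw [hι y, hι x, ← map_mul, ← hxZ]
        calc r (Z * η ^ k) * e ^ (ι y).val = (r Z * e ^ (ι y).val) * e ^ k := by
              rw [map_mul, map_pow, ← he]; ring
          _ = e ^ ((ι x).val + k) := by rw [h2, pow_add]
          _ = e ^ (ι y).val := by
              rw [hpow]
              push_cast
              rw [hkc, ZMod.natCast_zmod_val, ZMod.natCast_zmod_val]
              ring
          _ = _ := (one_mul _).symm
      exact mul_right_cancel₀ (pow_ne_zero _ (hprim.ne_zero hℓ.ne_zero)) h1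
    have hZk : (Z * η ^ k) ^ (m * ℓ) = 1 := by
      rw [mul_pow, pow_mul, hZm, one_pow, one_mul, ← pow_mul, mul_comm m ℓ, ← mul_assoc,
        mul_comm k ℓ, mul_assoc, pow_mul, hη.pow_eq_one, one_pow]
    obtain ⟨s, hs⟩ := red_one r hr2 (m * ℓ) (Nat.mul_pos (by omega) hℓ.pos) _ hZk hrZ
    have hgs : (g (Z * η ^ k)) ^ (2 ^ s) = 1 := by rw [← map_pow, hs, map_one]
    have hrg := red_two r hr2 s _ hgs
    have hgη := hη.autToPow_spec ℤ g
    set C : ℕ := ((hη.autToPow ℤ g : (ZMod ℓ)ˣ) : ZMod ℓ).val with hC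
    have hCc : (C : ZMod ℓ) = ((hη.autToPow ℤ g : (ZMod ℓ)ˣ) : ZMod ℓ) := by
      rw [hC, ZMod.natCast_zmod_val]
    have h1 : r (g Z) * e ^ (C * k) = 1 := by
      rw [← hrg, map_mul, map_pow, ← hgη, map_mul, ← pow_mul, map_pow]
    have h2 : e ^ (ι (g • x)).val = r (g Z) * e ^ (ι (g • y)).val := by
      rw [hι, hι, hact, hact, hxZ, map_mul, map_mul]
    have h3 : e ^ ((ι (g • x)).val + C * k) = e ^ (ι (g • y)).val := by
      rw [pow_add, h2]
      calc r (g Z) * e ^ (ι (g • y)).val * e ^ (C * k)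
          = (r (g Z) * e ^ (C * k)) * e ^ (ι (g • y)).val := by ring
        _ = _ := by rw [h1, one_mul]
    rw [hpow] at h3
    push_cast at h3
    rw [ZMod.natCast_zmod_val (ι (g • x)), ZMod.natCast_zmod_val (ι (g • y)), hCc, hkc] at h3
    rw [← h3]
    ring

end Pool.Agent.Helper14.TX
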