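import Pool.Agent.Helper14.TX.Rt
import Pool.Agent.Helper14.TX.Galois
import Mathlib.RingTheory.Frobenius

/-!
# A Frobenius element at a place above two

PROOF. Let `A` be the algebraic closure of `ℚ`, `K` the subfield
generated by the roots of `Q` (a splitting field, finite and Galois over `ℚ`), `B` its ring of
integers (`integralClosure ℤ K`), `P` the kernel of the restriction of `r` to `B` (a prime ideal of `B`
with `P ∩ ℤ = 2 ℤ`; `B ⧸ P` is finite). The group `G = Gal(K/ℚ)` is finite and acts on `B` with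
invariants `ℤ` (`Algebra.IsInvariant`). By `IsArithFrobAt.exists_of_isInvariant`
(`Mathlib.RingTheory.Frobenius`) there is `σ ∈ G` with `σ b - b ^ 2 ∈ P` for all `b ∈ B`. Extend `σ` to an
automorphism of `A` (`A` is normal over `ℚ`: `AlgEquiv.liftNormal`) and restrict it to the algebraic
integers; `exists_equiv` (in `Galois.lean`) gives the passage to `integralClosure ℤ ℂ`.
-/

set_option autoImplicit false

open Polynomial

namespace Pool.Agent.Helper14.TX

theorem exists_frob (Q : ℤ[X]) (hQ : Q.Monic) {κ : Type} [Field κ]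
    (r : integralClosure ℤ ℂ →+* κ) (h2 : r 2 = 0) :
    ∃ s : integralClosure ℤ ℂ ≃+* integralClosure ℤ ℂ, ∀ x : Rt Q, r (s x.1) = r x.1 ^ 2 := by
  obtain ⟨E⟩ := exists_equiv
  have hnA : Normal ℚ (AlgebraicClosure ℚ) := Pool.Agent.Helper2.Tate.normalQ
  let q : ℚ[X] := Q.map (Int.castRingHom ℚ)
  have hq0 : q ≠ 0 := (hQ.map _).ne_zero
  let K : IntermediateField ℚ (AlgebraicClosure ℚ) :=
    IntermediateField.adjoin ℚ (q.rootSet (AlgebraicClosure ℚ))
  have hsf : q.IsSplittingField ℚ K :=
    IntermediateField.adjoin_rootSet_isSplittingField (IsAlgClosed.splits _)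
  have hfd : FiniteDimensional ℚ K := Polynomial.IsSplittingField.finiteDimensional K q
  have hno : Normal ℚ K := Normal.of_isSplittingField q
  have hga : IsGalois ℚ K := {}
  let B := integralClosure ℤ K
  let i : B →+* integralClosure ℤ (AlgebraicClosure ℚ) :=
    (AlgHom.mapIntegralClosure (K.val.restrictScalars ℤ)).toRingHom
  have hi : ∀ b : B, ((i b : integralClosure ℤ (AlgebraicClosure ℚ)) : AlgebraicClosure ℚ) =
      ((b : K) : AlgebraicClosure ℚ) := fun b => rfl
  let ρ : B →+* κ := r.comp ((E : integralClosure ℤ (AlgebraicClosure ℚ) →+*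
    integralClosure ℤ ℂ).comp i)
  have hρ : ∀ b : B, ρ b = r (E (i b)) := fun b => rfl
  let P : Ideal B := RingHom.ker ρ
  have hP : P.IsPrime := RingHom.ker_isPrime _
  have h2P : (2 : B) ∈ P := by
    rw [RingHom.mem_ker]
    have h3 : (2 : κ) = 0 := by rw [← h2, map_ofNat]
    rw [map_ofNat, h3]
  have hfree : Module.Free ℤ B := IsIntegralClosure.module_free ℤ ℚ K B
  have hfin : Module.Finite ℤ B := IsIntegralClosure.finite ℤ ℚ K B
  have hPne : P ≠ ⊥ := by
    intro h
    rw [h, Ideal.mem_bot] at h2P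
    exact two_ne_zero h2P
  have hfq : Finite (B ⧸ P) := Ideal.finiteQuotientOfFreeOfNeBot P hPne
  have hunder : P.under ℤ = Ideal.span {(2 : ℤ)} := by
    have h3 : (Ideal.span {(2 : ℤ)}).IsMaximal :=
      PrincipalIdealRing.isMaximal_of_irreducible Int.prime_two.irreducible
    symm
    apply h3.eq_of_le
    · exact (Ideal.IsPrime.under ℤ P).ne_top
    · rw [Ideal.span_singleton_le_iff_mem, Ideal.under_def, Ideal.mem_comap, map_ofNat]
      exact h2P
  have hcard : Nat.card (ℤ ⧸ P.under ℤ) = 2 := by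
    rw [hunder, Nat.card_congr (Int.quotientSpanEquivZMod 2).toEquiv]
    simp
  have hfr : IsFractionRing B K :=
    IsIntegralClosure.isFractionRing_of_finite_extension ℤ ℚ K B
  let _ : MulSemiringAction Gal(K/ℚ) B := IsIntegralClosure.MulSemiringAction ℤ ℚ K B
  have hinv : Algebra.IsInvariant ℤ B Gal(K/ℚ) := Algebra.isInvariant_of_isGalois ℤ ℚ K B
  obtain ⟨σ, hσ⟩ := IsArithFrobAt.exists_of_isInvariant ℤ Gal(K/ℚ) P
  -- the automorphism of the algebraic integers
  let σA : Gal(AlgebraicClosure ℚ/ℚ) := σ.liftNormal (AlgebraicClosure ℚ)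
  let σI : integralClosure ℤ (AlgebraicClosure ℚ) ≃ₐ[ℤ] integralClosure ℤ (AlgebraicClosure ℚ) :=
    (σA.restrictScalars ℤ).mapIntegralClosure
  have hσI : ∀ b : B, σI (i b) = i (σ • b) := by
    intro b
    apply Subtype.ext
    rw [hi]
    have h3 : ((σI (i b) : integralClosure ℤ (AlgebraicClosure ℚ)) : AlgebraicClosure ℚ) =
        σA ((b : K) : AlgebraicClosure ℚ) := rfl
    have h4 : σA (algebraMap K (AlgebraicClosure ℚ) b) =
        algebraMap K (AlgebraicClosure ℚ) (σ b) := σ.liftNormal_commutes (AlgebraicClosure ℚ) b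
    have h5 : algebraMap B K (σ • b) = σ (algebraMap B K b) :=
      algebraMap_galRestrict_apply ℤ σ b
    rw [h3]
    refine h4.trans ?_
    exact congrArg (algebraMap K (AlgebraicClosure ℚ)) h5.symm
  refine ⟨((E.symm.trans σI).trans E).toRingEquiv, ?_⟩
  intro x
  -- the root comes from `B`
  have hx : aeval ((E.symm x.1 : integralClosure ℤ (AlgebraicClosure ℚ)) : AlgebraicClosure ℚ) Q
      = 0 := by
    have h3 : aeval x.1 Q = 0 := by
      apply Subtype.ext
      have h4 : ((aeval x.1 Q : integralClosure ℤ ℂ) : ℂ) = aeval (x.1 : ℂ) Q :=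
        (Polynomial.aeval_algHom_apply (integralClosure ℤ ℂ).val x.1 Q).symm
      rw [h4]
      exact x.2
    have h5 : aeval (E.symm x.1) Q = 0 := by
      have h6 : aeval (E.symm x.1) Q = E.symm (aeval x.1 Q) :=
        Polynomial.aeval_algHom_apply E.symm.toAlgHom x.1 Q
      rw [h6, h3, map_zero]
    have h7 := Polynomial.aeval_algHom_apply
      (integralClosure ℤ (AlgebraicClosure ℚ)).val (E.symm x.1) Q
    rw [h5, map_zero] at h7
    exact h7
  have hxK : ((E.symm x.1 : integralClosure ℤ (AlgebraicClosure ℚ)) : AlgebraicClosure ℚ) ∈ K := by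
    apply IntermediateField.subset_adjoin
    rw [Polynomial.mem_rootSet]
    refine ⟨hq0, ?_⟩
    have h3 : aeval ((E.symm x.1 : integralClosure ℤ (AlgebraicClosure ℚ)) : AlgebraicClosure ℚ)
        (Q.map (algebraMap ℤ ℚ)) = 0 := by
      rw [Polynomial.aeval_map_algebraMap]
      exact hx
    exact h3
  obtain ⟨b, hb⟩ : ∃ b : B, i b = E.symm x.1 := by
    refine ⟨⟨⟨_, hxK⟩, ?_⟩, ?_⟩
    · have h3 : IsIntegral ℤ
        ((E.symm x.1 : integralClosure ℤ (AlgebraicClosure ℚ)) : AlgebraicClosure ℚ) :=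
        (E.symm x.1).2
      exact (isIntegral_algHom_iff (K.val.restrictScalars ℤ)
        (K.val.restrictScalars ℤ).toRingHom.injective).1 h3
    · exact Subtype.ext rfl
  have h3 := hσ b
  rw [hcard, RingHom.mem_ker, map_sub, map_pow, sub_eq_zero, hρ, hρ] at h3
  have h4 : ((E.symm.trans σI).trans E).toRingEquiv x.1 = E (i (σ • b)) := by
    rw [← hσI, hb]
    rfl
  have h5 : E (i b) = x.1 := by rw [hb, AlgEquiv.apply_symm_apply]
  rw [h5] at h3
  rw [h4]
  exact h3

end Pool.Agent.Helper14.TX
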