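import Mathlib

/-!
# A lemma on negacyclic sequences

PROOF. For a complex number `ζ` with `ζ ^ M = -1` (so `ζ ^ (2 M) = 1`) put
`W(ζ) = ∑ (j < M), w j ζ ^ j` and `N(ζ) = ∑ (j < M), (n j - n (j + M)) ζ ^ (- j)`. Then
`∑ (i < 2 M), ζ ^ i ∑ (j < 2 M), n j w (j + i) = (∑ (j < 2 M), n j ζ ^ (- j)) (∑ (i < 2 M), w i ζ ^ i)`
`= N(ζ) * 2 W(ζ)` (both sequences have period `2 M`; `w (j + M) = - w j`, `ζ ^ M = -1`). By `hrel` this
is `0`.

`W(ζ) ≠ 0`: (a) for `ζ = -1` the integer `W(-1) = ∑ (j < M), (-1) ^ j w j` is congruent modulo `2` to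
the number of `j < M` with `w j ≠ 0`, which is odd. (b) Otherwise `ζ` is a primitive root of unity of
order `2 M` (`M` is an odd prime), whose minimal polynomial over `ℚ` is the cyclotomic polynomial,
which has degree `M - 1` and equals `∑ (j < M), (-X) ^ j`. If `W(ζ) = 0` then the polynomial
`∑ (j < M), w j X ^ j` of degree less than `M` is a constant multiple `e` of it, so `w j = e (-1) ^ j`
for all `j < M`. As `w` has a zero (which may be taken with `j < M`), `e = 0` and all `w j = 0`,
contradicting `hodd`.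

So `N(ζ) = 0` for the `M` roots `ζ` of `X ^ M + 1`; the polynomial
`∑ (j < M), (n j - n (j + M)) X ^ j` of degree less than `M` vanishes at the `M` different numbers
`ζ⁻¹`, hence it is `0`: `n j = n (j + M)` for `j < M`, and then for all `j` by periodicity.
-/

set_option autoImplicit false

namespace Pool.Agent.Helper14.TX

/-- A vanishing sum of roots of unity of prime order has constant coefficients. -/
theorem pow_const {p : ℕ} (hp : p.Prime) {ζ : ℂ} (hζ : IsPrimitiveRoot ζ p)
    (f : ℕ → ℤ) (h : ∑ i ∈ Finset.range p, (f i : ℂ) * ζ ^ i = 0) :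
    ∀ i < p, ∀ j < p, f i = f j := by
  have : Fact p.Prime := ⟨hp⟩
  set P : Polynomial ℚ := ∑ n ∈ Finset.range p, Polynomial.monomial n ((f n : ℤ) : ℚ) with hP
  have hcoeff : ∀ n < p, P.coeff n = (f n : ℤ) := by
    intro n hn
    rw [hP, Polynomial.finsetSum_coeff, Finset.sum_eq_single n]
    · rw [Polynomial.coeff_monomial, if_pos rfl]
    · intro b _ hb
      rw [Polynomial.coeff_monomial, if_neg hb]
    · intro hn'
      exact absurd (Finset.mem_range.2 hn) hn'
  have hdeg : P.natDegree ≤ p - 1 := by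
    rw [hP]
    apply Polynomial.natDegree_sum_le_of_forall_le
    intro n hn
    refine (Polynomial.natDegree_monomial_le _).trans ?_
    have := Finset.mem_range.1 hn
    omega
  have hroot : Polynomial.aeval ζ P = 0 := by
    rw [hP, map_sum, ← h]
    refine Finset.sum_congr rfl fun n hn => ?_
    rw [Polynomial.aeval_monomial]
    simp
  have hdvd : Polynomial.cyclotomic p ℚ ∣ P := by
    rw [Polynomial.cyclotomic_eq_minpoly_rat hζ hp.pos]
    exact minpoly.dvd ℚ ζ hroot
  obtain ⟨R, hR⟩ := hdvd
  have hR' : ∃ c : ℚ, R = Polynomial.C c := by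
    by_cases hR0 : R = 0
    · exact ⟨0, by rw [hR0, Polynomial.C_0]⟩
    · have h1 : P.natDegree = (Polynomial.cyclotomic p ℚ).natDegree + R.natDegree := by
        rw [hR]
        exact Polynomial.natDegree_mul (Polynomial.cyclotomic_ne_zero p ℚ) hR0
      rw [Polynomial.natDegree_cyclotomic, Nat.totient_prime hp] at h1
      have h2 : R.natDegree = 0 := by omega
      exact ⟨R.coeff 0, Polynomial.eq_C_of_natDegree_eq_zero h2⟩
  obtain ⟨c, rfl⟩ := hR'
  have hc : ∀ n < p, P.coeff n = c := by
    intro n hn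
    rw [hR, Polynomial.coeff_mul_C, Polynomial.cyclotomic_prime, Polynomial.finsetSum_coeff,
      Finset.sum_eq_single n]
    · rw [Polynomial.coeff_X_pow, if_pos rfl, one_mul]
    · intro b _ hb
      rw [Polynomial.coeff_X_pow, if_neg (Ne.symm hb)]
    · intro hn'
      exact absurd (Finset.mem_range.2 hn) hn'
  intro i hi j hj
  have h1 : ((f i : ℤ) : ℚ) = ((f j : ℤ) : ℚ) := by
    rw [← hcoeff i hi, ← hcoeff j hj, hc i hi, hc j hj]
  exact_mod_cast h1

/-- Sums over a period. -/
theorem sum_period {R : Type*} [AddCommGroup R] (L : ℕ) (f : ℕ → R) (hf : ∀ i, f (i + L) = f i)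
    (j : ℕ) : ∑ i ∈ Finset.range L, f (i + j) = ∑ i ∈ Finset.range L, f i := by
  induction j with
  | zero => rfl
  | succ j ih =>
    rw [← ih]
    have h1 : ∑ i ∈ Finset.range (L + 1), f (i + j) =
        ∑ i ∈ Finset.range L, f (i + (j + 1)) + f (0 + j) := by
      rw [Finset.sum_range_succ']
      congr 1
      apply Finset.sum_congr rfl
      intro i _
      congr 1
      omega
    have h2 : ∑ i ∈ Finset.range (L + 1), f (i + j) =
        ∑ i ∈ Finset.range L, f (i + j) + f (L + j) := Finset.sum_range_succ _ _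
    have h3 : f (L + j) = f (0 + j) := by
      rw [add_comm L j, hf, zero_add]
    rw [h3] at h2
    exact add_right_cancel (h1.symm.trans h2)

theorem pow_alg (M : ℕ) (hM : M.Prime) (hM2 : M ≠ 2) (w n : ℕ → ℤ)
    (hw : ∀ j, w j = -1 ∨ w j = 0 ∨ w j = 1) (hwM : ∀ j, w (j + M) = - w j)
    (hn : ∀ j, n (j + 2 * M) = n j)
    (hodd : Odd ((Finset.range M).filter (fun j => w j ≠ 0)).card) (hz : ∃ j, w j = 0)
    (hrel : ∀ i, ∑ j ∈ Finset.range (2 * M), n j * w (j + i) = 0) (j : ℕ) : n (j + M) = n j := by
  have hMo : Odd M := hM.odd_of_ne_two hM2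
  have hw2 : ∀ j, w (j + 2 * M) = w j := by
    intro j
    have : j + 2 * M = (j + M) + M := by ring
    rw [this, hwM, hwM, neg_neg]
  -- a zero in the first period
  obtain ⟨j0, hj0, hj0'⟩ : ∃ j0 < M, w j0 = 0 := by
    obtain ⟨j, hj⟩ := hz
    have h1 : ∀ k a : ℕ, w (a + k * M) = 0 → w a = 0 := by
      intro k
      induction k with
      | zero => intro a h; simpa using h
      | succ k ih =>
        intro a h
        apply ih
        have h2 : a + (k + 1) * M = (a + k * M) + M := by ring
        rw [h2, hwM, neg_eq_zero] at h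
        exact h
    refine ⟨j % M, Nat.mod_lt _ hM.pos, h1 (j / M) _ ?_⟩
    have : j % M + j / M * M = j := by
      rw [mul_comm]
      exact Nat.mod_add_div j M
    rw [this]; exact hj
  -- nonvanishing
  have hW : ∀ ξ : ℂ, ξ ^ M = 1 → ∑ i ∈ Finset.range M, (w i : ℂ) * (-ξ) ^ i ≠ 0 := by
    intro ξ hξ h0
    have hv : ∑ i ∈ Finset.range M, (((-1) ^ i * w i : ℤ) : ℂ) * ξ ^ i = 0 := by
      rw [← h0]
      apply Finset.sum_congr rfl
      intro i _
      rw [neg_pow ξ]
      push_cast
      ring
    by_cases h1 : ξ = 1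
    · rw [h1] at hv
      simp only [one_pow, mul_one] at hv
      have h2 : ∑ i ∈ Finset.range M, ((-1) ^ i * w i : ℤ) = 0 := by exact_mod_cast hv
      have h3 : ∀ i, (((-1) ^ i * w i : ℤ) : ZMod 2) = if w i ≠ 0 then 1 else 0 := by
        intro i
        have h4 : ((-1 : ZMod 2)) = 1 := by decide
        push_cast
        rw [h4, one_pow, one_mul]
        rcases hw i with h | h | h <;> rw [h]
        · rw [if_pos (by norm_num)]
          push_cast
          exact h4
        · simp
        · simp
      have h4 := congrArg (fun z : ℤ => (z : ZMod 2)) h2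
      rw [Int.cast_sum, Finset.sum_congr rfl (fun i _ => h3 i), Finset.sum_boole] at h4
      rw [Int.cast_zero, ZMod.natCast_eq_zero_iff] at h4
      exact (Nat.not_even_iff_odd.2 hodd) (even_iff_two_dvd.2 h4)
    · have h2 : orderOf ξ = M := by
        have := Fact.mk hM
        exact orderOf_eq_prime hξ h1
      have hprim : IsPrimitiveRoot ξ M := h2 ▸ IsPrimitiveRoot.orderOf ξ
      have h3 := pow_const hM hprim (fun i => (-1) ^ i * w i) hv
      have h4 : ∀ i < M, w i = 0 := by
        intro i hi
        have h5 := h3 i hi j0 hj0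
        rw [hj0', mul_zero] at h5
        rcases mul_eq_zero.1 h5 with h6 | h6
        · exact absurd h6 (pow_ne_zero _ (by norm_num))
        · exact h6
      have h5 : (Finset.range M).filter (fun j => w j ≠ 0) = ∅ := by
        apply Finset.filter_false_of_mem
        intro i hi
        simpa using h4 i (Finset.mem_range.1 hi)
      rw [h5] at hodd
      simp at hodd
  -- splitting of the sums of length `2 M`
  have hsplit : ∀ f : ℕ → ℂ, ∑ i ∈ Finset.range (2 * M), f i =
      ∑ i ∈ Finset.range M, (f i + f (M + i)) := by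
    intro f
    rw [two_mul, Finset.sum_range_add, Finset.sum_add_distrib]
  have hN : ∀ ξ : ℂ, ξ ^ M = 1 →
      ∑ i ∈ Finset.range M, ((n i - n (i + M) : ℤ) : ℂ) * (-ξ) ^ i = 0 := by
    intro ξ hξ
    have hξ0 : ξ ≠ 0 := by
      intro h
      rw [h, zero_pow hM.ne_zero] at hξ
      exact zero_ne_one hξ
    set η : ℂ := -ξ with hη
    set ζ : ℂ := -ξ⁻¹ with hζ
    have hηζ : η * ζ = 1 := by
      rw [hη, hζ]
      field_simp
    have hηM : η ^ M = -1 := by
      rw [hη, hMo.neg_pow, hξ]
    have hζM : ζ ^ M = -1 := by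
      rw [hζ, hMo.neg_pow, inv_pow, hξ, inv_one]
    have h1 : ∑ i ∈ Finset.range (2 * M), ζ ^ i *
        (∑ j ∈ Finset.range (2 * M), (n j : ℂ) * (w (j + i) : ℂ)) = 0 := by
      apply Finset.sum_eq_zero
      intro i _
      have h2 := congrArg (fun z : ℤ => (z : ℂ)) (hrel i)
      push_cast at h2
      rw [h2, mul_zero]
    have h2 : ∑ i ∈ Finset.range (2 * M), ζ ^ i *
        (∑ j ∈ Finset.range (2 * M), (n j : ℂ) * (w (j + i) : ℂ)) =
        (∑ j ∈ Finset.range (2 * M), (n j : ℂ) * η ^ j) *
          ∑ i ∈ Finset.range (2 * M), ζ ^ i * (w i : ℂ) := by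
      rw [Finset.sum_mul]
      simp only [Finset.mul_sum]
      rw [Finset.sum_comm]
      apply Finset.sum_congr rfl
      intro j _
      have h3 := sum_period (2 * M) (fun i => ζ ^ i * (w i : ℂ)) (by
        intro i
        rw [hw2, pow_add, mul_comm 2 M, pow_mul, hζM]
        ring) j
      rw [← Finset.mul_sum, ← h3, Finset.mul_sum]
      apply Finset.sum_congr rfl
      intro i _
      have h4 : η ^ j * ζ ^ (i + j) = ζ ^ i := by
        rw [pow_add]
        calc η ^ j * (ζ ^ i * ζ ^ j) = (η * ζ) ^ j * ζ ^ i := by rw [mul_pow]; ring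
          _ = ζ ^ i := by rw [hηζ, one_pow, one_mul]
      rw [add_comm j i, ← h4]
      ring
    rw [h1] at h2
    have h5 : ∑ i ∈ Finset.range (2 * M), ζ ^ i * (w i : ℂ) =
        2 * ∑ i ∈ Finset.range M, (w i : ℂ) * ζ ^ i := by
      rw [hsplit, Finset.mul_sum]
      apply Finset.sum_congr rfl
      intro i _
      rw [add_comm M i, hwM, pow_add, hζM]
      push_cast
      ring
    have h6 : ∑ j ∈ Finset.range (2 * M), (n j : ℂ) * η ^ j =
        ∑ i ∈ Finset.range M, ((n i - n (i + M) : ℤ) : ℂ) * η ^ i := by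
      rw [hsplit]
      apply Finset.sum_congr rfl
      intro i _
      rw [add_comm M i, pow_add, hηM]
      push_cast
      ring
    rw [h5, h6] at h2
    have h7 : ∑ i ∈ Finset.range M, (w i : ℂ) * ζ ^ i ≠ 0 := hW ξ⁻¹ (by rw [inv_pow, hξ, inv_one])
    rcases mul_eq_zero.1 h2.symm with h8 | h8
    · exact h8
    · rcases mul_eq_zero.1 h8 with h9 | h9
      · exact absurd h9 two_ne_zero
      · exact absurd h9 h7
  -- the polynomial vanishes
  have hzero : ∀ i < M, n i = n (i + M) := by
    set P : Polynomial ℂ := ∑ i ∈ Finset.range M,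
      Polynomial.monomial i (((n i - n (i + M) : ℤ) : ℂ)) with hP
    have hdeg : P.natDegree < M := by
      have h1 : P.natDegree ≤ M - 1 := by
        rw [hP]
        apply Polynomial.natDegree_sum_le_of_forall_le
        intro i hi
        refine (Polynomial.natDegree_monomial_le _).trans ?_
        have := Finset.mem_range.1 hi
        omega
      have := hM.pos
      omega
    have hprim := Complex.isPrimitiveRoot_exp M hM.ne_zero
    set ξ0 : ℂ := Complex.exp (2 * Real.pi * Complex.I / M) with hξ0
    have hP0 : P = 0 := by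
      refine Polynomial.eq_zero_of_natDegree_lt_card_of_eval_eq_zero P
        (f := fun k : Fin M => -(ξ0 ^ (k : ℕ))) ?_ ?_ ?_
      · intro a b hab
        have h1 : ξ0 ^ (a : ℕ) = ξ0 ^ (b : ℕ) := neg_injective hab
        exact Fin.ext (hprim.pow_inj a.2 b.2 h1)
      · intro k
        have h1 := hN (ξ0 ^ (k : ℕ)) (by
          rw [← pow_mul, mul_comm, pow_mul, hprim.pow_eq_one, one_pow])
        rw [hP, Polynomial.eval_finsetSum]
        simp only [Polynomial.eval_monomial]
        exact h1
      · rw [Fintype.card_fin]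
        exact hdeg
    intro i hi
    have h1 := congrArg (fun q => Polynomial.coeff q i) hP0
    rw [hP] at h1
    simp only [Polynomial.finsetSum_coeff, Polynomial.coeff_monomial, Polynomial.coeff_zero] at h1
    rw [Finset.sum_ite_eq' (Finset.range M) i (fun b => ((n b - n (b + M) : ℤ) : ℂ)),
      if_pos (Finset.mem_range.2 hi)] at h1
    have h2 : n i - n (i + M) = 0 := by exact_mod_cast h1
    omega
  -- all indices
  have hper : ∀ a b : ℕ, n (b + a * (2 * M)) = n b := by
    intro a
    induction a with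
    | zero => intro b; simp
    | succ a ih =>
      intro b
      have : b + (a + 1) * (2 * M) = (b + a * (2 * M)) + 2 * M := by ring
      rw [this, hn, ih]
  have hMpos := hM.pos
  have h1 : j = j % (2 * M) + j / (2 * M) * (2 * M) := by
    rw [mul_comm (j / (2 * M))]
    exact (Nat.mod_add_div j (2 * M)).symm
  set b := j % (2 * M) with hb
  have hb2 : b < 2 * M := Nat.mod_lt _ (by omega)
  have h2 : n j = n b := by rw [h1]; exact hper _ _
  have h3 : n (j + M) = n (b + M) := by
    have : j + M = (b + M) + j / (2 * M) * (2 * M) := by omega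
    rw [this]; exact hper _ _
  rw [h2, h3]
  rcases Nat.lt_or_ge b M with h4 | h4
  · exact (hzero b h4).symm
  · obtain ⟨b', hb'⟩ : ∃ b', b = b' + M := ⟨b - M, by omega⟩
    have h5 : b + M = b' + 2 * M := by omega
    rw [h5, hn, hzero b' (by omega), ← hb']

end Pool.Agent.Helper14.TX
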