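import Pool.Agent.Helper14.TX.Frob2
import Pool.Agent.Helper14.TX.PowAlg
import Pool.Agent.Helper14.TX.Distinct

/-!
# All powers

PROOF. Let `ℓ = 2 M + 1`, take `κ, r` with `r 2 = 0` (`exists_reduction 2`) and `s` from
`exists_frob`. `s` permutes `Rt Q` (it maps roots of `Q` to roots of `Q`), and
`cj` (`Distinct.lean`) is complex conjugation on `Rt Q`, `r (cj x) = (r x)⁻¹` because
`x * cj x = q ^ 2` and `r q = 1`. By Euler's criterion `2 ^ M` is `1` or `-1` modulo `ℓ`; put
`c = 2, τ = s` in the second case and `c = -2, τ = cj ∘ s` in the first one (`M` is odd); so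
`r (τ x) = (r x) ^ c` and `c ^ M = -1` modulo `ℓ`; hence `c` has order `2 M` modulo `ℓ` (the order
divides `2 M`, does not divide `M`, and it is not `2` because `c ≠ -1` as `ℓ > 3`). Fix a root `x₀` and
put `x j = τ^[j] x₀`. The reductions of the `x j`, `j < 2 M`, are the `(r x₀) ^ (c ^ j)`, all the
different nontrivial `ℓ`-th roots of unity; with `red_inj`, `card_Rt`, the `x j`, `j < 2 M`, are all
the roots, once each, `x (j + 2 M) = x j`, and `x (j + M) = cj (x j)` (same reduction).

Put `w j = v (x j) - 1` (an integer `-1, 0, 1`), `n' j = n (x j)`. `v (cj x) = 2 - v x`, so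
`w (j + M) = - w j`. Apply the automorphism `τ ^ i` (of the algebraic integers, extended to their
quotients; or move the negative exponents to the other side first) to the relation:
`(∏ (j < 2 M), (x (j + i)) ^ (n' j)) ^ m = q ^ k` for all `i`. Apply `v`:
`m * ∑ (j < 2 M), n' j (w (j + i) + 1) = k`. The same for `i + M` gives, because of
`w (j + i + M) = - w (j + i)`, `∑ (j < 2 M), n' j w (j + i) = 0`. The number of `j < M` with `w j ≠ 0`
is the number of the `j < 2 M` with `w j = -1` (exactly one of `j`, `j + M` has this property if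
`w j ≠ 0`), which is the number of the roots with `v = 0` and is odd. `pow_alg` gives
`n' (j + M) = n' j`, that is, `n (conj β) = n β` for all roots `β`.
-/

set_option autoImplicit false

open Polynomial

namespace Pool.Agent.Helper14.TX

/-- Ring endomorphisms of the algebraic integers map roots to roots. -/
theorem root_map (Q : ℤ[X]) (t : integralClosure ℤ ℂ →+* integralClosure ℤ ℂ)
    (x : integralClosure ℤ ℂ) (hx : Root Q (x : ℂ)) : Root Q ((t x : integralClosure ℤ ℂ) : ℂ) := by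
  have h1 : aeval x Q = 0 := by
    apply Subtype.ext
    have h2 : ((aeval x Q : integralClosure ℤ ℂ) : ℂ) = aeval (x : ℂ) Q :=
      (Polynomial.aeval_algHom_apply (integralClosure ℤ ℂ).val x Q).symm
    rw [h2]
    exact hx
  have h3 : aeval (t x) Q = 0 := by
    have h5 : aeval (t x) Q = t (aeval x Q) :=
      Polynomial.aeval_algHom_apply t.toIntAlgHom x Q
    rw [h5, h1, map_zero]
  have h4 : ((aeval (t x) Q : integralClosure ℤ ℂ) : ℂ) =
      aeval ((t x : integralClosure ℤ ℂ) : ℂ) Q :=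
    (Polynomial.aeval_algHom_apply (integralClosure ℤ ℂ).val (t x) Q).symm
  unfold Root
  rw [← h4, h3]
  rfl

theorem isIntegral_conj (x : integralClosure ℤ ℂ) : starRingEnd ℂ (x : ℂ) ∈ integralClosure ℤ ℂ := by
  have h : IsIntegral ℤ (x : ℂ) := x.2
  exact h.map (starRingEnd ℂ).toIntAlgHom

/-- Complex conjugation of algebraic integers. -/
noncomputable def conjO : integralClosure ℤ ℂ →+* integralClosure ℤ ℂ where
  toFun x := ⟨starRingEnd ℂ (x : ℂ), isIntegral_conj x⟩
  map_one' := by apply Subtype.ext; simp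
  map_mul' x y := by apply Subtype.ext; simp
  map_zero' := by apply Subtype.ext; simp
  map_add' x y := by apply Subtype.ext; simp

theorem conjO_val (x : integralClosure ℤ ℂ) :
    ((conjO x : integralClosure ℤ ℂ) : ℂ) = starRingEnd ℂ (x : ℂ) := rfl

theorem mul_conjO (q : ℕ) (Q : ℤ[X]) (hnorm : ∀ β : ℂ, Root Q β → ‖β‖ = q)
    (x : integralClosure ℤ ℂ) (hx : Root Q (x : ℂ)) :
    x * conjO x = ((q : ℕ) : integralClosure ℤ ℂ) ^ 2 := by
  apply Subtype.ext
  push_cast
  rw [conjO_val, Complex.mul_conj', hnorm _ hx]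
  simp

/-- The order of an element with `c ^ M = -1`. -/
theorem orderOf_eq (M : ℕ) (hM : M.Prime) (hM2 : M ≠ 2) [Fact (2 * M + 1).Prime]
    (c : ZMod (2 * M + 1)) (hc : c ^ M = -1) (hc1 : c ≠ -1) : orderOf c = 2 * M := by
  have hM3 : 3 ≤ M := by
    have := hM.two_le
    omega
  have h11 : (-1 : ZMod (2 * M + 1)) ≠ 1 := by
    have : Fact (2 < 2 * M + 1) := ⟨by omega⟩
    exact ZMod.neg_one_ne_one
  have h2M : c ^ (2 * M) = 1 := by
    have h : c ^ (2 * M) = (c ^ M) ^ 2 := by ring
    rw [h, hc]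
    ring
  have hdvd := orderOf_dvd_of_pow_eq_one h2M
  have hnM : ¬ orderOf c ∣ M := by
    intro h
    have := orderOf_dvd_iff_pow_eq_one.1 h
    rw [hc] at this
    exact h11 this
  have h2 : 2 ∣ orderOf c := by
    by_contra h
    apply hnM
    have hcop : Nat.Coprime (orderOf c) 2 := by
      rw [Nat.coprime_comm]
      exact (Nat.Prime.coprime_iff_not_dvd Nat.prime_two).2 h
    exact hcop.dvd_of_dvd_mul_left hdvd
  obtain ⟨o, ho⟩ := h2
  have hoM : o ∣ M := by
    rw [ho] at hdvd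
    exact Nat.dvd_of_mul_dvd_mul_left (by norm_num) hdvd
  rcases (Nat.dvd_prime hM).1 hoM with h1 | h1
  · exfalso
    have h3 : c ^ 2 = 1 := by
      rw [← orderOf_dvd_iff_pow_eq_one, ho, h1]
    have h4 : (c - 1) * (c + 1) = 0 := by linear_combination h3
    rcases mul_eq_zero.1 h4 with h5 | h5
    · have h6 : c = 1 := sub_eq_zero.1 h5
      rw [h6, one_pow] at hc
      exact h11 hc.symm
    · exact hc1 (by linear_combination h5)
  · rw [ho, h1]

/-- The endomorphism `τ`. -/
theorem exists_tau (q : ℕ) (hq : Odd q) (M : ℕ) (hM : M.Prime) (hM2 : M ≠ 2)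
    [hℓ : Fact (2 * M + 1).Prime] (Q : ℤ[X]) (hQ : ModTwo (2 * M + 1) Q)
    (hnorm : ∀ β : ℂ, Root Q β → ‖β‖ = q) {κ : Type} [Field κ]
    (r : integralClosure ℤ ℂ →+* κ) (h2 : r 2 = 0) :
    ∃ (t : integralClosure ℤ ℂ →+* integralClosure ℤ ℂ) (c : ℕ),
      ((c : ZMod (2 * M + 1)) ^ M = -1) ∧ orderOf (c : ZMod (2 * M + 1)) = 2 * M ∧
      ∀ x : integralClosure ℤ ℂ, Root Q (x : ℂ) → r (t x) = r x ^ c := by
  have hM3 : 3 ≤ M := by
    have := hM.two_le
    omega
  have hModd : Odd M := hM.odd_of_ne_two hM2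
  have hℓodd : Odd (2 * M + 1) := ⟨M, rfl⟩
  obtain ⟨s, hs⟩ := exists_frob Q hQ.1 r h2
  have hs' : ∀ x : integralClosure ℤ ℂ, Root Q (x : ℂ) → r (s x) = r x ^ 2 :=
    fun x hx => hs ⟨x, hx⟩
  have hq1 : r ((q : ℕ) : integralClosure ℤ ℂ) = 1 := by
    obtain ⟨t, rfl⟩ := hq
    push_cast
    rw [map_add, map_mul, h2, zero_mul, map_one, zero_add]
  have hbig : Fact (2 < 2 * M + 1) := ⟨by omega⟩
  have h20 : (2 : ZMod (2 * M + 1)) ≠ 0 := by
    intro h
    have h1 : ((2 : ℕ) : ZMod (2 * M + 1)) = 0 := by exact_mod_cast h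
    rw [ZMod.natCast_eq_zero_iff] at h1
    have := Nat.le_of_dvd (by norm_num) h1
    omega
  have h30 : (3 : ZMod (2 * M + 1)) ≠ 0 := by
    intro h
    have h1 : ((3 : ℕ) : ZMod (2 * M + 1)) = 0 := by exact_mod_cast h
    rw [ZMod.natCast_eq_zero_iff] at h1
    have := Nat.le_of_dvd (by norm_num) h1
    omega
  have hdiv : (2 * M + 1) / 2 = M := by omega
  have hE := ZMod.pow_div_two_eq_neg_one_or_one (2 * M + 1) h20
  rw [hdiv] at hE
  rcases hE with h1 | h1
  · -- `2 ^ M = 1`
    have hcz : ((2 * M - 1 : ℕ) : ZMod (2 * M + 1)) = -2 := by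
      have h3 : (((2 * M - 1 : ℕ) + 2 : ℕ) : ZMod (2 * M + 1)) = 0 := by
        rw [ZMod.natCast_eq_zero_iff]
        exact ⟨1, by omega⟩
      push_cast at h3
      linear_combination h3
    have hcM : ((2 * M - 1 : ℕ) : ZMod (2 * M + 1)) ^ M = -1 := by
      rw [hcz, hModd.neg_pow, h1]
    refine ⟨conjO.comp (s : integralClosure ℤ ℂ →+* integralClosure ℤ ℂ), 2 * M - 1, hcM, ?_, ?_⟩
    · apply orderOf_eq M hM hM2 _ hcM
      rw [hcz]
      intro h
      apply one_ne_zero (α := ZMod (2 * M + 1))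
      linear_combination -h
    · intro x hx
      have hsx : Root Q ((s x : integralClosure ℤ ℂ) : ℂ) :=
        root_map Q (s : integralClosure ℤ ℂ →+* integralClosure ℤ ℂ) x hx
      have h4 := mul_conjO q Q hnorm (s x) hsx
      have h5 := congrArg r h4
      rw [map_mul, map_pow, hq1, one_pow, hs' x hx] at h5
      have h6 := (red_root r h2 (2 * M + 1) hℓodd Q hQ x hx).1
      have h7 : r x ^ 2 ≠ 0 := by
        intro h0
        rw [h0, zero_mul] at h5
        exact zero_ne_one h5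
      apply mul_left_cancel₀ h7
      change r x ^ 2 * r (conjO (s x)) = _
      rw [h5, ← pow_add, show 2 + (2 * M - 1) = 2 * M + 1 by omega, h6]
  · refine ⟨(s : integralClosure ℤ ℂ →+* integralClosure ℤ ℂ), 2, ?_, ?_, ?_⟩
    · rw [Nat.cast_ofNat]; exact h1
    · apply orderOf_eq M hM hM2
      · rw [Nat.cast_ofNat]; exact h1
      · rw [Nat.cast_ofNat]
        intro h
        exact h30 (by linear_combination h)
    · intro x hx
      exact hs' x hx

theorem val_prod (q : ℕ) (Q : ℤ[X]) (v : ℂ → ℚ) (hv : Ordinary q Q v) {J : Type} (S : Finset J)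
    (f : J → ℂ) (hf : ∀ j ∈ S, f j ≠ 0) : v (∏ j ∈ S, f j) = ∑ j ∈ S, v (f j) := by
  classical
  have h1 : v 1 = 0 := by
    have := hv.mul 1 1 one_ne_zero one_ne_zero
    rw [mul_one] at this
    linarith
  induction S using Finset.induction_on with
  | empty => simpa using h1
  | insert j S hj ih =>
    rw [Finset.prod_insert hj, Finset.sum_insert hj, hv.mul _ _ (hf j (Finset.mem_insert_self j S))
      (Finset.prod_ne_zero_iff.2 (fun i hi => hf i (Finset.mem_insert_of_mem hi))),
      ih (fun i hi => hf i (Finset.mem_insert_of_mem hi))]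

theorem val_pow (q : ℕ) (Q : ℤ[X]) (v : ℂ → ℚ) (hv : Ordinary q Q v) (x : ℂ) (hx : x ≠ 0)
    (n : ℕ) : v (x ^ n) = n * v x := by
  have h := val_prod q Q v hv (Finset.range n) (fun _ => x) (fun _ _ => hx)
  rw [Finset.prod_const, Finset.card_range, Finset.sum_const, Finset.card_range,
    nsmul_eq_mul] at h
  exact h

theorem powers (q : ℕ) (hq : Odd q) (M : ℕ) (hM : M.Prime) (hM2 : M ≠ 2)
    (hℓ : (2 * M + 1).Prime) (Q : ℤ[X]) (hQ : ModTwo (2 * M + 1) Q)
    (hnorm : ∀ β : ℂ, Root Q β → ‖β‖ = q) (v : ℂ → ℚ) (hv : Ordinary q Q v)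
    (hv1 : ∃ β : ℂ, Root Q β ∧ v β = 1) (hodd : Odd {β : ℂ | Root Q β ∧ v β = 0}.ncard) :
    TateAll q Q := by
  classical
  have hM3 : 3 ≤ M := by
    have := hM.two_le
    omega
  have hF : Fact (2 * M + 1).Prime := ⟨hℓ⟩
  have hℓodd : Odd (2 * M + 1) := ⟨M, rfl⟩
  have hF2 : Fact (Nat.Prime 2) := ⟨Nat.prime_two⟩
  obtain ⟨κ, hκ, r, hr⟩ := Pool.Agent.Helper2.Tate.exists_reduction 2
  have h2 : r 2 = 0 := by exact_mod_cast hr
  obtain ⟨t, c, hcM, hcord, ht⟩ := exists_tau q hq M hM hM2 Q hQ hnorm r h2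
  have hq1 : r ((q : ℕ) : integralClosure ℤ ℂ) = 1 := by
    obtain ⟨t, rfl⟩ := hq
    push_cast
    rw [map_add, map_mul, h2, zero_mul, map_one, zero_add]
  have hq0 : (q : ℂ) ≠ 0 := by
    obtain ⟨t, rfl⟩ := hq
    have : (2 * t + 1 : ℕ) ≠ 0 := by omega
    exact_mod_cast this
  -- the base point
  obtain ⟨β₁, hβ₁, hvβ₁⟩ := hv1
  set x₀ : integralClosure ℤ ℂ := ⟨β₁, isIntegral_root Q hQ.1 β₁ hβ₁⟩ with hx₀
  set x : ℕ → integralClosure ℤ ℂ := fun j => (⇑t)^[j] x₀ with hx
  have hxs : ∀ j, x (j + 1) = t (x j) := by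
    intro j
    simp only [hx, Function.iterate_succ_apply']
  have hxroot : ∀ j, Root Q (x j : ℂ) := by
    intro j
    induction j with
    | zero => exact hβ₁
    | succ j ih =>
      rw [hxs]
      exact root_map Q t (x j) ih
  obtain ⟨hz1, hz2⟩ := red_root r h2 (2 * M + 1) hℓodd Q hQ x₀ hβ₁
  set z := r x₀ with hz
  have hrx : ∀ j, r (x j) = z ^ (c ^ j) := by
    intro j
    induction j with
    | zero => simp [hx, hz]
    | succ j ih =>
      rw [hxs, ht (x j) (hxroot j), ih, ← pow_mul, pow_succ]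
  have hordz : orderOf z = 2 * M + 1 := orderOf_eq_prime hz1 hz2
  have hz0 : z ≠ 0 := by
    intro h
    rw [h, zero_pow (by omega)] at hz1
    exact zero_ne_one hz1
  have hpow : ∀ a b : ℕ, z ^ a = z ^ b ↔ (a : ZMod (2 * M + 1)) = b := by
    intro a b
    have hu : IsUnit z := isUnit_iff_ne_zero.2 hz0
    obtain ⟨u, hu⟩ := hu
    have hou : orderOf u = 2 * M + 1 := by rw [← orderOf_units, hu, hordz]
    rw [← hu, ← Units.val_pow_eq_pow_val, ← Units.val_pow_eq_pow_val, Units.val_inj,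
      pow_eq_pow_iff_modEq, hou, ZMod.natCast_eq_natCast_iff]
  have hinj : ∀ i j, x i = x j ↔ i ≡ j [MOD 2 * M] := by
    intro i j
    have h1 : (c : ZMod (2 * M + 1)) ≠ 0 := by
      intro h
      rw [h, zero_pow (by omega)] at hcM
      have := congrArg (fun a : ZMod (2 * M + 1) => a + 1) hcM
      simp at this
    have h3 : x i = x j ↔ (c : ZMod (2 * M + 1)) ^ i = (c : ZMod (2 * M + 1)) ^ j := by
      constructor
      · intro h
        have h4 := congrArg r h
        rw [hrx, hrx, hpow] at h4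
        push_cast at h4
        exact h4
      · intro h
        apply red_inj r h2 (2 * M + 1) hℓodd Q hQ _ _ (hxroot i) (hxroot j)
        rw [hrx, hrx, hpow]
        push_cast
        exact h
    rw [h3]
    obtain ⟨u, hu⟩ : IsUnit (c : ZMod (2 * M + 1)) := isUnit_iff_ne_zero.2 h1
    have hou : orderOf u = 2 * M := by rw [← orderOf_units, hu, hcord]
    rw [← hu, ← Units.val_pow_eq_pow_val, ← Units.val_pow_eq_pow_val, Units.val_inj,
      pow_eq_pow_iff_modEq, hou]
  have hconj : ∀ j, x (j + M) = conjO (x j) := by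
    intro j
    have hc : Root Q ((conjO (x j) : integralClosure ℤ ℂ) : ℂ) := root_map Q conjO (x j) (hxroot j)
    apply red_inj r h2 (2 * M + 1) hℓodd Q hQ _ _ (hxroot _) hc
    have h4 := congrArg r (mul_conjO q Q hnorm (x j) (hxroot j))
    rw [map_mul, map_pow, hq1, one_pow, hrx] at h4
    apply mul_left_cancel₀ (pow_ne_zero (c ^ j) hz0)
    rw [h4, hrx, ← pow_add]
    have h5 : z ^ (c ^ j + c ^ (j + M)) = z ^ 0 := by
      rw [hpow]
      push_cast
      rw [pow_add, hcM]
      ring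
    rw [h5, pow_zero]
  have hxne : ∀ j, (x j : ℂ) ≠ 0 := by
    intro j h
    have h1 := hnorm _ (hxroot j)
    rw [h, norm_zero] at h1
    exact hq0 (by exact_mod_cast h1.symm)
  have hxx : ∀ j, (x j : ℂ) * (x (j + M) : ℂ) = (q : ℂ) ^ 2 := by
    intro j
    have h1 := congrArg (fun y : integralClosure ℤ ℂ => (y : ℂ)) (mul_conjO q Q hnorm (x j) (hxroot j))
    rw [hconj]
    push_cast at h1
    exact h1
  -- the set of roots
  have hXinj : Set.InjOn (fun j => (x j : ℂ)) (Finset.range (2 * M) : Set ℕ) := by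
    intro i hi j hj hij
    rw [Finset.mem_coe, Finset.mem_range] at hi hj
    have h1 : x i = x j := Subtype.ext hij
    have h3 := (hinj i j).1 h1
    exact Nat.ModEq.eq_of_lt_of_lt h3 hi hj
  have hnd := nodup (2 * M + 1) hℓodd Q hQ
  have hmemroots : ∀ β : ℂ, β ∈ (Q.map (Int.castRingHom ℂ)).roots ↔ Root Q β := by
    intro β
    rw [mem_roots (Polynomial.map_ne_zero_iff (RingHom.injective_int (Int.castRingHom ℂ)) |>.2
      hQ.1.ne_zero), IsRoot, eval_map]
    rfl
  have hcardroots : (Q.map (Int.castRingHom ℂ)).roots.card = 2 * M := by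
    rw [← (IsAlgClosed.splits (Q.map (Int.castRingHom ℂ))).natDegree_eq_card_roots,
      hQ.1.natDegree_map]
    have := hQ.2.1
    omega
  have himage : (Finset.range (2 * M)).image (fun j => (x j : ℂ)) =
      (Q.map (Int.castRingHom ℂ)).roots.toFinset := by
    apply Finset.eq_of_subset_of_card_le
    · intro β hβ
      rw [Finset.mem_image] at hβ
      obtain ⟨j, -, rfl⟩ := hβ
      rw [Multiset.mem_toFinset, hmemroots]
      exact hxroot j
    · rw [Multiset.toFinset_card_of_nodup hnd, hcardroots, Finset.card_image_of_injOn hXinj,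
        Finset.card_range]
  have hall : ∀ β : ℂ, Root Q β → ∃ j < 2 * M, (x j : ℂ) = β := by
    intro β hβ
    have h1 : β ∈ (Finset.range (2 * M)).image (fun j => (x j : ℂ)) := by
      rw [himage, Multiset.mem_toFinset, hmemroots]
      exact hβ
    rw [Finset.mem_image] at h1
    obtain ⟨j, hj, hjβ⟩ := h1
    exact ⟨j, Finset.mem_range.1 hj, hjβ⟩
  -- the values
  have hvx : ∀ j, v (x (j + M) : ℂ) = 2 - v (x j : ℂ) := by
    intro j
    have h1 := hv.mul _ _ (hxne j) (hxne (j + M))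
    rw [hxx, val_pow q Q v hv _ hq0, hv.base] at h1
    push_cast at h1
    linarith
  have hw : ∀ j, ∃ w : ℤ, (w : ℚ) = v (x j : ℂ) - 1 ∧ (w = -1 ∨ w = 0 ∨ w = 1) := by
    intro j
    rcases hv.slopes _ (hxroot j) with h | h | h
    · exact ⟨-1, by rw [h]; norm_num, Or.inl rfl⟩
    · exact ⟨0, by rw [h]; norm_num, Or.inr (Or.inl rfl)⟩
    · exact ⟨1, by rw [h]; norm_num, Or.inr (Or.inr rfl)⟩
  choose w hw1 hw2 using hw
  have hwM : ∀ j, w (j + M) = - w j := by
    intro j
    have h1 : (w (j + M) : ℚ) = ((- w j : ℤ) : ℚ) := by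
      push_cast
      rw [hw1, hw1, hvx]
      ring
    exact_mod_cast h1
  -- the odd number
  have hcount : {β : ℂ | Root Q β ∧ v β = 0}.ncard =
      ((Finset.range M).filter (fun j => w j ≠ 0)).card := by
    have h1 : {β : ℂ | Root Q β ∧ v β = 0} =
        (((Finset.range (2 * M)).filter (fun j => w j = -1)).image (fun j => (x j : ℂ)) :
          Finset ℂ) := by
      ext β
      simp only [Set.mem_ofPred_eq, Finset.coe_image, Set.mem_image, Finset.mem_coe,
        Finset.mem_filter, Finset.mem_range]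
      constructor
      · rintro ⟨h3, h4⟩
        obtain ⟨j, hj, hjβ⟩ := hall β h3
        refine ⟨j, ⟨hj, ?_⟩, hjβ⟩
        have h5 := hw1 j
        rw [hjβ, h4] at h5
        have h6 : (w j : ℚ) = ((-1 : ℤ) : ℚ) := by rw [h5]; norm_num
        exact_mod_cast h6
      · rintro ⟨j, ⟨hj, hwj⟩, rfl⟩
        refine ⟨hxroot j, ?_⟩
        have h5 := hw1 j
        rw [hwj] at h5
        push_cast at h5
        linarith
    rw [h1, Set.ncard_coe_finset, Finset.card_image_of_injOn (hXinj.mono (by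
      intro j hj
      exact Finset.mem_coe.2 (Finset.mem_filter.1 (Finset.mem_coe.1 hj)).1))]
    have h3 : 2 * M = M + M := two_mul M
    rw [Finset.card_filter, h3, Finset.sum_range_add, Finset.card_filter, ← Finset.sum_add_distrib]
    apply Finset.sum_congr rfl
    intro j _
    have h4 : w (M + j) = - w j := by rw [add_comm]; exact hwM j
    rw [h4]
    rcases hw2 j with h | h | h <;> rw [h] <;> norm_num
  intro n m k hm hrel
  -- the relation in terms of the `x j`
  set n' : ℕ → ℤ := fun j => n (x j : ℂ) with hn'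
  have hrel1 : (∏ j ∈ Finset.range (2 * M), (x j : ℂ) ^ n' j) ^ m = (q : ℂ) ^ k := by
    rw [← hrel]
    congr 1
    have h1 : ((Q.map (Int.castRingHom ℂ)).roots.map (fun β => β ^ n β)).prod =
        ∏ β ∈ (Q.map (Int.castRingHom ℂ)).roots.toFinset, β ^ n β := by
      rw [Finset.prod, Multiset.toFinset_val, hnd.dedup]
    rw [h1, ← himage, Finset.prod_image hXinj]
  -- natural exponents
  obtain ⟨N, hN⟩ : ∃ N : ℕ, (∀ j < 2 * M, 0 ≤ n' j + N) ∧ 0 ≤ k + 2 * M * N * m := by
    refine ⟨k.natAbs + ∑ j ∈ Finset.range (2 * M), (n' j).natAbs, ?_, ?_⟩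
    · intro j hj
      have h1 : (n' j).natAbs ≤ ∑ j ∈ Finset.range (2 * M), (n' j).natAbs :=
        Finset.single_le_sum (f := fun j => (n' j).natAbs) (fun _ _ => Nat.zero_le _)
          (Finset.mem_range.2 hj)
      have h3 : (n' j).natAbs ≤ k.natAbs + ∑ j ∈ Finset.range (2 * M), (n' j).natAbs :=
        h1.trans (Nat.le_add_left _ _)
      have h4 : ((n' j).natAbs : ℤ) ≤
          ((k.natAbs + ∑ j ∈ Finset.range (2 * M), (n' j).natAbs : ℕ) : ℤ) := by exact_mod_cast h3
      have h5 : -((n' j).natAbs : ℤ) ≤ n' j := by omega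
      linarith
    · have h1 : (k.natAbs : ℤ) ≤ 2 * M * ((k.natAbs + ∑ j ∈ Finset.range (2 * M),
          (n' j).natAbs : ℕ) : ℤ) * m := by
        have h3 : k.natAbs ≤ 2 * M * (k.natAbs + ∑ j ∈ Finset.range (2 * M), (n' j).natAbs) * m := by
          calc k.natAbs ≤ 1 * (k.natAbs + ∑ j ∈ Finset.range (2 * M), (n' j).natAbs) * 1 := by
                omega
            _ ≤ 2 * M * (k.natAbs + ∑ j ∈ Finset.range (2 * M), (n' j).natAbs) * m := by
                apply Nat.mul_le_mul _ hm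
                apply Nat.mul_le_mul_right
                omega
        exact_mod_cast h3
      have h3 : -(k.natAbs : ℤ) ≤ k := by omega
      linarith
  obtain ⟨hN1, hN2⟩ := hN
  set e : ℕ → ℕ := fun j => (n' j + N).toNat with he
  obtain ⟨K, hK⟩ := Int.eq_ofNat_of_zero_le hN2
  have hprodall : ∏ j ∈ Finset.range (2 * M), (x j : ℂ) = (q : ℂ) ^ (2 * M) := by
    have h1 : ∀ j ∈ Finset.range M, (x j : ℂ) * (x (M + j) : ℂ) = (q : ℂ) ^ 2 := by
      intro j _
      rw [add_comm M j]
      exact hxx j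
    rw [two_mul, Finset.prod_range_add, ← Finset.prod_mul_distrib, Finset.prod_congr rfl h1,
      Finset.prod_const, Finset.card_range, ← pow_mul, two_mul]
  have hrel2 : (∏ j ∈ Finset.range (2 * M), (x j : ℂ) ^ e j) ^ m = (q : ℂ) ^ K := by
    have h1 : ∏ j ∈ Finset.range (2 * M), (x j : ℂ) ^ e j =
        (∏ j ∈ Finset.range (2 * M), (x j : ℂ) ^ n' j) * ((q : ℂ) ^ (2 * M)) ^ N := by
      rw [← hprodall, ← Finset.prod_pow, ← Finset.prod_mul_distrib]
      apply Finset.prod_congr rfl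
      intro j hj
      rw [← zpow_natCast, ← zpow_natCast ((x j : ℂ)) N, ← zpow_add₀ (hxne j)]
      congr 1
      simp only [he]
      rw [Int.toNat_of_nonneg (hN1 j (Finset.mem_range.1 hj))]
    rw [h1, mul_pow, hrel1, ← zpow_natCast (q : ℂ) K]
    have h3 : (K : ℤ) = k + 2 * M * N * m := hK.symm
    rw [h3, zpow_add₀ hq0]
    congr 1
    rw [← pow_mul, ← pow_mul, ← zpow_natCast]
    congr 1
    push_cast
    ring
  have hrel3 : (∏ j ∈ Finset.range (2 * M), x j ^ e j) ^ m =
      ((q : ℕ) : integralClosure ℤ ℂ) ^ K := by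
    apply Subtype.ext
    push_cast
    exact hrel2
  have hrel4 : ∀ i, (∏ j ∈ Finset.range (2 * M), x (j + i) ^ e j) ^ m =
      ((q : ℕ) : integralClosure ℤ ℂ) ^ K := by
    intro i
    induction i with
    | zero => exact hrel3
    | succ i ih =>
      have h1 := congrArg t ih
      rw [map_pow, map_prod, map_pow, map_natCast] at h1
      rw [← h1]
      congr 1
      apply Finset.prod_congr rfl
      intro j _
      rw [map_pow, ← hxs, add_assoc]
  have hval : ∀ i, (m : ℚ) * ∑ j ∈ Finset.range (2 * M), (e j : ℚ) * v (x (j + i) : ℂ) = K := by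
    intro i
    have h1 := congrArg (fun y : integralClosure ℤ ℂ => (y : ℂ)) (hrel4 i)
    push_cast at h1
    have h3 := congrArg v h1
    rw [val_pow q Q v hv _ (Finset.prod_ne_zero_iff.2 (fun j _ => pow_ne_zero _ (hxne _))),
      val_pow q Q v hv _ hq0, hv.base,
      val_prod q Q v hv _ _ (fun j _ => pow_ne_zero _ (hxne _))] at h3
    rw [mul_one] at h3
    rw [← h3]
    congr 1
    apply Finset.sum_congr rfl
    intro j _
    rw [val_pow q Q v hv _ (hxne _)]
  have hsum : ∀ i, ∑ j ∈ Finset.range (2 * M), (e j : ℤ) * w (j + i) = 0 := by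
    intro i
    have h1 := hval i
    have h3 := hval (i + M)
    have h4 : ∀ j, v (x (j + i) : ℂ) = (w (j + i) : ℚ) + 1 := by
      intro j; rw [hw1]; ring
    have h5 : ∀ j, v (x (j + (i + M)) : ℂ) = - (w (j + i) : ℚ) + 1 := by
      intro j
      rw [← add_assoc, hvx, h4]
      ring
    simp only [h4] at h1
    simp only [h5] at h3
    have hm0 : (m : ℚ) ≠ 0 := by
      have : m ≠ 0 := by omega
      exact_mod_cast this
    have h6 : (m : ℚ) * (∑ j ∈ Finset.range (2 * M), (e j : ℚ) * ((w (j + i) : ℚ) + 1) -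
        ∑ j ∈ Finset.range (2 * M), (e j : ℚ) * (-(w (j + i) : ℚ) + 1)) = 0 := by
      rw [mul_sub, h1, h3, sub_self]
    rw [← Finset.sum_sub_distrib] at h6
    have h7 : ∑ j ∈ Finset.range (2 * M), ((e j : ℚ) * ((w (j + i) : ℚ) + 1) -
        (e j : ℚ) * (-(w (j + i) : ℚ) + 1)) =
        2 * ((∑ j ∈ Finset.range (2 * M), (e j : ℤ) * w (j + i) : ℤ) : ℚ) := by
      push_cast
      rw [Finset.mul_sum]
      apply Finset.sum_congr rfl
      intro j _
      ring
    rw [h7] at h6
    rcases mul_eq_zero.1 h6 with h8 | h8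
    · exact absurd h8 hm0
    · have h9 : ((∑ j ∈ Finset.range (2 * M), (e j : ℤ) * w (j + i) : ℤ) : ℚ) = 0 := by linarith
      exact_mod_cast h9
  have hper : ∀ j, x (j + 2 * M) = x j := by
    intro j
    rw [hinj]
    unfold Nat.ModEq
    simp
  have hfin := pow_alg M hM hM2 w (fun j => (e j : ℤ)) hw2 hwM (by
      intro j
      simp only [he, hn', hper]) (by rw [← hcount]; exact hodd) (by
      obtain ⟨j, hj, hjβ⟩ := hall β₁ hβ₁
      refine ⟨j, ?_⟩
      have h5 := hw1 j
      rw [hjβ, hvβ₁, sub_self] at h5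
      exact_mod_cast h5) hsum
  -- conclusion
  have hnn : ∀ j < M, n' (j + M) = n' j := by
    intro j hj
    have h1 := hfin j
    simp only [he] at h1
    rw [Int.toNat_of_nonneg (hN1 j (by omega)), Int.toNat_of_nonneg (hN1 (j + M) (by omega))] at h1
    omega
  intro β hβ
  obtain ⟨j, hj, hjβ⟩ := hall β hβ
  have hcβ : starRingEnd ℂ β = (x (j + M) : ℂ) := by
    rw [hconj, conjO_val, hjβ]
  rw [hcβ, ← hjβ]
  change n' (j + M) = n' j
  rcases Nat.lt_or_ge j M with hlt | hge
  · exact hnn j hlt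
  · obtain ⟨i, rfl⟩ : ∃ i, j = i + M := ⟨j - M, by omega⟩
    have h1 := hnn i (by omega)
    rw [h1]
    have h3 : n' (i + M + M) = n' i := by
      simp only [hn']
      rw [show i + M + M = i + 2 * M by ring, hper]
    exact h3

end Pool.Agent.Helper14.TX
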