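import Pool.Agent.Helper14.TX.Red

/-!
# Products of roots: extensions of degree prime to the degrees

PROOF. Take `κ, r` from `Pool.Agent.Helper2.Tate.exists_reduction 2`, write `α k` (`k ∈ S`) as
elements of `integralClosure ℤ ℂ` (`isIntegral_root`) and let `z k = r (α k)`; by `red_root`
`(z k) ^ (d k) = 1`, `z k ≠ 1`. If the product had `m`-th power `q ^ (|S| m)` then
`(∏ z k) ^ m = 1` as `q` is odd. Choose `k₀ ∈ S` and raise to the power `∏ (k ∈ S, k ≠ k₀), d k`: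
`(z k₀) ^ (m * ∏ ...) = 1` with exponent prime to `d k₀`, so `z k₀ = 1`, a contradiction.
-/

set_option autoImplicit false

open Polynomial

namespace Pool.Agent.Helper14.TX

theorem prod_coprime (q : ℕ) (hq : Odd q) {K : Type} (S : Finset K) (hS : S.Nonempty) (d : K → ℕ)
    (Q : K → ℤ[X]) (hQ : ∀ k ∈ S, ModTwo (d k) (Q k)) (hd : ∀ k ∈ S, Odd (d k))
    (hcop : ∀ j ∈ S, ∀ k ∈ S, j ≠ k → Nat.Coprime (d j) (d k)) (α : K → ℂ)
    (hα : ∀ k ∈ S, Root (Q k) (α k)) (m : ℕ) (hm : ∀ k ∈ S, Nat.Coprime m (d k)) :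
    (∏ k ∈ S, α k) ^ m ≠ (q : ℂ) ^ (S.card * m) := by
  classical
  intro h
  have : Fact (Nat.Prime 2) := ⟨Nat.prime_two⟩
  obtain ⟨κ, hκ, r, hr⟩ := Pool.Agent.Helper2.Tate.exists_reduction 2
  have h2 : r 2 = 0 := by exact_mod_cast hr
  set β : K → integralClosure ℤ ℂ := fun k =>
    if hk : k ∈ S then ⟨α k, isIntegral_root (Q k) (hQ k hk).1 (α k) (hα k hk)⟩ else 1 with hβ
  have hβα : ∀ k ∈ S, ((β k : integralClosure ℤ ℂ) : ℂ) = α k := by
    intro k hk
    rw [hβ]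
    simp only [hk, dif_pos]
  have hprod : (∏ k ∈ S, β k) ^ m = ((q : ℕ) : integralClosure ℤ ℂ) ^ (S.card * m) := by
    apply Subtype.ext
    push_cast
    rw [Finset.prod_congr rfl hβα]
    exact h
  have hq1 : r ((q : ℕ) : integralClosure ℤ ℂ) = 1 := by
    obtain ⟨t, rfl⟩ := hq
    push_cast
    rw [map_add, map_mul, h2, zero_mul, map_one, zero_add]
  have hz : (∏ k ∈ S, r (β k)) ^ m = 1 := by
    have := congrArg r hprod
    rw [map_pow, map_prod, map_pow, hq1, one_pow] at this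
    exact this
  have hroot : ∀ k ∈ S, r (β k) ^ d k = 1 ∧ r (β k) ≠ 1 := by
    intro k hk
    apply red_root r h2 (d k) (hd k hk) (Q k) (hQ k hk) (β k)
    rw [hβα k hk]
    exact hα k hk
  obtain ⟨k₀, hk₀⟩ := hS
  set D : ℕ := ∏ k ∈ S.erase k₀, d k with hD
  have hz2 : r (β k₀) ^ (m * D) = 1 := by
    have e1 : (∏ k ∈ S, r (β k)) ^ (m * D) = 1 := by
      rw [pow_mul, hz, one_pow]
    rw [← Finset.mul_prod_erase S (fun k => r (β k)) hk₀, mul_pow, ← Finset.prod_pow] at e1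
    have e2 : ∏ k ∈ S.erase k₀, r (β k) ^ (m * D) = 1 := by
      apply Finset.prod_eq_one
      intro k hk
      have hkS := Finset.mem_of_mem_erase hk
      obtain ⟨c, hc⟩ := Finset.dvd_prod_of_mem d hk
      rw [hD, hc, ← mul_assoc, mul_comm m, mul_assoc, pow_mul, (hroot k hkS).1, one_pow]
    rwa [e2, mul_one] at e1
  have hcop' : Nat.gcd (m * D) (d k₀) = 1 := by
    apply Nat.Coprime.mul_left (hm k₀ hk₀)
    apply Nat.Coprime.prod_left
    intro k hk
    exact hcop k (Finset.mem_of_mem_erase hk) k₀ hk₀ (Finset.ne_of_mem_erase hk)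
  have hfin := pow_gcd_eq_one.mpr ⟨hz2, (hroot k₀ hk₀).1⟩
  rw [hcop', pow_one] at hfin
  exact (hroot k₀ hk₀).2 hfin

end Pool.Agent.Helper14.TX
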