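import Pool.Agent.Helper14.TX.Defs
import Pool.Agent.Helper2.Tate.Poly

/-!
# Reduction of the roots at a place above two

Everywhere `r` is a ring homomorphism from the ring of algebraic integers to a field with `r 2 = 0`.
-/

set_option autoImplicit false

open Polynomial

namespace Pool.Agent.Helper14.TX

/-- The hypothesis on the reduction modulo two: `Q` is `1 + X + ... + X ^ (d - 1)` modulo two. -/
def ModTwo (d : ℕ) (Q : ℤ[X]) : Prop :=
  Q.Monic ∧ Q.natDegree + 1 = d ∧ Q.map (Int.castRingHom (ZMod 2)) = ∑ i ∈ Finset.range d, X ^ i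

theorem isIntegral_root (Q : ℤ[X]) (hQ : Q.Monic) (α : ℂ) (h : Root Q α) :
    α ∈ integralClosure ℤ ℂ := by
  rw [mem_integralClosure_iff]
  exact ⟨Q, hQ, by rw [← aeval_def]; exact h⟩

section

variable {κ : Type} [Field κ] (r : integralClosure ℤ ℂ →+* κ)

theorem red_two' (h2 : r 2 = 0) : (2 : κ) = 0 := by
  rw [← h2, map_ofNat]

theorem red_charP (h2 : r 2 = 0) : CharP κ 2 :=
  CharTwo.of_one_ne_zero_of_two_eq_zero one_ne_zero (red_two' r h2)

theorem odd_cast (h2 : (2 : κ) = 0) (n : ℕ) (hn : Odd n) : (n : κ) = 1 := by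
  obtain ⟨k, rfl⟩ := hn
  push_cast
  rw [h2]
  ring

/-- Roots of unity of odd order with trivial reduction are trivial.
PROOF. `z ^ n = 1` and `z ≠ 1` give `1 + z + ... + z ^ (n - 1) = 0`, whose reduction is `n = 1` if
`r z = 1`. -/
theorem red_odd (h2 : r 2 = 0) (n : ℕ) (hn : Odd n) (z : integralClosure ℤ ℂ) (hz : z ^ n = 1)
    (hr : r z = 1) : z = 1 := by
  by_contra hne
  have h1 : (∑ i ∈ Finset.range n, z ^ i) * (z - 1) = 0 := by
    rw [geom_sum_mul, hz, sub_self]
  rcases mul_eq_zero.1 h1 with h3 | h3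
  · have h4 := congrArg r h3
    rw [map_sum, map_zero] at h4
    simp only [map_pow, hr, one_pow, Finset.sum_const, Finset.card_range, nsmul_eq_mul,
      mul_one] at h4
    rw [odd_cast (red_two' r h2) n hn] at h4
    exact one_ne_zero h4
  · exact hne (sub_eq_zero.1 h3)

/-- Roots of unity of order a power of two have trivial reduction.
PROOF. `(r z - 1) ^ (2 ^ k) = (r z) ^ (2 ^ k) - 1 = 0` in characteristic two. -/
theorem red_two (h2 : r 2 = 0) (k : ℕ) (z : integralClosure ℤ ℂ) (hz : z ^ (2 ^ k) = 1) :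
    r z = 1 := by
  have := red_charP r h2
  have : Fact (Nat.Prime 2) := ⟨Nat.prime_two⟩
  have h1 : (r z - 1) ^ (2 ^ k) = 0 := by
    rw [sub_pow_char_pow, ← map_pow, hz, map_one, one_pow, sub_self]
  exact sub_eq_zero.1 (pow_eq_zero_iff (by positivity) |>.1 h1)

/-- Roots of unity with trivial reduction have order a power of two.
PROOF. Write `n = 2 ^ k * n'`, `n'` odd, and apply `red_odd` to `z ^ (2 ^ k)`. -/
theorem red_one (h2 : r 2 = 0) (n : ℕ) (hn : 1 ≤ n) (z : integralClosure ℤ ℂ) (hz : z ^ n = 1)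
    (hr : r z = 1) : ∃ k : ℕ, z ^ (2 ^ k) = 1 := by
  obtain ⟨k, m, hm, hkm⟩ := Nat.exists_eq_two_pow_mul_odd (n := n) (by omega)
  refine ⟨k, red_odd r h2 m hm _ ?_ ?_⟩
  · rw [← pow_mul, ← hkm, hz]
  · rw [map_pow, hr, one_pow]

theorem map_sum_pow (h2 : r 2 = 0) (d : ℕ) (Q : ℤ[X]) (hQ : ModTwo d Q) :
    Q.map (Int.castRingHom κ) = ∑ i ∈ Finset.range d, X ^ i := by
  have := red_charP r h2
  have h1 : (Int.castRingHom κ) = (ZMod.castHom (dvd_refl 2) κ).comp (Int.castRingHom (ZMod 2)) :=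
    RingHom.ext_int _ _
  rw [h1, ← Polynomial.map_map, hQ.2.2, Polynomial.map_sum]
  simp only [Polynomial.map_pow, map_X]

theorem eval_red (P : ℤ[X]) (α : integralClosure ℤ ℂ) (h : aeval (α : ℂ) P = 0) :
    (P.map (Int.castRingHom κ)).eval (r α) = 0 := by
  have h1 : P.eval₂ (Int.castRingHom (integralClosure ℤ ℂ)) α = 0 := by
    apply Subtype.ext
    have h3 : ((P.eval₂ (Int.castRingHom (integralClosure ℤ ℂ)) α : integralClosure ℤ ℂ) : ℂ) =
        (algebraMap (integralClosure ℤ ℂ) ℂ)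
          (P.eval₂ (Int.castRingHom (integralClosure ℤ ℂ)) α) := rfl
    rw [h3, hom_eval₂]
    have h4 : (algebraMap (integralClosure ℤ ℂ) ℂ).comp
        (Int.castRingHom (integralClosure ℤ ℂ)) = algebraMap ℤ ℂ := RingHom.ext_int _ _
    rw [h4]
    exact h
  rw [eval_map]
  have h5 : (Int.castRingHom κ) = r.comp (Int.castRingHom (integralClosure ℤ ℂ)) :=
    RingHom.ext_int _ _
  rw [h5, ← hom_eval₂, h1, map_zero]

theorem geom_root (h2 : (2 : κ) = 0) (d : ℕ) (hd : Odd d) (x : κ)
    (hx : (∑ i ∈ Finset.range d, (X : κ[X]) ^ i).eval x = 0) : x ^ d = 1 ∧ x ≠ 1 := by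
  rw [eval_finsetSum] at hx
  simp only [eval_pow, eval_X] at hx
  constructor
  · have := geom_sum_mul x d
    rw [hx, zero_mul] at this
    exact (sub_eq_zero.1 this.symm)
  · rintro rfl
    simp only [one_pow, Finset.sum_const, Finset.card_range, nsmul_eq_mul, mul_one] at hx
    rw [odd_cast h2 d hd] at hx
    exact one_ne_zero hx

theorem geom_simple (h2 : (2 : κ) = 0) (d : ℕ) (hd : Odd d) (x : κ)
    (hx : (∑ i ∈ Finset.range d, (X : κ[X]) ^ i).eval x = 0) :
    (derivative (∑ i ∈ Finset.range d, (X : κ[X]) ^ i)).eval x ≠ 0 := by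
  intro h
  obtain ⟨h1, h3⟩ := geom_root h2 d hd x hx
  have h4 := congrArg derivative (geom_sum_mul (X : κ[X]) d)
  have h5 := congrArg (eval x) h4
  rw [derivative_mul, eval_add, eval_mul, eval_mul, h, hx, zero_mul, zero_mul, add_zero,
    derivative_sub, derivative_one, sub_zero, derivative_X_pow, eval_mul, eval_pow, eval_X,
    eval_C, odd_cast h2 d hd, one_mul] at h5
  have hx0 : x ≠ 0 := by
    rintro rfl
    rw [zero_pow (Nat.ne_of_odd_add (by simpa using hd))] at h1
    exact zero_ne_one h1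
  exact pow_ne_zero _ hx0 h5.symm

/-- The reductions of the roots are nontrivial `d`-th roots of unity.
PROOF. Apply `r` to `Q(α) = 0`: `∑ i < d, (r α) ^ i = 0` in the field `κ` of characteristic two (the
coefficients of `Q` are odd up to degree `d - 1`). So `(r α) ^ d = 1`, and `r α = 1` would give
`d = 0` in `κ`. -/
theorem red_root (h2 : r 2 = 0) (d : ℕ) (hd : Odd d) (Q : ℤ[X]) (hQ : ModTwo d Q)
    (α : integralClosure ℤ ℂ) (hα : Root Q α) : r α ^ d = 1 ∧ r α ≠ 1 := by
  have h1 := eval_red r Q α hα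
  rw [map_sum_pow r h2 d Q hQ] at h1
  exact geom_root (red_two' r h2) d hd _ h1

/-- Different roots have different reductions.
PROOF. If `α ≠ β` are roots then `(X - α) (X - β)` divides `Q` over the ring of algebraic integers
(a domain), so `(X - r α) (X - r β)` divides `∑ i < d, X ^ i`, a divisor of `X ^ d - 1`, over `κ`.
As `d` is odd `X ^ d - 1` is separable over `κ`, so `r α ≠ r β`. -/
theorem red_inj (h2 : r 2 = 0) (d : ℕ) (hd : Odd d) (Q : ℤ[X]) (hQ : ModTwo d Q)
    (α β : integralClosure ℤ ℂ) (hα : Root Q α) (hβ : Root Q β) (h : r α = r β) : α = β := by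
  by_contra hne
  have hev : ∀ γ : integralClosure ℤ ℂ, Root Q (γ : ℂ) →
      (Q.map (Int.castRingHom (integralClosure ℤ ℂ))).eval γ = 0 := by
    intro γ hγ
    apply Subtype.ext
    have h3 : (((Q.map (Int.castRingHom (integralClosure ℤ ℂ))).eval γ : integralClosure ℤ ℂ) : ℂ) =
        (algebraMap (integralClosure ℤ ℂ) ℂ)
          ((Q.map (Int.castRingHom (integralClosure ℤ ℂ))).eval γ) := rfl
    rw [h3, eval_map, hom_eval₂]
    have h4 : (algebraMap (integralClosure ℤ ℂ) ℂ).comp
        (Int.castRingHom (integralClosure ℤ ℂ)) = algebraMap ℤ ℂ := RingHom.ext_int _ _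
    rw [h4]
    exact hγ
  obtain ⟨R, hR⟩ := dvd_iff_isRoot.2
    (show (Q.map (Int.castRingHom (integralClosure ℤ ℂ))).IsRoot α from hev α hα)
  have h5 : R.eval β = 0 := by
    have h6 := hev β hβ
    rw [hR, eval_mul, eval_sub, eval_X, eval_C] at h6
    rcases mul_eq_zero.1 h6 with h7 | h7
    · exact absurd (sub_eq_zero.1 h7).symm hne
    · exact h7
  have h8 : Q.map (Int.castRingHom κ) = (X - C (r α)) * R.map r := by
    have h9 : (Int.castRingHom κ) = r.comp (Int.castRingHom (integralClosure ℤ ℂ)) :=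
      RingHom.ext_int _ _
    rw [h9, ← Polynomial.map_map, hR, Polynomial.map_mul, Polynomial.map_sub, map_X, map_C]
  have h10 : (R.map r).eval (r α) = 0 := by
    rw [h, eval_map, eval₂_at_apply, h5, map_zero]
  rw [map_sum_pow r h2 d Q hQ] at h8
  have h11 : (∑ i ∈ Finset.range d, (X : κ[X]) ^ i).eval (r α) = 0 := by
    rw [h8, eval_mul, h10, mul_zero]
  have h12 : (derivative (∑ i ∈ Finset.range d, (X : κ[X]) ^ i)).eval (r α) = 0 := by
    rw [h8, derivative_mul, eval_add, eval_mul, eval_mul, h10, mul_zero, eval_sub, eval_X, eval_C,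
      sub_self, zero_mul, add_zero]
  exact geom_simple (red_two' r h2) d hd _ h11 h12

end

/-- The roots of `Q` are simple.
PROOF. `Q` modulo two divides the separable polynomial `X ^ d - 1` (`d` odd). If `Q = (X - α) ^ 2 R`
over the ring of algebraic integers then reduce with `r` from
`Pool.Agent.Helper2.Tate.exists_reduction 2`. Or: a monic integral polynomial whose reduction modulo
a prime is separable is separable over the rational numbers (its discriminant is not `0`). -/
theorem nodup (d : ℕ) (hd : Odd d) (Q : ℤ[X]) (hQ : ModTwo d Q) :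
    (Q.map (Int.castRingHom ℂ)).roots.Nodup := by
  have : Fact (Nat.Prime 2) := ⟨Nat.prime_two⟩
  obtain ⟨κ, _, r, hr⟩ := Pool.Agent.Helper2.Tate.exists_reduction 2
  have h2 : r 2 = 0 := by
    simpa using hr
  rw [Multiset.nodup_iff_count_le_one]
  intro α
  by_contra hlt
  push Not at hlt
  rw [count_roots] at hlt
  have hne : Q.map (Int.castRingHom ℂ) ≠ 0 := (hQ.1.map _).ne_zero
  rw [one_lt_rootMultiplicity_iff_isRoot hne] at hlt
  obtain ⟨h3, h4⟩ := hlt
  have hα : Root Q α := by
    rw [Root, aeval_def, ← eval_map]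
    exact h3
  have hα' : aeval α (derivative Q) = 0 := by
    rw [aeval_def, ← eval_map, ← derivative_map]
    exact h4
  have hint := isIntegral_root Q hQ.1 α hα
  have h5 := eval_red r Q ⟨α, hint⟩ hα
  have h6 := eval_red r (derivative Q) ⟨α, hint⟩ hα'
  rw [← derivative_map, map_sum_pow r h2 d Q hQ] at h6
  rw [map_sum_pow r h2 d Q hQ] at h5
  exact geom_simple (red_two' r h2) d hd _ h5 h6

end Pool.Agent.Helper14.TX
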