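import Pool.Agent.Helper14.TX.Red

/-!
# The type of the roots
-/

set_option autoImplicit false

open Polynomial

namespace Pool.Agent.Helper14.TX

/-- The roots of `Q` among the algebraic integers. -/
def Rt (Q : ℤ[X]) : Type := {α : integralClosure ℤ ℂ // Root Q (α : ℂ)}

/-- Two roots are equivalent if they have a common power. -/
def Rel (Q : ℤ[X]) (x y : Rt Q) : Prop :=
  ∃ m : ℕ, 1 ≤ m ∧ ((x.1 : ℂ)) ^ m = ((y.1 : ℂ)) ^ m

/-- Equivalence of roots. -/
def relSetoid (Q : ℤ[X]) : Setoid (Rt Q) where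
  r := Rel Q
  iseqv := by
    refine ⟨fun x => ⟨1, le_rfl, rfl⟩, ?_, ?_⟩
    · rintro x y ⟨m, hm, h⟩
      exact ⟨m, hm, h.symm⟩
    · rintro x y z ⟨m, hm, h⟩ ⟨n, hn, h'⟩
      refine ⟨m * n, Nat.one_le_iff_ne_zero.2 (by positivity), ?_⟩
      rw [pow_mul, h, ← pow_mul, mul_comm, pow_mul, h', ← pow_mul]

/-- The roots as a finite set of complex numbers. -/
noncomputable def rtEquiv (Q : ℤ[X]) (hQ : Q.Monic) :
    Rt Q ≃ ↥((Q.map (Int.castRingHom ℂ)).roots.toFinset) where
  toFun x := ⟨(x.1 : ℂ), by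
    rw [Multiset.mem_toFinset, mem_roots (hQ.map _).ne_zero, IsRoot.def, eval_map]
    exact x.2⟩
  invFun y := ⟨⟨y.1, isIntegral_root Q hQ y.1 (by
    have := y.2
    rw [Multiset.mem_toFinset, mem_roots (hQ.map _).ne_zero, IsRoot.def, eval_map] at this
    exact this)⟩, by
    have := y.2
    rw [Multiset.mem_toFinset, mem_roots (hQ.map _).ne_zero, IsRoot.def, eval_map] at this
    exact this⟩
  left_inv x := by
    apply Subtype.ext
    apply Subtype.ext
    rfl
  right_inv y := by
    apply Subtype.ext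
    rfl

/-- The set of roots is finite and has `d - 1` elements. -/
theorem card_Rt (d : ℕ) (hd : Odd d) (Q : ℤ[X]) (hQ : ModTwo d Q) :
    Finite (Rt Q) ∧ Nat.card (Rt Q) + 1 = d := by
  have h1 := nodup d hd Q hQ
  refine ⟨Finite.of_equiv _ (rtEquiv Q hQ.1).symm, ?_⟩
  rw [Nat.card_congr (rtEquiv Q hQ.1), Nat.card_eq_fintype_card, Fintype.card_coe,
    Multiset.toFinset_card_of_nodup h1]
  have h2 : (Q.map (Int.castRingHom ℂ)).roots.card = (Q.map (Int.castRingHom ℂ)).natDegree :=
    (splits_iff_card_roots.1 (IsAlgClosed.splits _))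
  rw [h2, hQ.1.natDegree_map]
  exact hQ.2.1

theorem map_eq_prod (d : ℕ) (hd : Odd d) (Q : ℤ[X]) (hQ : ModTwo d Q) [Fintype (Rt Q)] :
    Q.map (Int.castRingHom (integralClosure ℤ ℂ)) = ∏ x : Rt Q, (X - C x.1) := by
  have hinj : Function.Injective (algebraMap (integralClosure ℤ ℂ) ℂ) := Subtype.val_injective
  apply Polynomial.map_injective _ hinj
  have h4 : (algebraMap (integralClosure ℤ ℂ) ℂ).comp
      (Int.castRingHom (integralClosure ℤ ℂ)) = Int.castRingHom ℂ := RingHom.ext_int _ _
  rw [Polynomial.map_map, h4, Polynomial.map_prod]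
  have h5 : Q.map (Int.castRingHom ℂ) =
      ∏ y : ↥((Q.map (Int.castRingHom ℂ)).roots.toFinset), (X - C (y : ℂ)) := by
    rw [Finset.prod_coe_sort _ (fun y : ℂ => (X - C y : ℂ[X])), Finset.prod,
      Multiset.toFinset_val, Multiset.dedup_eq_self.2 (nodup d hd Q hQ)]
    exact (prod_multiset_X_sub_C_of_monic_of_roots_card_eq (hQ.1.map _)
      (splits_iff_card_roots.1 (IsAlgClosed.splits _))).symm
  rw [h5]
  symm
  apply Fintype.prod_equiv (rtEquiv Q hQ.1)
  intro x
  rw [Polynomial.map_sub, map_X, map_C]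
  rfl

/-- The number of roots which are units at a place above `p`. PROOF. Over `κ` the polynomial `Q`
is the product of the `X - r x`, `x` a root (the roots are simple by `nodup`), so the number of
`x` with `r x = 0` is the order of vanishing at `0` of the image of `Q` in `κ[X]`, which is the
`natTrailingDegree` of `Q` modulo `p`. -/
theorem card_units (d : ℕ) (hd : Odd d) (Q : ℤ[X]) (hQ : ModTwo d Q) (p : ℕ) [Fact p.Prime]
    {κ : Type} [Field κ] (r : integralClosure ℤ ℂ →+* κ)
    (hr : r (p : integralClosure ℤ ℂ) = 0) :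
    Nat.card {x : Rt Q // r x.1 ≠ 0} = unitRoots p Q := by
  classical
  obtain ⟨hfin, hcard⟩ := card_Rt d hd Q hQ
  have hft : Fintype (Rt Q) := Fintype.ofFinite _
  have hp0 : (p : κ) = 0 := by rw [← hr, map_natCast]
  have hch : CharP κ p := (CharP.charP_iff_prime_eq_zero (Fact.out)).2 hp0
  have h1 : Q.map (Int.castRingHom κ) = ∏ x : Rt Q, (X - C (r x.1)) := by
    have h9 : (Int.castRingHom κ) = r.comp (Int.castRingHom (integralClosure ℤ ℂ)) :=
      RingHom.ext_int _ _
    rw [h9, ← Polynomial.map_map, map_eq_prod d hd Q hQ, Polynomial.map_prod]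
    simp only [Polynomial.map_sub, map_X, map_C]
  have h2 : (Int.castRingHom κ) = (ZMod.castHom (dvd_refl p) κ).comp (Int.castRingHom (ZMod p)) :=
    RingHom.ext_int _ _
  have h3 : (Q.map (Int.castRingHom (ZMod p))).natTrailingDegree =
      (Finset.univ.filter (fun x : Rt Q => r x.1 = 0)).card := by
    rw [← rootMultiplicity_eq_natTrailingDegree',
      eq_rootMultiplicity_map (ZMod.castHom (dvd_refl p) κ).injective, Polynomial.map_map, ← h2,
      map_zero, h1, ← count_roots]
    have h6 : (∏ x : Rt Q, (X - C (r x.1))) =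
        (((Finset.univ : Finset (Rt Q)).val.map (fun x => r x.1)).map
          (fun a => (X - C a : κ[X]))).prod := by
      rw [Multiset.map_map]
      rfl
    rw [h6, roots_multiset_prod_X_sub_C, Multiset.count_map, Finset.card_def, Finset.filter_val]
    congr 1
    apply Multiset.filter_congr
    intro x _
    exact eq_comm
  rw [unitRoots, h3, hQ.1.natDegree_map, Nat.card_eq_fintype_card, Fintype.card_subtype]
  have h4 : (Finset.univ.filter (fun x : Rt Q => r x.1 = 0)).card +
      (Finset.univ.filter (fun x : Rt Q => r x.1 ≠ 0)).card = Fintype.card (Rt Q) := by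
    rw [← Finset.card_univ]
    exact Finset.card_filter_add_card_filter_not _
  rw [Nat.card_eq_fintype_card] at hcard
  have h5 := hQ.2.1
  have h7 : (Finset.univ.filter (fun x : Rt Q => r x.1 ≠ 0)).card = Q.natDegree -
      (Finset.univ.filter (fun x : Rt Q => r x.1 = 0)).card := by omega
  convert h7

end Pool.Agent.Helper14.TX
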