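import Mathlib

/-!
# The sum over `t`

`Bn p n H` is the product of `H(X ^ (p ^ k))` over `k < n`.

PROOF of `sum_t`. For `t ∈ K`, `(p ^ n - 1) / (p - 1) = ∑ (k < n), p ^ k` and
`(H(t)) ^ (p ^ k) = H(t ^ (p ^ k))` as the coefficients of `H` are in `ZMod p`
(`ZMod.expand_card`, `frobenius`), so `(H(t)) ^ ((p ^ n - 1) / (p - 1)) = (Bn p n H)(t)`. Then sum
over `t` monomial by monomial: `∑ t, t ^ j` is `-1` if `j > 0` and `p ^ n - 1 ∣ j`, otherwise `0`.
Only the degrees `j = c * (p ^ n - 1)`, `1 ≤ c`, contribute; `hN` says that those with `c > N` are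
above the degree of `Bn p n H`: `natDegree (Bn p n H) = natDegree H * (p ^ n - 1) / (p - 1)` is less
than `(N + 1) * (p ^ n - 1)` if `natDegree H < (N + 1) * (p - 1)`.
-/

set_option autoImplicit false

open Polynomial

namespace Pool.Agent.Helper14.TX

/-- The product of the `H(X ^ (p ^ k))`, `k < n`. -/
noncomputable def Bn (p n : ℕ) (H : (ZMod p)[X]) : (ZMod p)[X] :=
  ∏ k ∈ Finset.range n, expand (ZMod p) (p ^ k) H

private lemma sumT_geom (p : ℕ) (hp : 1 < p) (n : ℕ) :
    ∑ k ∈ Finset.range n, p ^ k = (p ^ n - 1) / (p - 1) := Nat.geomSum_eq hp n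

private lemma sumT_geom' (p : ℕ) (hp : 1 < p) (n : ℕ) :
    (p ^ n - 1) / (p - 1) * (p - 1) = p ^ n - 1 := by
  have h1 : p - 1 ∣ p ^ n - 1 := by simpa using Nat.sub_dvd_pow_sub_pow p 1 n
  exact Nat.div_mul_cancel h1

private lemma sumT_powsum (K : Type) [Field K] [Fintype K] (i : ℕ) (hi : i ≠ 0) :
    ∑ x : K, x ^ i = if Fintype.card K - 1 ∣ i then -1 else 0 := by
  classical
  let φ : Kˣ ↪ K := ⟨fun x ↦ x, Units.val_injective⟩
  have h1 : Finset.univ.map φ = Finset.univ \ {0} := by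
    ext x
    simpa only [Finset.mem_map, Finset.mem_univ, Function.Embedding.coeFn_mk, true_and,
      Finset.mem_sdiff, Finset.mem_singleton, φ] using! isUnit_iff_ne_zero
  calc
    ∑ x : K, x ^ i = ∑ x ∈ Finset.univ \ {(0 : K)}, x ^ i := by
      rw [← Finset.sum_sdiff ({0} : Finset K).subset_univ, Finset.sum_singleton, zero_pow hi,
        add_zero]
    _ = ∑ x : Kˣ, (x ^ i : K) := by simp [φ, ← h1, Finset.univ.sum_map φ]
    _ = if Fintype.card K - 1 ∣ i then -1 else 0 := FiniteField.sum_pow_units K i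

private lemma sumT_eval (K : Type) [Field K] [Fintype K] (A : K[X]) (N : ℕ)
    (hA : A.natDegree < (N + 1) * (Fintype.card K - 1)) :
    ∑ x : K, A.eval x = - ∑ c ∈ Finset.Icc 1 N, A.coeff (c * (Fintype.card K - 1)) := by
  have hq : 1 < Fintype.card K := Fintype.one_lt_card
  set r := Fintype.card K - 1 with hr
  have hr0 : 0 < r := by omega
  simp_rw [eval_eq_sum_range' hA]
  rw [Finset.sum_comm]
  have key : ∀ i ∈ Finset.range ((N + 1) * r), ∑ x : K, A.coeff i * x ^ i =
      if i ≠ 0 ∧ r ∣ i then - A.coeff i else 0 := by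
    intro i hi
    rw [← Finset.mul_sum]
    by_cases h0 : i = 0
    · subst h0
      rw [if_neg (by simp), FiniteField.sum_pow_lt_card_sub_one K 0 (by omega), mul_zero]
    · rw [sumT_powsum K i h0]
      by_cases h1 : r ∣ i
      · rw [if_pos h1, if_pos ⟨h0, h1⟩]
        ring
      · rw [if_neg h1, if_neg (fun h => h1 h.2), mul_zero]
  rw [Finset.sum_congr rfl key, ← Finset.sum_filter, Finset.sum_neg_distrib]
  congr 1
  have himg : (Finset.range ((N + 1) * r)).filter (fun i => i ≠ 0 ∧ r ∣ i) =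
      (Finset.Icc 1 N).image (fun c => c * r) := by
    ext i
    simp only [Finset.mem_filter, Finset.mem_range, Finset.mem_image, Finset.mem_Icc]
    constructor
    · rintro ⟨h1, h2, ⟨c, rfl⟩⟩
      refine ⟨c, ⟨?_, ?_⟩, mul_comm _ _⟩
      · rcases Nat.eq_zero_or_pos c with rfl | h
        · simp at h2
        · exact h
      · rw [mul_comm r c] at h1
        have := Nat.lt_of_mul_lt_mul_right h1
        omega
    · rintro ⟨c, ⟨h1, h2⟩, rfl⟩
      refine ⟨Nat.mul_lt_mul_of_pos_right (by omega) hr0, ?_, dvd_mul_left _ _⟩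
      exact Nat.mul_ne_zero (by omega) (by omega)
  rw [himg, Finset.sum_image]
  intro a _ b _ hab
  exact Nat.eq_of_mul_eq_mul_right hr0 hab

/-- `H(X) * (H(X ^ p) * ... )`. -/
theorem Bn_succ (p : ℕ) [Fact p.Prime] (n : ℕ) (H : (ZMod p)[X]) :
    Bn p (n + 1) H = H * expand (ZMod p) p (Bn p n H) := by
  unfold Bn
  rw [Finset.prod_range_succ', pow_zero, expand_one, mul_comm, map_prod]
  congr 1
  refine Finset.prod_congr rfl fun k _ => ?_
  rw [expand_expand, pow_succ, mul_comm]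

private lemma sumT_Bn (p : ℕ) [Fact p.Prime] (n : ℕ) (H : (ZMod p)[X]) :
    Bn p n H = H ^ ((p ^ n - 1) / (p - 1)) := by
  have hp : p.Prime := Fact.out
  rw [← sumT_geom p hp.one_lt n]
  induction n with
  | zero => simp [Bn]
  | succ n ih =>
    rw [Bn_succ, ih, ZMod.expand_card, Finset.sum_range_succ', pow_zero, ← pow_mul,
      Finset.sum_mul, pow_add, pow_one, mul_comm]
    simp_rw [pow_succ]

theorem sum_t (p : ℕ) [Fact p.Prime] (K : Type) [Field K] [Fintype K] [Algebra (ZMod p) K]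
    (n : ℕ) (hn : 1 ≤ n) (hK : Fintype.card K = p ^ n) (H : (ZMod p)[X]) (N : ℕ)
    (hN : H.natDegree < (N + 1) * (p - 1)) :
    ∑ t : K, (aeval t H) ^ ((p ^ n - 1) / (p - 1)) =
      - algebraMap (ZMod p) K (∑ c ∈ Finset.Icc 1 N, (Bn p n H).coeff (c * (p ^ n - 1))) := by
  have hp : p.Prime := Fact.out
  have hqn : 1 < p ^ n := Nat.one_lt_pow (by omega) hp.one_lt
  have hs := sumT_geom' p hp.one_lt n
  have hs0 : 0 < (p ^ n - 1) / (p - 1) := by
    rcases Nat.eq_zero_or_pos ((p ^ n - 1) / (p - 1)) with h | h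
    · rw [h, zero_mul] at hs
      omega
    · exact h
  have hd : ((Bn p n H).map (algebraMap (ZMod p) K)).natDegree <
      (N + 1) * (Fintype.card K - 1) := by
    refine lt_of_le_of_lt natDegree_map_le ?_
    rw [sumT_Bn, hK]
    refine lt_of_le_of_lt natDegree_pow_le ?_
    calc (p ^ n - 1) / (p - 1) * H.natDegree
        < (p ^ n - 1) / (p - 1) * ((N + 1) * (p - 1)) := Nat.mul_lt_mul_of_pos_left hN hs0
      _ = (N + 1) * ((p ^ n - 1) / (p - 1) * (p - 1)) := by ring
      _ = (N + 1) * (p ^ n - 1) := by rw [hs]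
  have h := sumT_eval K _ N hd
  rw [hK] at h
  simp only [coeff_map] at h
  rw [map_sum, ← h]
  refine Finset.sum_congr rfl fun t _ => ?_
  rw [eval_map_algebraMap, sumT_Bn, map_pow]

end Pool.Agent.Helper14.TX
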