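import Pool.Agent.Helper14.TX.Defs
import Pool.Agent.Helper14.TX.SumT

/-!
# The Hasse invariant of the explicit family

`M = (p - 1) / 2` is odd (`p` is congruent to `3` modulo `4`). `Hp p` is the coefficient of
`x ^ (p - 1)` in `(x ^ 3 + t a(t) x ^ 2 + t x) ^ M`, `a = t ^ M - 1`, a polynomial in `t`.

PROOF of `Hp_eq`. `x ^ 3 + b x ^ 2 + c x`: by the multinomial theorem the coefficient of `x ^ (2 M)`
in its `M`-th power is the sum over `i + j + k = M`, `3 i + 2 j + k = 2 M`, i.e. `k = i`,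
`j = M - 2 i`, of `M! / (i! (M - 2 i)! i!) b ^ (M - 2 i) c ^ i`; here
`M! / (i! i! (M - 2 i)!) = choose M (2 i) * choose (2 i) i` and
`b ^ (M - 2 i) c ^ i = X ^ (M - i) * (X ^ M - 1) ^ (M - 2 i)`. (E.g. write
`x ^ 3 + b x ^ 2 + c x = x * (x ^ 2 + b x + c)` and expand
`((x ^ 2 + c) + b x) ^ M = ∑ choose M j (b x) ^ (M - j) (x ^ 2 + c) ^ j`, of which the coefficient of
`x ^ M` comes from `j = 2 i`, with `choose (2 i) i c ^ i x ^ (2 i)`.)

PROOF of `Hp_coeff`. The monomials of `X ^ (M - i) * (X ^ M - 1) ^ (M - 2 i)` are `X ^ (M - i + M s)`,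
`0 ≤ s ≤ M - 2 i`. Suppose `M - i + M s = p u - c = 2 M u + (u - c)`; so
`M (1 + s - 2 u) = (u - c) + i`. If `u > c` then the right side is positive, so it is at least `M`
and `u - c ≥ M - i`, `2 u > M + 1` (as `2 i ≤ M`, `c ≥ 1`); but `1 + s - 2 u ≥ 1` and `s ≤ M` give
`2 u ≤ M`, a contradiction. If `u = c` then `M ∣ i`, `2 i ≤ M`, so `i = 0` and `s = 2 c - 1`: the
coefficient of `X ^ (M + M (2 c - 1))` in `X ^ M (X ^ M - 1) ^ M` is
`choose M (2 c - 1) (-1) ^ (M - 2 c + 1) = choose M (2 c - 1)` (`M` is odd).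
-/

set_option autoImplicit false

open Polynomial

namespace Pool.Agent.Helper14.TX

/-- The Hasse invariant of the explicit family. -/
noncomputable def Hp (p : ℕ) : (ZMod p)[X] :=
  ((X ^ 3 + C (X * expl p) * X ^ 2 + C X * X : (ZMod p)[X][X]) ^ ((p - 1) / 2)).coeff (p - 1)

private theorem sq_coeff {R : Type} [CommRing R] (c : R) (m : ℕ) :
    ((X ^ 2 + C c : R[X]) ^ m).coeff m =
      if Even m then ((Nat.choose m (m / 2) : ℕ) : R) * c ^ (m / 2) else 0 := by
  rw [add_pow, finsetSum_coeff]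
  have h1 : ∀ k ∈ Finset.range (m + 1), ((X ^ 2 : R[X]) ^ k * C c ^ (m - k) *
      ((Nat.choose m k : ℕ) : R[X])).coeff m =
      if 2 * k = m then ((Nat.choose m k : ℕ) : R) * c ^ (m - k) else 0 := by
    intro k _
    have e1 : (X ^ 2 : R[X]) ^ k * C c ^ (m - k) * ((Nat.choose m k : ℕ) : R[X]) =
        C (((Nat.choose m k : ℕ) : R) * c ^ (m - k)) * X ^ (2 * k) := by
      rw [← pow_mul, ← C_pow, ← map_natCast (C : R →+* R[X]), C_mul]
      ring
    rw [e1, coeff_C_mul_X_pow]
    by_cases h : 2 * k = m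
    · rw [if_pos h.symm, if_pos h]
    · rw [if_neg (fun h' => h h'.symm), if_neg h]
  rw [Finset.sum_congr rfl h1]
  by_cases he : Even m
  · rw [if_pos he, Finset.sum_eq_single (m / 2)]
    · have e2 : 2 * (m / 2) = m := Nat.two_mul_div_two_of_even he
      rw [if_pos e2]
      congr 2
      omega
    · intro b _ hb
      rw [if_neg]
      omega
    · intro h
      rw [Finset.mem_range] at h
      omega
  · rw [if_neg he]
    apply Finset.sum_eq_zero
    intro k _
    rw [if_neg]
    intro h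
    exact he ⟨k, by omega⟩

/-- the coefficient of the middle power -/
private theorem mid_coeff {R : Type} [CommRing R] (b c : R) (M : ℕ) :
    ((X ^ 3 + C b * X ^ 2 + C c * X : R[X]) ^ M).coeff (2 * M) =
      ∑ i ∈ Finset.range (M / 2 + 1),
        ((Nat.choose M (2 * i) * Nat.choose (2 * i) i : ℕ) : R) * (b ^ (M - 2 * i) * c ^ i) := by
  have e1 : (X ^ 3 + C b * X ^ 2 + C c * X : R[X]) ^ M =
      ((X ^ 2 + C c) + C b * X) ^ M * X ^ M := by
    rw [← mul_pow]
    congr 1
    ring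
  rw [e1, two_mul, coeff_mul_X_pow, add_pow, finsetSum_coeff]
  have e2 : ∀ m ∈ Finset.range (M + 1), ((X ^ 2 + C c : R[X]) ^ m * (C b * X) ^ (M - m) *
      ((Nat.choose M m : ℕ) : R[X])).coeff M =
      if Even m then ((Nat.choose M m * Nat.choose m (m / 2) : ℕ) : R) *
        (b ^ (M - m) * c ^ (m / 2)) else 0 := by
    intro m hm
    rw [Finset.mem_range] at hm
    have e3 : (X ^ 2 + C c : R[X]) ^ m * (C b * X) ^ (M - m) * ((Nat.choose M m : ℕ) : R[X]) =
        C (b ^ (M - m) * ((Nat.choose M m : ℕ) : R)) * ((X ^ 2 + C c) ^ m * X ^ (M - m)) := by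
      rw [mul_pow, ← C_pow, ← map_natCast (C : R →+* R[X]), C_mul]
      ring
    have e4 : M = m + (M - m) := by omega
    rw [e3, coeff_C_mul]
    nth_rewrite 4 [e4]
    rw [coeff_mul_X_pow, sq_coeff]
    split_ifs
    · push_cast
      ring
    · ring
  rw [Finset.sum_congr rfl e2]
  have e5 : (Finset.range (M / 2 + 1)).image (fun i => 2 * i) ⊆ Finset.range (M + 1) := by
    intro x hx
    obtain ⟨i, hi, rfl⟩ := Finset.mem_image.mp hx
    rw [Finset.mem_range] at hi ⊢
    omega
  rw [← Finset.sum_subset e5, Finset.sum_image]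
  · refine Finset.sum_congr rfl fun i _ => ?_
    rw [if_pos (even_two_mul i)]
    have e6 : 2 * i / 2 = i := by omega
    rw [e6]
  · intro a _ b _ hab
    simp only at hab
    omega
  · intro x hx hx'
    rw [if_neg]
    intro he
    apply hx'
    rw [Finset.mem_range] at hx
    rw [Finset.mem_image]
    refine ⟨x / 2, ?_, Nat.two_mul_div_two_of_even he⟩
    rw [Finset.mem_range]
    omega

theorem Hp_eq (p : ℕ) [Fact p.Prime] (hp : p % 4 = 3) : Hp p =
    ∑ i ∈ Finset.range ((p - 1) / 2 / 2 + 1),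
      C ((Nat.choose ((p - 1) / 2) (2 * i) * Nat.choose (2 * i) i : ℕ) : ZMod p) *
        (X ^ ((p - 1) / 2 - i) * (X ^ ((p - 1) / 2) - 1) ^ ((p - 1) / 2 - 2 * i)) := by
  unfold Hp
  have e1 : ((X ^ 3 + C (X * expl p) * X ^ 2 + C X * X : (ZMod p)[X][X]) ^ ((p - 1) / 2)).coeff
      (p - 1) = ((X ^ 3 + C (X * expl p) * X ^ 2 + C X * X : (ZMod p)[X][X]) ^
      ((p - 1) / 2)).coeff (2 * ((p - 1) / 2)) := by
    congr 1
    omega
  rw [e1, mid_coeff]
  refine Finset.sum_congr rfl fun i hi => ?_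
  rw [Finset.mem_range] at hi
  rw [← map_natCast (C : ZMod p →+* (ZMod p)[X])]
  congr 1
  unfold expl
  have e2 : (p - 1) / 2 - i = ((p - 1) / 2 - 2 * i) + i := by omega
  rw [mul_pow, e2, pow_add]
  ring

theorem natDegree_Hp (p : ℕ) [Fact p.Prime] (hp : p % 4 = 3) :
    (Hp p).natDegree < ((p + 1) / 4 + 1) * (p - 1) := by
  rw [Hp_eq p hp]
  obtain ⟨j, rfl⟩ : ∃ j, p = 4 * j + 3 := ⟨p / 4, by omega⟩
  have e1 : (4 * j + 3 - 1) / 2 = 2 * j + 1 := by omega
  have e2 : (4 * j + 3 + 1) / 4 = j + 1 := by omega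
  have e3 : 4 * j + 3 - 1 = 2 * (2 * j + 1) := by omega
  rw [e2, e3, Nat.mul_div_cancel_left _ (by norm_num : 0 < 2)]
  set M := 2 * j + 1 with hM
  have h1 : (∑ i ∈ Finset.range (M / 2 + 1),
      C ((Nat.choose M (2 * i) * Nat.choose (2 * i) i : ℕ) : ZMod (4 * j + 3)) *
        (X ^ (M - i) * (X ^ M - 1) ^ (M - 2 * i))).natDegree ≤ M + M * M := by
    apply natDegree_sum_le_of_forall_le
    intro i _
    refine (natDegree_C_mul_le _ _).trans (natDegree_mul_le.trans (add_le_add ?_ ?_))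
    · refine (natDegree_X_pow_le _).trans ?_
      omega
    · refine natDegree_pow_le.trans ?_
      have e4 : (X ^ M - 1 : (ZMod (4 * j + 3))[X]).natDegree ≤ M := by
        refine (natDegree_sub_le _ _).trans ?_
        rw [natDegree_one]
        exact max_le (natDegree_X_pow_le _) (Nat.zero_le _)
      exact Nat.mul_le_mul (by omega) e4
  refine lt_of_le_of_lt h1 ?_
  have hM0 : 0 < M := by omega
  nlinarith

private theorem prod_coeff {R : Type} [CommRing R] (a M r n : ℕ) :
    ((X : R[X]) ^ a * (X ^ M - 1) ^ r).coeff n =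
      ∑ s ∈ Finset.range (r + 1),
        if n = a + M * s then (-1) ^ (r - s) * ((Nat.choose r s : ℕ) : R) else 0 := by
  rw [sub_eq_add_neg, add_pow, Finset.mul_sum, finsetSum_coeff]
  refine Finset.sum_congr rfl fun s _ => ?_
  have e1 : (X : R[X]) ^ a * ((X ^ M) ^ s * (-1) ^ (r - s) * ((Nat.choose r s : ℕ) : R[X])) =
      C ((-1) ^ (r - s) * ((Nat.choose r s : ℕ) : R)) * X ^ (a + M * s) := by
    rw [C_mul, C_pow, C_neg, C_1, map_natCast, pow_add, pow_mul]
    ring
  rw [e1, coeff_C_mul_X_pow]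

theorem Hp_coeff (p : ℕ) [Fact p.Prime] (hp : p % 4 = 3) (c u : ℕ) (hc : 1 ≤ c)
    (hc2 : c ≤ (p + 1) / 4) (hcu : c ≤ u) :
    (Hp p).coeff (p * u - c) =
      if u = c then (Nat.choose ((p - 1) / 2) (2 * c - 1) : ZMod p) else 0 := by
  rw [Hp_eq p hp]
  set M := (p - 1) / 2 with hM
  have hpM : p = 2 * M + 1 := by omega
  have hodd : M % 2 = 1 := by omega
  have hcM : 2 * c ≤ M + 1 := by omega
  have hn : p * u - c = 2 * (M * u) + (u - c) := by
    rw [hpM]
    have : (2 * M + 1) * u = 2 * (M * u) + u := by ring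
    omega
  rw [hn, finsetSum_coeff]
  simp_rw [coeff_C_mul, prod_coeff]
  -- the key arithmetic fact
  have key : ∀ i s : ℕ, i < M / 2 + 1 → s < M - 2 * i + 1 →
      2 * (M * u) + (u - c) = M - i + M * s → u = c ∧ i = 0 ∧ s = 2 * c - 1 := by
    intro i s hi hs heq
    have h1 : 2 * (M * u) + (u - c) + i = M * (s + 1) := by
      rw [Nat.mul_add, Nat.mul_one]
      omega
    have hM0 : 0 < M := by omega
    by_cases huc : u = c
    · subst huc
      rw [Nat.sub_self, Nat.add_zero] at h1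
      have h2 : M ∣ i := by
        have h3 : M ∣ 2 * (M * u) + i := h1 ▸ Dvd.intro _ rfl
        exact (Nat.dvd_add_right (Dvd.dvd.mul_left (Dvd.intro _ rfl) 2)).mp h3
      have h4 : i = 0 := Nat.eq_zero_of_dvd_of_lt h2 (by omega)
      subst h4
      have h5 : M * (2 * u) = M * (s + 1) := by
        rw [← h1]
        ring
      have h6 := Nat.eq_of_mul_eq_mul_left hM0 h5
      exact ⟨rfl, rfl, by omega⟩
    · exfalso
      have h2 : M * (2 * u) < M * (s + 1) := by
        rw [← h1]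
        have : M * (2 * u) = 2 * (M * u) := by ring
        omega
      have h3 : 2 * u < s + 1 := lt_of_mul_lt_mul_left h2 (Nat.zero_le _)
      obtain ⟨w, hw⟩ : ∃ w, s + 1 = 2 * u + 1 + w := ⟨s - 2 * u, by omega⟩
      rw [hw] at h1
      have h4 : M * (2 * u + 1 + w) = 2 * (M * u) + M + M * w := by ring
      rw [h4] at h1
      have h5 : 0 ≤ M * w := Nat.zero_le _
      omega
  by_cases huc : u = c
  · rw [if_pos huc]
    rw [Finset.sum_eq_single 0, Finset.sum_eq_single (2 * c - 1)]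
    · have e1 : 2 * (M * u) + (u - c) = M - 0 + M * (2 * c - 1) := by
        obtain ⟨c', rfl⟩ : ∃ c', c = c' + 1 := ⟨c - 1, by omega⟩
        subst huc
        have : 2 * (c' + 1) - 1 = 2 * c' + 1 := by omega
        rw [this]
        have e3 : M * (2 * c' + 1) = 2 * (M * c') + M := by ring
        have e4 : M * (c' + 1) = M * c' + M := by ring
        rw [e3, e4]
        omega
      rw [if_pos e1]
      have e2 : Even (M - 2 * 0 - (2 * c - 1)) := by
        rw [Nat.even_iff]
        omega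
      rw [e2.neg_one_pow]
      simp
    · intro s hs hs'
      rw [if_neg]
      intro h
      exact hs' (key 0 s (by omega) (Finset.mem_range.mp hs) h).2.2
    · intro h
      rw [Finset.mem_range] at h
      omega
    · intro i hi hi'
      rw [Finset.sum_eq_zero, mul_zero]
      intro s hs
      rw [if_neg]
      intro h
      exact hi' (key i s (Finset.mem_range.mp hi) (Finset.mem_range.mp hs) h).2.1
    · intro h
      rw [Finset.mem_range] at h
      omega
  · rw [if_neg huc]
    apply Finset.sum_eq_zero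
    intro i hi
    rw [Finset.sum_eq_zero, mul_zero]
    intro s hs
    rw [if_neg]
    intro h
    exact huc (key i s (Finset.mem_range.mp hi) (Finset.mem_range.mp hs) h).1

end Pool.Agent.Helper14.TX
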