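import Pool.Agent.Helper14.TX.Defs
import Pool.Agent.Helper2.Tate.Roots
import Pool.Agent.Helper2.Tate.Plane

/-!
# The points of `x (x ^ 2 + t a x + t) = 0`

PROOF. Let `q` be the number of elements of `F`, `K` the set of elements of the algebraic closure
fixed by the `n`-th power of the Frobenius (`q ^ n` elements), `d = deg a` the degree of
`D = X a ^ 2 - 4`, `cnt` the number of roots of `D` in `K` (by `Pool.Agent.Helper2.Tate.ncard_roots`
it is `d` if `d` divides `n`, otherwise `0`; note `D.natDegree = deg a` because `a ≠ 0`, else `D` would be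
the unit `-4`).
The set is the disjoint union of `{x = 0}` (`q ^ n` points) and
`{x ≠ 0, x ^ 2 + t a(t) x + t = 0}`; in the second set `t ≠ 0`. The map `(t, x) ↦ (t, w)`,
`w = 2 x + t a(t)`, is a bijection from it to `{(t, w) : t ≠ 0, w ^ 2 = t (t a(t) ^ 2 - 4)}`
(`4 (x ^ 2 + t a x + t) = w ^ 2 - t ^ 2 a ^ 2 + 4 t`; `x = 0` would give `t = 0`). Apply
`Pool.Agent.Helper2.Tate.kummer` with `ℓ = 2`, `Φ = φ` the Frobenius, `V = {t | t ≠ 0}`,
`h t = t * (t * a(t) ^ 2 - 4)`: there is `s` divisible by `2 ^ v` with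
`#{(t, w)} = cnt + 2 (q ^ n - 1 - cnt) - 2 s` (`0` is not a root of `D` as `4 ≠ 0`). The total is
`q ^ n + 2 (q ^ n - 1) - cnt - 2 s`.
-/

set_option autoImplicit false

open Polynomial Pool.Agent.Helper2.Tate

namespace Pool.Agent.Helper14.TX

theorem natDegree_disc {F : Type} [Field F] (a : F[X]) (h2 : (2 : F) ≠ 0)
    (hirr : Irreducible (X * a ^ 2 - 4)) : (X * a ^ 2 - 4 : F[X]).natDegree = deg a := by
  have h4 : (4 : F) ≠ 0 := by
    have h : (4 : F) = 2 * 2 := by norm_num
    rw [h]; exact mul_ne_zero h2 h2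
  have e4 : (4 : F[X]) = C 4 := (map_ofNat C 4).symm
  have ha : a ≠ 0 := by
    rintro rfl
    apply hirr.not_isUnit
    have h : (X * (0 : F[X]) ^ 2 - 4 : F[X]) = C (-4) := by rw [e4]; simp
    rw [h]
    exact isUnit_C.2 (isUnit_iff_ne_zero.2 (neg_ne_zero.2 h4))
  rw [e4, natDegree_sub_C, natDegree_X_mul (pow_ne_zero 2 ha), natDegree_pow, deg]

section

variable (F : Type) [Field F] [Fintype F]

theorem two_dvd_card_sub_one (h2 : (2 : F) ≠ 0) : 2 ∣ Fintype.card F - 1 := by
  have h : ringChar F ≠ 2 := by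
    intro h
    apply h2
    have h3 := ringChar.Nat.cast_ringChar (R := F)
    rw [h] at h3
    exact_mod_cast h3
  have h4 := FiniteField.odd_card_of_char_ne_two h
  omega

/-- the `n`-th power of the Frobenius as a homomorphism of algebras -/
noncomputable def frobPow (n : ℕ) : AlgebraicClosure F →ₐ[F] AlgebraicClosure F :=
  (FiniteField.frobeniusAlgHom F (AlgebraicClosure F)) ^ n

theorem frobPow_apply (n : ℕ) (c : AlgebraicClosure F) :
    frobPow F n c = c ^ (Fintype.card F ^ n) := by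
  unfold frobPow
  rw [AlgHom.coe_pow]
  exact iterate_frob (frob F) (frob_apply F) n c

theorem ratOver_iff_frobPow (n : ℕ) (c : AlgebraicClosure F) :
    RatOver F n c ↔ frobPow F n c = c := by
  rw [frobPow_apply]; rfl

theorem ratOver_aeval (n : ℕ) (a : F[X]) (t : AlgebraicClosure F) (ht : RatOver F n t) :
    RatOver F n (aeval t a) := by
  rw [ratOver_iff_frobPow] at ht ⊢
  rw [← Polynomial.aeval_algHom_apply, ht]

theorem frob_polyAeval (a : F[X]) (t : AlgebraicClosure F) :
    aeval (frob F t) a = frob F (aeval t a) :=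
  Polynomial.aeval_algHom_apply (FiniteField.frobeniusAlgHom F (AlgebraicClosure F)) t a

end

/-- The number of points of `x (x ^ 2 + t a x + t) = 0` over the extension of degree `n`. -/
theorem zero_count (F : Type) [Field F] [Fintype F] (h2 : (2 : F) ≠ 0) (a : F[X])
    (hirr : Irreducible (X * a ^ 2 - 4)) (n : ℕ) (hn : 1 ≤ n) :
    ∃ s : ℕ, 2 ^ padicValNat 2 n ∣ s ∧
      (({P : AlgebraicClosure F × AlgebraicClosure F | (RatOver F n P.1 ∧ RatOver F n P.2) ∧
        P.2 ^ 3 + P.1 * aeval P.1 a * P.2 ^ 2 + P.1 * P.2 = 0}.ncard : ℕ) : ℤ) =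
        3 * (Fintype.card F : ℤ) ^ n - 2 - (if deg a ∣ n then (deg a : ℤ) else 0) - 2 * s := by
  classical
  have hq2 : 2 ≤ Fintype.card F := Fintype.one_lt_card
  have hdvd := two_dvd_card_sub_one F h2
  obtain ⟨p, hp, hpq, hpΩ⟩ := exists_charP F
  have h2Ω : ((2 : ℕ) : AlgebraicClosure F) ≠ 0 := cast_ne_zero F 2 Nat.prime_two hdvd
  have h2Ω' : (2 : AlgebraicClosure F) ≠ 0 := by exact_mod_cast h2Ω
  have h4Ω : (4 : AlgebraicClosure F) ≠ 0 := by
    have h : (4 : AlgebraicClosure F) = 2 * 2 := by norm_num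
    rw [h]; exact mul_ne_zero h2Ω' h2Ω'
  have hfinK := Kn_finite (Ω := AlgebraicClosure F) (Fintype.card F) n hq2 hn
  have hcardK := ncard_Kn (Ω := AlgebraicClosure F) p (Fintype.card F) n hq2 hpq hn
  have hrat0 : RatOver F n (0 : AlgebraicClosure F) := by
    rw [ratOver_iff_frobPow, map_zero]
  have hfix : ∀ c : AlgebraicClosure F, (frob F)^[n] c = c ↔ RatOver F n c := by
    intro c
    rw [iterate_frob (frob F) (frob_apply F) n c]
    rfl
  -- the base of the covering
  have eV : {P | P ∈ {t : AlgebraicClosure F | t ≠ 0} ∧ (frob F)^[n] P = P} =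
      Kn (AlgebraicClosure F) (Fintype.card F) n \ {0} := by
    ext c
    simp only [Set.mem_ofPred_eq, hfix, Set.mem_sdiff, Set.mem_singleton_iff]
    exact and_comm
  have eVcard : ({P | P ∈ {t : AlgebraicClosure F | t ≠ 0} ∧ (frob F)^[n] P = P}.ncard : ℤ) =
      (Fintype.card F : ℤ) ^ n - 1 := by
    rw [eV, Set.ncard_sdiff_singleton_of_mem (show (0 : AlgebraicClosure F) ∈
      Kn (AlgebraicClosure F) (Fintype.card F) n from hrat0), hcardK]
    have : 1 ≤ Fintype.card F ^ n := Nat.one_le_pow _ _ (by omega)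
    push_cast [Nat.cast_sub this]
    ring
  obtain ⟨s, hs, hc⟩ := kummer 2 (Fintype.card F) Nat.prime_two hq2 hdvd h2Ω (frob F)
    (frob_apply F) (frob F) {t : AlgebraicClosure F | t ≠ 0}
    (fun t ht => (map_ne_zero (frob F)).2 ht) (fun t => t * (t * aeval t a ^ 2 - 4))
    (fun t _ => by
      simp only [frob_polyAeval, map_mul, map_sub, map_pow, map_ofNat]) n hn
    (by rw [eV]; exact hfinK.subset Set.sdiff_subset)
  refine ⟨s, hs, ?_⟩
  -- the zeros of the discriminant
  have ez : {P | (P ∈ {t : AlgebraicClosure F | t ≠ 0} ∧ (frob F)^[n] P = P) ∧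
      P * (P * aeval P a ^ 2 - 4) = 0} = {c : AlgebraicClosure F |
        c ∈ Kn (AlgebraicClosure F) (Fintype.card F) n ∧ aeval c (X * a ^ 2 - 4) = 0} := by
    ext c
    simp only [Set.mem_ofPred_eq, hfix, map_sub, map_mul, map_pow, aeval_X, map_ofNat, mul_eq_zero]
    constructor
    · rintro ⟨⟨h1, h3⟩, h4 | h4⟩
      · exact absurd h4 h1
      · exact ⟨h3, h4⟩
    · rintro ⟨h3, h4⟩
      refine ⟨⟨?_, h3⟩, Or.inr h4⟩
      rintro rfl
      rw [zero_mul, zero_sub, neg_eq_zero] at h4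
      exact h4Ω h4
  have ezcard : ({P | (P ∈ {t : AlgebraicClosure F | t ≠ 0} ∧ (frob F)^[n] P = P) ∧
      P * (P * aeval P a ^ 2 - 4) = 0}.ncard : ℤ) = if deg a ∣ n then (deg a : ℤ) else 0 := by
    rw [ez, ncard_roots F _ hirr n, natDegree_disc a h2 hirr]
    split_ifs <;> simp
  rw [ezcard, eVcard] at hc
  -- the two parts
  set S0 : Set (AlgebraicClosure F × AlgebraicClosure F) :=
    (fun t => (t, (0 : AlgebraicClosure F))) '' Kn (AlgebraicClosure F) (Fintype.card F) n with hS0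
  set S1 : Set (AlgebraicClosure F × AlgebraicClosure F) :=
    {P | (RatOver F n P.1 ∧ RatOver F n P.2) ∧ P.2 ≠ 0 ∧
      P.2 ^ 2 + P.1 * aeval P.1 a * P.2 + P.1 = 0} with hS1
  have hS0card : S0.ncard = Fintype.card F ^ n := by
    rw [hS0, Set.ncard_image_of_injective _ (fun x y h => congrArg Prod.fst h), hcardK]
  have hS1card : (S1.ncard : ℤ) = (if deg a ∣ n then (deg a : ℤ) else 0) +
      2 * ((Fintype.card F : ℤ) ^ n - 1 - (if deg a ∣ n then (deg a : ℤ) else 0)) - 2 * s := by
    have e1 : (fun x : AlgebraicClosure F × AlgebraicClosure F =>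
        (x.1, 2 * x.2 + x.1 * aeval x.1 a)) '' S1 =
        {x : AlgebraicClosure F × AlgebraicClosure F |
          (x.1 ∈ {t : AlgebraicClosure F | t ≠ 0} ∧ (frob F)^[n] x.1 = x.1) ∧
          x.2 ∈ Kn (AlgebraicClosure F) (Fintype.card F) n ∧
          x.2 ^ 2 = x.1 * (x.1 * aeval x.1 a ^ 2 - 4)} := by
      ext ⟨t, w⟩
      simp only [Set.mem_image, hS1, Set.mem_ofPred_eq, hfix, Prod.mk.injEq, Prod.exists]
      constructor
      · rintro ⟨t', x, ⟨⟨h1, h3⟩, h4, h5⟩, rfl, rfl⟩
        refine ⟨⟨?_, h1⟩, ?_, ?_⟩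
        · rintro rfl
          apply h4
          have h6 : x ^ 2 = 0 := by linear_combination h5
          exact pow_eq_zero_iff (two_ne_zero) |>.1 h6
        · change RatOver F n _
          have h6 := ratOver_aeval F n a _ h1
          rw [ratOver_iff_frobPow] at h1 h3 h6 ⊢
          rw [map_add, map_mul, map_mul, map_ofNat, h1, h3, h6]
        · linear_combination 4 * h5
      · rintro ⟨⟨h1, h3⟩, h4, h5⟩
        have h4' : RatOver F n w := h4
        have h6 := ratOver_aeval F n a _ h3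
        obtain ⟨x, hx⟩ : ∃ x, 2 * x = w - t * aeval t a := ⟨(w - t * aeval t a) / 2, by
          field_simp⟩
        refine ⟨t, x, ⟨⟨h3, ?_⟩, ?_, ?_⟩, rfl, ?_⟩
        · rw [ratOver_iff_frobPow] at h3 h4' h6 ⊢
          have h8 := congrArg (frobPow F n) hx
          rw [map_mul, map_sub, map_mul, map_ofNat, h3, h4', h6, ← hx] at h8
          exact mul_left_cancel₀ h2Ω' h8
        · rintro rfl
          rw [mul_zero] at hx
          have h8 : w = t * aeval t a := (sub_eq_zero.1 hx.symm)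
          rw [h8] at h5
          have h9 : 4 * t = 0 := by linear_combination h5
          rcases mul_eq_zero.1 h9 with h | h
          · exact h4Ω h
          · exact h1 h
        · have h7 : 4 * (x ^ 2 + t * aeval t a * x + t) = 0 := by
            linear_combination h5 + (2 * x + w + t * aeval t a) * hx
          exact (mul_eq_zero.1 h7).resolve_left h4Ω
        · rw [hx]; ring
    have hinj : Function.Injective (fun x : AlgebraicClosure F × AlgebraicClosure F =>
        (x.1, 2 * x.2 + x.1 * aeval x.1 a)) := by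
      rintro ⟨t, x⟩ ⟨t', x'⟩ h
      simp only [Prod.mk.injEq] at h
      obtain ⟨rfl, h⟩ := h
      rw [add_left_inj] at h
      rw [mul_left_cancel₀ h2Ω' h]
    rw [← Set.ncard_image_of_injective _ hinj, e1]
    exact_mod_cast hc
  have hfin1 : S1.Finite := by
    apply (hfinK.prod hfinK).subset
    rintro P ⟨⟨h1, h3⟩, _⟩
    exact ⟨h1, h3⟩
  have hfin0 : S0.Finite := hfinK.image _
  have hunion : {P : AlgebraicClosure F × AlgebraicClosure F | (RatOver F n P.1 ∧
      RatOver F n P.2) ∧ P.2 ^ 3 + P.1 * aeval P.1 a * P.2 ^ 2 + P.1 * P.2 = 0} = S0 ∪ S1 := by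
    ext ⟨t, x⟩
    simp only [Set.mem_ofPred_eq, Set.mem_union, hS0, hS1, Set.mem_image, Prod.mk.injEq]
    constructor
    · rintro ⟨⟨h1, h3⟩, h4⟩
      by_cases hx : x = 0
      · left
        exact ⟨t, h1, rfl, hx.symm⟩
      · right
        refine ⟨⟨h1, h3⟩, hx, ?_⟩
        have h5 : x * (x ^ 2 + t * aeval t a * x + t) = 0 := by linear_combination h4
        exact (mul_eq_zero.1 h5).resolve_left hx
    · rintro (⟨t', h1, rfl, rfl⟩ | ⟨⟨h1, h3⟩, _, h5⟩)
      · exact ⟨⟨h1, hrat0⟩, by ring⟩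
      · exact ⟨⟨h1, h3⟩, by linear_combination x * h5⟩
  have hdisj : Disjoint S0 S1 := by
    rw [Set.disjoint_left]
    rintro ⟨t, x⟩ h1 h3
    rw [hS0, Set.mem_image] at h1
    obtain ⟨t', _, h4⟩ := h1
    exact h3.2.1 (congrArg Prod.snd h4).symm
  rw [hunion, Set.ncard_union_eq hdisj hfin0 hfin1, Nat.cast_add, hS1card, hS0card]
  push_cast
  ring

end Pool.Agent.Helper14.TX
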